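import Pool.Agent.W997.CS.Stm

/-!
# CS-SIM: a stack program over positions from a stack program over variables
-/

set_option autoImplicit false

namespace Pool.Agent.W412.CSSIM

open Pool.Agent.W997.GS (DSP)

/-- the words of length less than `L` -/
abbrev Wd (L : ℕ) : Type := {w : List Bool // w.length < L}

noncomputable instance instFintypeWd (L : ℕ) : Fintype (Wd L) :=
  @Fintype.ofFinite _ (List.finite_length_lt Bool L).to_subtype

theorem card_Wd (L : ℕ) : Fintype.card (Wd L) ≤ 2 ^ L := by
  have h1 : Fintype.card (Wd L) ≤ Fintype.card (Σ j : Fin L, List.Vector Bool j) := by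
    refine Fintype.card_le_of_injective (fun w : Wd L =>
      (⟨⟨w.1.length, w.2⟩, ⟨w.1, rfl⟩⟩ : Σ j : Fin L, List.Vector Bool j)) ?_
    intro a b h
    exact Subtype.ext (congrArg (fun s : Σ j : Fin L, List.Vector Bool j => s.2.1) h)
  refine h1.trans ?_
  rw [Fintype.card_sigma]
  simp only [card_vector, Fintype.card_bool]
  rw [Fin.sum_univ_eq_sum_range (fun j => 2 ^ j) L]
  have := Nat.geomSum_lt (m := 2) (n := L) (s := Finset.range L) le_rfl (by simp)
  exact this.le

section
variable {V : Type} {k m L : ℕ} (P : DSP V k) (pos : V → ℕ → Fin m) (hL : 1 ≤ L)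

/-- the number with the given digits -/
def num (L : ℕ) (w : List Bool) : ℕ := Nat.ofBits (fun e : Fin L => w.getD e false)

open Classical in
/-- the transition -/
noncomputable def nxt (s : P.State × Wd L) (top : Option P.Sym) (a : Fin 6) :
    ((P.State × Wd L) × List P.Sym) ⊕ Bool :=
  if h : (s.2.1 ++ [decide (a = 1)]).length < L then
    Sum.inl ((s.1, ⟨s.2.1 ++ [decide (a = 1)], h⟩), top.toList)
  else if hc : num L (s.2.1 ++ [decide (a = 1)]) < k then
    match P.next s.1 top ⟨_, hc⟩ with
    | Sum.inl q' => Sum.inl ((q'.1, ⟨[], hL⟩), q'.2)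
    | Sum.inr r => Sum.inr r
  else Sum.inr false

/-- the program over the positions -/
noncomputable def prog : DSP (Fin m) 6 where
  State := P.State × Wd L
  Sym := P.Sym
  start := (P.start, ⟨[], hL⟩)
  query := fun s => pos (P.query s.1) s.2.1.length
  next := nxt P hL

theorem size_prog : (prog P pos hL).size ≤ P.size * 2 ^ L := by
  have h1 : (prog P pos hL).size =
      Fintype.card P.State * Fintype.card (Wd L) + Fintype.card P.Sym := by
    unfold DSP.size
    exact congrArg (fun z => z + Fintype.card P.Sym) (Fintype.card_prod P.State (Wd L))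
  rw [h1]
  unfold DSP.size
  rw [Nat.add_mul]
  exact Nat.add_le_add (Nat.mul_le_mul_left _ (card_Wd L))
    (Nat.le_mul_of_pos_right _ (by positivity))

/-- the first `j` digits of a number -/
def pre (c j : ℕ) : List Bool := (List.range j).map c.testBit

theorem pre_length (c j : ℕ) : (pre c j).length = j := by simp [pre]

theorem pre_succ (c j : ℕ) : pre c (j + 1) = pre c j ++ [c.testBit j] := by
  simp [pre, List.range_succ]

theorem num_pre (c : ℕ) (h : c < 2 ^ L) : num L (pre c L) = c := by
  unfold num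
  have h1 : (fun e : Fin L => (pre c L).getD e false) = fun e : Fin L => c.testBit e := by
    funext e
    simp [pre, List.getD_eq_getElem?_getD]
  rw [h1, Nat.ofBits_testBit, Nat.mod_eq_of_lt h]

theorem stk {α : Type} (β : List α) : β = β.head?.toList ++ β.tail := by
  cases β <;> rfl

variable (x : V → Fin k) (w : Fin m → Fin 6)
  (hw : ∀ u e, e < L → w (pos u e) = if (x u).val.testBit e then 1 else 0)

include hw in
theorem letter (q : P.State) (j : ℕ) (hj : j < L) :
    decide (w (pos (P.query q) (pre (x (P.query q)).val j).length) = 1) =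
      (x (P.query q)).val.testBit j := by
  rw [pre_length, hw _ _ hj]
  cases (x (P.query q)).val.testBit j <;> simp

include hw in
theorem block (q : P.State) (β : List P.Sym) : ∀ (i j : ℕ) (hj : j + i + 1 = L)
    (l' : List ((P.State × Wd L) × List P.Sym)) (r : Bool),
    (prog P pos hL).IsPath w ((q, ⟨pre (x (P.query q)).val (L - 1),
      by rw [pre_length]; omega⟩), β) l' r →
    ∃ l'' : List ((P.State × Wd L) × List P.Sym), l''.length = i + l'.length ∧
      (prog P pos hL).IsPath w ((q, ⟨pre (x (P.query q)).val j, by rw [pre_length]; omega⟩), β)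
        l'' r ∧ ∀ κ ∈ l'', κ ∈ l' ∨ κ.2 = β
  | 0, j, hj, l', r, h => by
    refine ⟨l', by simp, ?_, fun κ hκ => Or.inl hκ⟩
    have : L - 1 = j := by omega
    subst this
    exact h
  | i + 1, j, hj, l', r, h => by
    obtain ⟨l'', h1, h2, h3⟩ := block q β i (j + 1) (by omega) l' r h
    refine ⟨((q, ⟨pre (x (P.query q)).val (j + 1), by rw [pre_length]; omega⟩), β) :: l'',
      ?_, ⟨⟨β.head?.toList, ?_, stk β⟩, h2⟩, ?_⟩
    · simp only [List.length_cons]
      omega
    · have hlet := letter P pos x w hw q j (by omega)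
      change nxt P hL (q, ⟨pre (x (P.query q)).val j, _⟩) β.head? (w (pos (P.query q)
        (pre (x (P.query q)).val j).length)) = _
      unfold nxt
      simp only [hlet, ← pre_succ]
      rw [dif_pos (by rw [pre_length]; omega)]
      rfl
    · intro κ hκ
      rcases List.mem_cons.1 hκ with rfl | hκ
      · exact Or.inr rfl
      · exact h3 κ hκ

include hw in
theorem last (hk : k ≤ 2 ^ L) (q : P.State) (top : Option P.Sym) :
    nxt P hL (q, ⟨pre (x (P.query q)).val (L - 1), by rw [pre_length]; omega⟩) top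
      (w (pos (P.query q) (pre (x (P.query q)).val (L - 1)).length)) =
    match P.next q top (x (P.query q)) with
    | Sum.inl q' => Sum.inl ((q'.1, ⟨[], hL⟩), q'.2)
    | Sum.inr r => Sum.inr r := by
  have hlet := letter P pos x w hw q (L - 1) (by omega)
  unfold nxt
  simp only [hlet, ← pre_succ]
  have h1 : L - 1 + 1 = L := by omega
  simp only [h1]
  rw [dif_neg (by rw [pre_length]; omega)]
  have h2 : num L (pre (x (P.query q)).val L) = (x (P.query q)).val :=
    num_pre _ ((x (P.query q)).2.trans_le hk)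
  simp only [h2, Fin.eta, Fin.is_lt, dif_pos]

include hw in
theorem path (hk : k ≤ 2 ^ L) (r : Bool) : ∀ (l : List P.Conf) (q : P.State) (β : List P.Sym),
    P.IsPath x (q, β) l r → ∃ l' : List ((P.State × Wd L) × List P.Sym),
      l'.length + 1 = L * (l.length + 1) ∧
      (prog P pos hL).IsPath w ((q, ⟨[], hL⟩), β) l' r ∧
      ∀ κ ∈ l', κ.2 = β ∨ ∃ κ₀ ∈ l, κ.2 = κ₀.2
  | [], q, β, h => by
    have h1 : P.next q β.head? (x (P.query q)) = Sum.inr r := h
    have h2 := last P pos hL x w hw hk q β.head?
    rw [h1] at h2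
    obtain ⟨l'', h3, h4, h5⟩ := block P pos hL x w hw q β (L - 1) 0 (by omega) [] r h2
    refine ⟨l'', ?_, h4, fun κ hκ => ?_⟩
    · simp only [List.length_nil] at h3 ⊢
      omega
    · rcases h5 κ hκ with h6 | h6
      · exact absurd h6 (by simp)
      · exact Or.inl h6
  | κ' :: l, q, β, h => by
    obtain ⟨⟨u, h1, h1'⟩, h5⟩ := h
    obtain ⟨q', β'⟩ := κ'
    change P.next q β.head? (x (P.query q)) = Sum.inl (q', u) at h1
    change β' = u ++ β.tail at h1'
    obtain ⟨l1, h6, h7, h9⟩ := path hk r l q' β' h5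
    have h2 := last P pos hL x w hw hk q β.head?
    rw [h1] at h2
    obtain ⟨l'', h3, h4, h10⟩ := block P pos hL x w hw q β (L - 1) 0 (by omega)
      (((q', ⟨[], hL⟩), β') :: l1) r ⟨⟨u, h2, h1'⟩, h7⟩
    refine ⟨l'', ?_, h4, fun κ hκ => ?_⟩
    · simp only [List.length_cons] at h3 ⊢
      have h8 : L * (l.length + 1 + 1) = L + L * (l.length + 1) := by ring
      rw [h8]
      omega
    · rcases h10 κ hκ with h11 | h11
      · rcases List.mem_cons.1 h11 with rfl | h12
        · exact Or.inr ⟨(q', β'), List.mem_cons_self, rfl⟩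
        · rcases h9 κ h12 with h13 | ⟨κ₀, h13, h14⟩
          · exact Or.inr ⟨(q', β'), List.mem_cons_self, h13⟩
          · exact Or.inr ⟨κ₀, List.mem_cons_of_mem _ h13, h14⟩
      · exact Or.inl h11

end

theorem main : Pool.Agent.W997.CS.S_SIM := by
  intro V _ m L P pos hL
  refine ⟨prog P pos hL, size_prog P pos hL, ?_⟩
  rintro x w hw t s τ r ⟨l, h1, h2, -, h4⟩
  obtain ⟨l', h5, h6, h7⟩ := path P pos hL x w hw le_rfl r l P.start [] h1
  refine ⟨_, l', h6, ?_, rfl, fun κ hκ => ?_⟩
  · rw [List.length_cons] at h2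
    rw [← h2]
    exact h5
  · rcases h7 κ hκ with h8 | ⟨κ₀, h8, h9⟩
    · exact (congrArg List.length h8).le.trans (Nat.zero_le _)
    · exact (congrArg List.length h9).le.trans (h4 κ₀ h8)

end Pool.Agent.W412.CSSIM
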