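import Mathlib

/-!
Basic set up: the free algebra on three letters, its homogeneous pieces, evaluation at operators
and abelianisation.
-/

set_option autoImplicit false

namespace Pool.Agent.W412

open Module

section Free

variable (k : Type) [Field k]

/-- The free algebra on three letters. -/
abbrev Fr : Type := FreeAlgebra k (Fin 3)

/-- abelianisation -/
noncomputable def ab : Fr k →ₐ[k] MvPolynomial (Fin 3) k :=
  FreeAlgebra.lift k (MvPolynomial.X : Fin 3 → MvPolynomial (Fin 3) k)

/-- span of the letters -/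
def V : Submodule k (Fr k) := Submodule.span k (Set.range (FreeAlgebra.ι k))

theorem ι_mem (i : Fin 3) : FreeAlgebra.ι k i ∈ V k := Submodule.subset_span ⟨i, rfl⟩

theorem ι_mem_one (i : Fin 3) : FreeAlgebra.ι k i ∈ V k ^ 1 := by
  rw [pow_one]; exact ι_mem k i

theorem one_mem_zero : (1 : Fr k) ∈ V k ^ 0 := by
  rw [pow_zero]; exact Submodule.one_le.mp le_rfl

theorem mul_mem {a b : Fr k} {m n : ℕ} (ha : a ∈ V k ^ m) (hb : b ∈ V k ^ n) :
    a * b ∈ V k ^ (m + n) := by
  rw [pow_add]; exact Submodule.mul_mem_mul ha hb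

theorem pow_mem {a : Fr k} {m : ℕ} (ha : a ∈ V k ^ m) (j : ℕ) : a ^ j ∈ V k ^ (m * j) := by
  rw [pow_mul]; exact Submodule.pow_mem_pow _ ha j

@[simp] theorem ab_ι (i : Fin 3) : ab k (FreeAlgebra.ι k i) = MvPolynomial.X i := by
  simp [ab]

/-- the monomial `t₀^a t₁^b t₂^c` -/
def mon (a b c : ℕ) : Fr k :=
  FreeAlgebra.ι k 0 ^ a * FreeAlgebra.ι k 1 ^ b * FreeAlgebra.ι k 2 ^ c

theorem mon_mem {a b c N : ℕ} (h : a + b + c = N) : mon k a b c ∈ V k ^ N := by
  subst h
  refine mul_mem k (mul_mem k ?_ ?_) ?_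
  · simpa using pow_mem k (ι_mem_one k 0) a
  · simpa using pow_mem k (ι_mem_one k 1) b
  · simpa using pow_mem k (ι_mem_one k 2) c

/-- exponent vector -/
noncomputable def ex (a b c : ℕ) : Fin 3 →₀ ℕ :=
  Finsupp.single 0 a + Finsupp.single 1 b + Finsupp.single 2 c

theorem ab_mon (a b c : ℕ) : ab k (mon k a b c) = MvPolynomial.monomial (ex a b c) 1 := by
  rw [mon, map_mul, map_mul, map_pow, map_pow, map_pow, ab_ι, ab_ι, ab_ι,
    MvPolynomial.X_pow_eq_monomial, MvPolynomial.X_pow_eq_monomial,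
    MvPolynomial.X_pow_eq_monomial, MvPolynomial.monomial_mul, MvPolynomial.monomial_mul]
  simp [ex]

theorem ex_inj {a b c a' b' c' : ℕ} (h : ex a b c = ex a' b' c') : a = a' ∧ b = b' := by
  have h0 := DFunLike.congr_fun h 0
  have h1 := DFunLike.congr_fun h 1
  simp [ex] at h0 h1
  exact ⟨h0, h1⟩

/-- A linear combination of the monomials of degree `N` indexed by a finite box. -/
def comb (N K : ℕ) (c : Fin K × Fin K → k) : Fr k :=
  ∑ p, c p • mon k p.1 p.2 (N - p.1 - p.2)

theorem comb_mem {N K : ℕ} (h : 2 * K ≤ N) (c : Fin K × Fin K → k) : comb k N K c ∈ V k ^ N := by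
  refine Submodule.sum_mem _ fun p _ => Submodule.smul_mem _ _ (mon_mem k ?_)
  have := p.1.2
  have := p.2.2
  omega

theorem ab_comb_eq_zero {N K : ℕ} (c : Fin K × Fin K → k) (h : ab k (comb k N K c) = 0) :
    c = 0 := by
  funext q
  have h1 := congrArg (MvPolynomial.coeff (ex q.1 q.2 (N - q.1 - q.2))) h
  rw [comb, map_sum, MvPolynomial.coeff_sum, MvPolynomial.coeff_zero,
    Finset.sum_eq_single_of_mem q (Finset.mem_univ q)] at h1
  · rw [map_smul, ab_mon, MvPolynomial.coeff_smul, MvPolynomial.coeff_monomial, if_pos rfl] at h1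
    simpa using h1
  · intro p _ hp
    rw [map_smul, ab_mon, MvPolynomial.coeff_smul, MvPolynomial.coeff_monomial, if_neg, smul_zero]
    intro he
    apply hp
    obtain ⟨h1, h2⟩ := ex_inj he
    exact Prod.ext (Fin.ext h1) (Fin.ext h2)

theorem comb_add (N K : ℕ) (c c' : Fin K × Fin K → k) :
    comb k N K (c + c') = comb k N K c + comb k N K c' := by
  simp [comb, add_smul, Finset.sum_add_distrib]

theorem comb_smul (N K : ℕ) (r : k) (c : Fin K × Fin K → k) :
    comb k N K (r • c) = r • comb k N K c := by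
  simp [comb, Finset.smul_sum, smul_smul]

/-- `comb` as a linear map -/
def combL (N K : ℕ) : (Fin K × Fin K → k) →ₗ[k] Fr k where
  toFun := comb k N K
  map_add' := comb_add k N K
  map_smul' := comb_smul k N K

/-- substitution `t_i ↦ q t_i` -/
noncomputable def sub (q : Fr k) : Fr k →ₐ[k] Fr k :=
  FreeAlgebra.lift k (fun i => q * FreeAlgebra.ι k i)

@[simp] theorem sub_ι (q : Fr k) (i : Fin 3) :
    sub k q (FreeAlgebra.ι k i) = q * FreeAlgebra.ι k i := by simp [sub]

theorem sub_mem {q : Fr k} {e : ℕ} (hq : q ∈ V k ^ e) {N : ℕ} {γ : Fr k} (hγ : γ ∈ V k ^ N) :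
    sub k q γ ∈ V k ^ (N * (e + 1)) := by
  have h1 : Submodule.map (sub k q).toLinearMap (V k) ≤ V k ^ (e + 1) := by
    rw [V, Submodule.map_span, Submodule.span_le]
    rintro _ ⟨_, ⟨i, rfl⟩, rfl⟩
    simp only [AlgHom.toLinearMap_apply, sub_ι]
    exact mul_mem k hq (ι_mem_one k i)
  have h2 : sub k q γ ∈ Submodule.map (sub k q).toLinearMap (V k ^ N) := ⟨γ, hγ, rfl⟩
  rw [Submodule.map_pow] at h2
  have h3 : Submodule.map (sub k q).toLinearMap (V k) ^ N ≤ (V k ^ (e + 1)) ^ N :=
    pow_le_pow_left' h1 N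
  have h4 := h3 h2
  rwa [← pow_mul, mul_comm] at h4

theorem ab_sub {q : Fr k} {N : ℕ} {γ : Fr k} (hγ : γ ∈ V k ^ N) :
    ab k (sub k q γ) = ab k q ^ N * ab k γ := by
  induction N generalizing γ with
  | zero =>
    rw [pow_zero] at hγ
    obtain ⟨r, rfl⟩ := Submodule.mem_one.mp hγ
    rw [AlgHom.commutes, pow_zero, one_mul]
  | succ N ih =>
    rw [pow_succ] at hγ
    refine Submodule.mul_induction_on hγ ?_ ?_
    · intro m hm n hn
      rw [map_mul, map_mul, ih hm, map_mul, pow_succ]
      have hn' : ab k (sub k q n) = ab k q * ab k n := by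
        refine Submodule.span_induction ?_ ?_ ?_ ?_ hn
        · rintro _ ⟨i, rfl⟩
          simp
        · simp
        · intro x y _ _ hx hy
          rw [map_add, map_add, hx, hy, map_add, mul_add]
        · intro a x _ hx
          rw [map_smul, map_smul, hx, map_smul, mul_smul_comm]
      rw [hn']; ring
    · intro x y hx hy
      rw [map_add, map_add, hx, hy, map_add, mul_add]

end Free

end Pool.Agent.W412
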