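import Mathlib
import Pool.Agent.W412.LemA

/-!
Growth condition and the two restriction steps.
-/

set_option autoImplicit false

namespace Pool.Agent.W412

open Module

section Setup

variable {k : Type} [Field k] {D : Type} [DivisionRing D] [Algebra k D]
variable {M : Type} [AddCommGroup M] [Module D M] [Module k M] [IsScalarTower k D M]

/-- evaluation at three operators -/
noncomputable def ev (P : Fin 3 → Module.End D M) : Fr k →ₐ[k] Module.End D M :=
  FreeAlgebra.lift k P

@[simp] theorem ev_ι (P : Fin 3 → Module.End D M) (i : Fin 3) :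
    ev (k := k) P (FreeAlgebra.ι k i) = P i := by simp [ev]

/-- the span of `1, x, y` -/
def En (k : Type) [Field k] {D : Type} [DivisionRing D] [Algebra k D] (x y : D) : Submodule k D :=
  Submodule.span k {1, x, y}

theorem one_mem_En (x y : D) : (1 : D) ∈ En k x y := Submodule.subset_span (by simp)

theorem En_mono (x y : D) {m n : ℕ} (h : m ≤ n) : En k x y ^ m ≤ En k x y ^ n :=
  pow_le_pow_right' (Submodule.one_le.mpr (one_mem_En x y)) h

/-- the growth condition -/
def Growth (k : Type) [Field k] {D : Type} [DivisionRing D] [Algebra k D]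
    {M : Type} [AddCommGroup M] [Module D M] [Module k M] [IsScalarTower k D M]
    (x y : D) (P : Fin 3 → Module.End D M) : Prop :=
  ∃ (s : Finset M) (C : ℕ) (F : ℕ → Submodule k M), Submodule.span D (s : Set M) = ⊤ ∧
    (∀ N, Module.Finite k (F N)) ∧ (∀ N, Module.finrank k (F N) ≤ C * (N + 1) ^ 2) ∧
    ∀ N, ∀ N' ≤ N, ∀ γ ∈ V k ^ N', ∀ e ∈ En k x y ^ N, ∀ m ∈ s, ev (k := k) P γ (e • m) ∈ F N

/-- the conclusion -/
def Good (k : Type) [Field k] {D : Type} [DivisionRing D] [Algebra k D]
    {M : Type} [AddCommGroup M] [Module D M] [Module k M] [IsScalarTower k D M]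
    (P : Fin 3 → Module.End D M) : Prop :=
  ∃ N, ∃ γ ∈ V k ^ N, ev (k := k) P γ = 0 ∧ ab k γ ≠ 0

/-- finite dimensionality and dimension bound for the preimage of a subspace under an injection -/
theorem comap_bound {A B : Type} [AddCommGroup A] [Module k A] [AddCommGroup B] [Module k B]
    (f : A →ₗ[k] B) (hf : Function.Injective f) (F : Submodule k B) [Module.Finite k F] :
    Module.Finite k (F.comap f) ∧ Module.finrank k (F.comap f) ≤ Module.finrank k F := by
  let g : F.comap f →ₗ[k] F := (f.comp (F.comap f).subtype).codRestrict F (fun c => c.2)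
  have hg : Function.Injective g := by
    intro a b h
    apply Subtype.ext
    apply hf
    exact congrArg Subtype.val h
  exact ⟨Module.Finite.of_injective g hg, LinearMap.finrank_le_finrank_of_injective hg⟩

/-- operators `q P_i` restricted to the range of `q` -/
noncomputable def restr (P : Fin 3 → Module.End D M) (q : Module.End D M) (i : Fin 3) :
    Module.End D (LinearMap.range q) :=
  (q.rangeRestrict).comp ((P i).comp (LinearMap.range q).subtype)

theorem ev_restr (P : Fin 3 → Module.End D M) (q : Fr k) (γ : Fr k)
    (m : LinearMap.range (ev (k := k) P q)) :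
    ((ev (k := k) (restr P (ev (k := k) P q)) γ m : LinearMap.range (ev (k := k) P q)) : M) =
      ev (k := k) P (sub k q γ) (m : M) := by
  induction γ using FreeAlgebra.induction generalizing m with
  | grade0 r =>
    rw [AlgHom.commutes, AlgHom.commutes, AlgHom.commutes, Module.algebraMap_end_apply,
      Module.algebraMap_end_apply]
    rfl
  | grade1 i =>
    rw [ev_ι, sub_ι, map_mul, ev_ι]
    rfl
  | mul a b ha hb =>
    rw [map_mul, map_mul, map_mul, Module.End.mul_apply, Module.End.mul_apply, ha, hb]
  | add a b ha hb =>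
    rw [map_add, map_add, map_add, LinearMap.add_apply, LinearMap.add_apply, Submodule.coe_add,
      ha, hb]

theorem Growth.restr {x y : D} {P : Fin 3 → Module.End D M} (h : Growth k x y P) {e : ℕ}
    {q : Fr k} (hq : q ∈ V k ^ e) : Growth k x y (restr P (ev (k := k) P q)) := by
  classical
  obtain ⟨s, C, F, hs, hF1, hF2, hF3⟩ := h
  let j : LinearMap.range (ev (k := k) P q) →ₗ[k] M :=
    (LinearMap.range (ev (k := k) P q)).subtype.restrictScalars k
  have hj : Function.Injective j := Subtype.val_injective
  refine ⟨s.image (fun m => (ev (k := k) P q).rangeRestrict m), C * (e + 1) ^ 2,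
    fun N => (F (N * (e + 1) + e)).comap j, ?_, ?_, ?_, ?_⟩
  · rw [Finset.coe_image, ← Submodule.map_span, hs, Submodule.map_top,
      LinearMap.range_eq_top]
    exact LinearMap.surjective_rangeRestrict _
  · intro N
    have := hF1 (N * (e + 1) + e)
    exact (comap_bound j hj _).1
  · intro N
    have := hF1 (N * (e + 1) + e)
    refine ((comap_bound j hj _).2.trans (hF2 _)).trans (le_of_eq ?_)
    ring
  · intro N N' hN γ hγ a ha m hm
    obtain ⟨m', hm', rfl⟩ := Finset.mem_image.mp hm
    rw [Submodule.mem_comap]
    change ((ev (k := k) (Pool.Agent.W412.restr P (ev (k := k) P q)) γ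
      (a • (ev (k := k) P q).rangeRestrict m') : LinearMap.range (ev (k := k) P q)) : M) ∈ _
    rw [ev_restr]
    have h1 : ev (k := k) P (sub k q γ) ((a • (ev (k := k) P q).rangeRestrict m' :
        LinearMap.range (ev (k := k) P q)) : M) = ev (k := k) P (sub k q γ * q) (a • m') := by
      rw [map_mul, Module.End.mul_apply, Submodule.coe_smul, map_smul (ev (k := k) P q)]
      rfl
    rw [h1]
    refine hF3 _ (N' * (e + 1) + e) ?_ _ (mul_mem k (sub_mem k hq hγ) hq) _ ?_ _ hm'
    · have := Nat.mul_le_mul_right (e + 1) hN
      omega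
    · exact En_mono x y (by nlinarith) ha

/-- Step 2: elements with nonzero abelianisation act surjectively. -/
theorem surj_of_fail [FiniteDimensional D M] {x y : D} {P : Fin 3 → Module.End D M}
    (h : Growth k x y P)
    (IH : ∀ (M' : Type) [AddCommGroup M'] [Module D M'] [Module k M'] [IsScalarTower k D M']
      [FiniteDimensional D M'], Module.finrank D M' < Module.finrank D M →
      ∀ P' : Fin 3 → Module.End D M', Growth k x y P' → Good k P')
    (hfail : ¬ Good k P) {N : ℕ} {q : Fr k} (hq : q ∈ V k ^ N) (hab : ab k q ≠ 0) :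
    Function.Surjective (ev (k := k) P q) := by
  by_contra hns
  rw [← LinearMap.range_eq_top] at hns
  have hlt : Module.finrank D (LinearMap.range (ev (k := k) P q)) < Module.finrank D M :=
    Submodule.finrank_lt hns
  obtain ⟨N', γ, hγ, h0, h1⟩ := IH _ hlt _ (h.restr hq)
  apply hfail
  refine ⟨N' * (N + 1) + N, sub k q γ * q, mul_mem k (sub_mem k hq hγ) hq, ?_, ?_⟩
  · apply LinearMap.ext
    intro m
    rw [map_mul, Module.End.mul_apply, LinearMap.zero_apply]
    have h2 := ev_restr P q γ ((ev (k := k) P q).rangeRestrict m)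
    rw [h0] at h2
    exact h2.symm
  · rw [map_mul, ab_sub k hγ]
    exact mul_ne_zero (mul_ne_zero (pow_ne_zero _ hab) h1) hab

theorem inj_of_fail [FiniteDimensional D M] {x y : D} {P : Fin 3 → Module.End D M}
    (h : Growth k x y P)
    (IH : ∀ (M' : Type) [AddCommGroup M'] [Module D M'] [Module k M'] [IsScalarTower k D M']
      [FiniteDimensional D M'], Module.finrank D M' < Module.finrank D M →
      ∀ P' : Fin 3 → Module.End D M', Growth k x y P' → Good k P')
    (hfail : ¬ Good k P) {N : ℕ} {q : Fr k} (hq : q ∈ V k ^ N) (hab : ab k q ≠ 0) :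
    Function.Injective (ev (k := k) P q) :=
  LinearMap.injective_iff_surjective.mpr (surj_of_fail h IH hfail hq hab)

end Setup

end Pool.Agent.W412
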