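import Mathlib
import Pool.Agent.W412.LemB

/-!
Existence of a non nilpotent element in the kernel of the abelianisation.
-/

set_option autoImplicit false

namespace Pool.Agent.W412

open Module

section Setup

variable {k : Type} [Field k] {D : Type} [DivisionRing D] [Algebra k D]
variable {M : Type} [AddCommGroup M] [Module D M] [Module k M] [IsScalarTower k D M]

/-- the restriction to an invariant subspace -/
def inv (P : Fin 3 → Module.End D M) (W : Submodule D M) (hW : ∀ i, ∀ w ∈ W, P i w ∈ W)
    (i : Fin 3) : Module.End D W := (P i).restrict (hW i)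

theorem ev_inv (P : Fin 3 → Module.End D M) (W : Submodule D M) (hW : ∀ i, ∀ w ∈ W, P i w ∈ W)
    (γ : Fr k) (w : W) : ((ev (k := k) (inv P W hW) γ w : W) : M) = ev (k := k) P γ (w : M) := by
  induction γ using FreeAlgebra.induction generalizing w with
  | grade0 r =>
    rw [AlgHom.commutes, AlgHom.commutes, Module.algebraMap_end_apply,
      Module.algebraMap_end_apply]
    rfl
  | grade1 i =>
    rw [ev_ι, ev_ι]
    rfl
  | mul a b ha hb =>
    rw [map_mul, map_mul, Module.End.mul_apply, Module.End.mul_apply, ha, hb]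
  | add a b ha hb =>
    rw [map_add, map_add, LinearMap.add_apply, LinearMap.add_apply, Submodule.coe_add,
      ha, hb]

/-- the growth condition for an invariant subspace generated by the image of a homogeneous
element -/
theorem Growth.inv [FiniteDimensional D M] {x y : D} {P : Fin 3 → Module.End D M}
    (h : Growth k x y P) {e : ℕ}
    {a : Fr k} (ha : a ∈ V k ^ e) (W : Submodule D M) (hW : ∀ i, ∀ w ∈ W, P i w ∈ W)
    (hspan : W = Submodule.span D
      {z | ∃ N, ∃ γ ∈ V k ^ N, ∃ m, z = ev (k := k) P γ (ev (k := k) P a m)}) :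
    Growth k x y (inv P W hW) := by
  classical
  obtain ⟨s, C, F, hs, hF1, hF2, hF3⟩ := h
  -- smaller spanning set
  have hspan2 : W = Submodule.span D
      {z | ∃ N, ∃ γ ∈ V k ^ N, ∃ m ∈ s, z = ev (k := k) P γ (ev (k := k) P a m)} := by
    rw [hspan]
    apply le_antisymm
    · rw [Submodule.span_le]
      rintro _ ⟨N, γ, hγ, m, rfl⟩
      have hm : m ∈ Submodule.span D (s : Set M) := by rw [hs]; trivial
      refine Submodule.span_induction ?_ ?_ ?_ ?_ hm
      · intro m' hm'
        exact Submodule.subset_span ⟨N, γ, hγ, m', hm', rfl⟩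
      · simp only [map_zero]; exact Submodule.zero_mem _
      · intro u v _ _ hu hv
        simp only [map_add]; exact Submodule.add_mem _ hu hv
      · intro r u _ hu
        simp only [map_smul]; exact Submodule.smul_mem _ _ hu
    · apply Submodule.span_mono
      rintro _ ⟨N, γ, hγ, m, _, rfl⟩
      exact ⟨N, γ, hγ, m, rfl⟩
  have hfg : (Submodule.span D
      {z | ∃ N, ∃ γ ∈ V k ^ N, ∃ m ∈ s, z = ev (k := k) P γ (ev (k := k) P a m)}).FG := by
    rw [← hspan2]
    exact IsNoetherian.noetherian W
  obtain ⟨t, ht, htspan⟩ := (Submodule.fg_span_iff_fg_span_finset_subset _).mp hfg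
  rw [← hspan2] at htspan
  have ht' : ∀ z : M, z ∈ t → ∃ N, ∃ γ ∈ V k ^ N, ∃ m ∈ s,
      z = ev (k := k) P γ (ev (k := k) P a m) := fun z hz => ht hz
  choose! Nz hNz using ht'
  have htW : ∀ z ∈ t, z ∈ W := by
    intro z hz
    rw [htspan]
    exact Submodule.subset_span hz
  let K := t.sup Nz + e
  let j : W →ₗ[k] M := W.subtype.restrictScalars k
  have hj : Function.Injective j := Subtype.val_injective
  refine ⟨t.attach.image (fun z => (⟨z.1, htW z.1 z.2⟩ : W)), C * (K + 1) ^ 2,
    fun N => (F (N + K)).comap j, ?_, ?_, ?_, ?_⟩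
  · apply Submodule.map_injective_of_injective (W.injective_subtype)
    rw [Submodule.map_span, Submodule.map_top, Submodule.range_subtype]
    refine Eq.trans ?_ htspan.symm
    congr 1
    ext z
    simp only [Finset.coe_image, Set.mem_image, Finset.mem_coe]
    constructor
    · rintro ⟨w, ⟨u, _, rfl⟩, rfl⟩
      exact u.2
    · intro hz
      exact ⟨⟨z, htW z hz⟩, ⟨⟨z, hz⟩, Finset.mem_attach _ _, rfl⟩, rfl⟩
  · intro N
    have := hF1 (N + K)
    exact (comap_bound j hj _).1
  · intro N
    have := hF1 (N + K)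
    refine ((comap_bound j hj _).2.trans (hF2 _)).trans ?_
    rw [mul_assoc]
    apply Nat.mul_le_mul_left
    rw [← mul_pow]
    apply Nat.pow_le_pow_left
    nlinarith
  · intro N N' hN γ hγ b hb w hw
    obtain ⟨z, _, rfl⟩ := Finset.mem_image.mp hw
    rw [Submodule.mem_comap]
    change ((ev (k := k) (Pool.Agent.W412.inv P W hW) γ
      (b • (⟨z.1, htW z.1 z.2⟩ : W)) : W) : M) ∈ _
    rw [ev_inv]
    obtain ⟨γ', hγ', m, hm, hz⟩ := hNz z.1 z.2
    have h1 : ev (k := k) P γ ((b • (⟨z.1, htW z.1 z.2⟩ : W) : W) : M) =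
        ev (k := k) P (γ * (γ' * a)) (b • m) := by
      rw [map_mul, map_mul, Module.End.mul_apply, Module.End.mul_apply, Submodule.coe_smul,
        map_smul (ev (k := k) P a), map_smul (ev (k := k) P γ'), ← hz]
    rw [h1]
    refine hF3 _ (N' + (Nz z.1 + e)) ?_ _ (mul_mem k hγ (mul_mem k hγ' ha)) _ ?_ _ hm
    · have : Nz z.1 ≤ t.sup Nz := Finset.le_sup z.2
      change _ ≤ N + (t.sup Nz + e)
      omega
    · exact En_mono x y (by omega) hb

theorem exists_nonnil [FiniteDimensional D M] {x y : D} {P : Fin 3 → Module.End D M}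
    (h : Growth k x y P)
    (IH : ∀ (M' : Type) [AddCommGroup M'] [Module D M'] [Module k M'] [IsScalarTower k D M']
      [FiniteDimensional D M'], Module.finrank D M' < Module.finrank D M →
      ∀ P' : Fin 3 → Module.End D M', Growth k x y P' → Good k P')
    (hfail : ¬ Good k P)
    (hK : ∃ N, ∃ c ∈ V k ^ N, ab k c = 0 ∧ ev (k := k) P c ≠ 0) :
    ∃ N, ∃ c ∈ V k ^ N, ab k c = 0 ∧ ¬ IsNilpotent (ev (k := k) P c) := by
  classical
  by_contra hcon
  push Not at hcon
  -- minimal rank
  have hex : ∃ r, ∃ N, ∃ c ∈ V k ^ N, ab k c = 0 ∧ ev (k := k) P c ≠ 0 ∧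
      Module.finrank D (LinearMap.range (ev (k := k) P c)) = r := by
    obtain ⟨N, c, hc, h1, h2⟩ := hK
    exact ⟨_, N, c, hc, h1, h2, rfl⟩
  obtain ⟨e, a, ha, ha0, ha1, har⟩ := Nat.find_spec hex
  have hmin : ∀ N, ∀ c ∈ V k ^ N, ab k c = 0 → ev (k := k) P c ≠ 0 →
      Module.finrank D (LinearMap.range (ev (k := k) P a)) ≤
        Module.finrank D (LinearMap.range (ev (k := k) P c)) := by
    intro N c hc h1 h2
    rw [har]
    exact Nat.find_min' hex ⟨N, c, hc, h1, h2, rfl⟩
  -- a b a = 0
  have haba : ∀ N, ∀ b ∈ V k ^ N, ev (k := k) P (a * b * a) = 0 := by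
    intro N b hb
    by_contra hne
    have h1 : ab k (a * b * a) = 0 := by rw [map_mul, ha0, mul_zero]
    have h2 := hmin _ _ (mul_mem k (mul_mem k ha hb) ha) h1 hne
    have h3 : LinearMap.range (ev (k := k) P (a * b * a)) ≤ LinearMap.range (ev (k := k) P a) := by
      rw [mul_assoc, map_mul]
      exact LinearMap.range_comp_le_range _ _
    have h4 : LinearMap.range (ev (k := k) P (a * b * a)) = LinearMap.range (ev (k := k) P a) :=
      Submodule.eq_of_le_of_finrank_le h3 h2
    have h5 : ab k (a * b) = 0 := by rw [map_mul, ha0, zero_mul]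
    obtain ⟨j, hj⟩ := hcon _ _ (mul_mem k ha hb) h5
    have h6 : ∀ j, Submodule.map (ev (k := k) P (a * b) ^ j) (LinearMap.range (ev (k := k) P a)) =
        LinearMap.range (ev (k := k) P a) := by
      intro j
      induction j with
      | zero => rw [pow_zero]; exact Submodule.map_id _
      | succ j ih =>
        rw [pow_succ, Module.End.mul_eq_comp, Submodule.map_comp]
        have h7 : Submodule.map (ev (k := k) P (a * b)) (LinearMap.range (ev (k := k) P a)) =
            LinearMap.range (ev (k := k) P a) := by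
          rw [← LinearMap.range_comp, ← Module.End.mul_eq_comp, ← map_mul, h4]
        rw [h7, ih]
    have h8 := h6 j
    rw [hj, Submodule.map_zero] at h8
    apply ha1
    rw [← LinearMap.range_eq_bot, ← h8]
  -- the invariant subspace
  let Z : Set M := {z | ∃ N, ∃ γ ∈ V k ^ N, ∃ m, z = ev (k := k) P γ (ev (k := k) P a m)}
  let W : Submodule D M := Submodule.span D Z
  have hW : ∀ i, ∀ w ∈ W, P i w ∈ W := by
    intro i w hw
    refine Submodule.span_induction ?_ ?_ ?_ ?_ hw
    · rintro _ ⟨N, γ, hγ, m, rfl⟩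
      refine Submodule.subset_span ⟨1 + N, FreeAlgebra.ι k i * γ, mul_mem k (ι_mem_one k i) hγ,
        m, ?_⟩
      rw [map_mul, ev_ι]
      rfl
    · rw [map_zero]; exact Submodule.zero_mem _
    · intro u v _ _ hu hv
      rw [map_add]; exact Submodule.add_mem _ hu hv
    · intro r u _ hu
      rw [map_smul]; exact Submodule.smul_mem _ _ hu
  have haW : ∀ w ∈ W, ev (k := k) P a w = 0 := by
    intro w hw
    refine Submodule.span_induction ?_ ?_ ?_ ?_ hw
    · rintro _ ⟨N, γ, hγ, m, rfl⟩
      have := haba N γ hγ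
      rw [map_mul, map_mul] at this
      exact LinearMap.congr_fun this m
    · rw [map_zero]
    · intro u v _ _ hu hv
      rw [map_add, hu, hv, add_zero]
    · intro r u _ hu
      rw [map_smul, hu, smul_zero]
  have hWtop : W ≠ ⊤ := by
    intro htop
    apply ha1
    apply LinearMap.ext
    intro m
    exact haW m (by rw [htop]; trivial)
  have hWlt : Module.finrank D W < Module.finrank D M := Submodule.finrank_lt hWtop
  have hg : Growth k x y (inv P W hW) := h.inv ha W hW rfl
  obtain ⟨N, γ, hγ, h0, h1⟩ := IH W hWlt _ hg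
  have hinj := inj_of_fail h IH hfail hγ h1
  apply ha1
  apply LinearMap.ext
  intro m
  have hmW : ev (k := k) P a m ∈ W := by
    refine Submodule.subset_span ⟨0, 1, one_mem_zero k, m, ?_⟩
    rw [map_one]; rfl
  have h2 := ev_inv P W hW γ ⟨_, hmW⟩
  rw [h0] at h2
  apply hinj
  rw [LinearMap.zero_apply, map_zero]
  exact h2.symm

end Setup

end Pool.Agent.W412
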