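import Mathlib
import Pool.Agent.W412.LemC

/-!
The two dimension counts, and the main lemma.
-/

set_option autoImplicit false

namespace Pool.Agent.W412

open Module

section Setup

variable {k : Type} [Field k] {D : Type} [DivisionRing D] [Algebra k D]
variable {M : Type} [AddCommGroup M] [Module D M] [Module k M] [IsScalarTower k D M]

theorem no_nonnil [FiniteDimensional D M] {x y : D} {P : Fin 3 → Module.End D M}
    (h : Growth k x y P)
    (IH : ∀ (M' : Type) [AddCommGroup M'] [Module D M'] [Module k M'] [IsScalarTower k D M']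
      [FiniteDimensional D M'], Module.finrank D M' < Module.finrank D M →
      ∀ P' : Fin 3 → Module.End D M', Growth k x y P' → Good k P')
    (hfail : ¬ Good k P) {e : ℕ} {c : Fr k} (hc : c ∈ V k ^ e) (hab : ab k c = 0) :
    IsNilpotent (ev (k := k) P c) := by
  classical
  by_contra hnil
  obtain ⟨s, C, F, hs, hF1, hF2, hF3⟩ := id h
  set r := 9 * (s.card * C) with hr
  set K := e * r + 1 with hKdef
  set N := 2 * K + e * r with hN
  let elt : (Fin (r + 1) → (Fin K × Fin K → k)) → Fr k :=
    fun d => ∑ a : Fin (r + 1), c ^ (a : ℕ) * comb k (N - e * a) K (d a)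
  have hle : ∀ a : Fin (r + 1), e * a ≤ e * r := fun a =>
    Nat.mul_le_mul_left _ (Nat.lt_succ_iff.mp a.2)
  have helt : ∀ d, elt d ∈ V k ^ N := by
    intro d
    refine Submodule.sum_mem _ fun a _ => ?_
    have h1 := mul_mem k (pow_mem k hc (a : ℕ)) (comb_mem k (K := K) (N := N - e * a)
      (by have := hle a; omega) (d a))
    have h2 : e * (a : ℕ) + (N - e * a) = N := by have := hle a; omega
    rwa [h2] at h1
  have hone : (1 : D) ∈ En k x y ^ N := by
    have := En_mono (k := k) x y (Nat.zero_le N)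
    exact this (by rw [pow_zero]; exact Submodule.one_le.mp le_rfl)
  have hmemF : ∀ d, ∀ m : s, ev (k := k) P (elt d) m.1 ∈ F N := by
    intro d m
    have := hF3 N N le_rfl (elt d) (helt d) 1 hone m.1 m.2
    rwa [one_smul] at this
  let L : (Fin (r + 1) → (Fin K × Fin K → k)) →ₗ[k] (s → F N) :=
    { toFun := fun d m => ⟨ev (k := k) P (elt d) m.1, hmemF d m⟩
      map_add' := by
        intro d d'
        funext m
        apply Subtype.ext
        change ev (k := k) P (elt (d + d')) m.1 = ev (k := k) P (elt d) m.1 + ev (k := k) P (elt d') m.1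
        have : elt (d + d') = elt d + elt d' := by
          simp only [elt, Pi.add_apply, comb_add, mul_add, Finset.sum_add_distrib]
        rw [this, map_add]; rfl
      map_smul' := by
        intro t d
        funext m
        apply Subtype.ext
        change ev (k := k) P (elt (t • d)) m.1 = t • ev (k := k) P (elt d) m.1
        have : elt (t • d) = t • elt d := by
          simp only [elt, Pi.smul_apply, comb_smul, mul_smul_comm, Finset.smul_sum]
        rw [this, map_smul]; rfl }
  have hL : Function.Injective L := by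
    rw [injective_iff_map_eq_zero]
    intro d hd
    have h0 : ev (k := k) P (elt d) = 0 := by
      apply LinearMap.ext
      intro m
      have hm : m ∈ Submodule.span D (s : Set M) := by rw [hs]; trivial
      refine Submodule.span_induction ?_ ?_ ?_ ?_ hm
      · intro m' hm'
        have := congrFun hd ⟨m', hm'⟩
        exact congrArg Subtype.val this
      · simp
      · intro u v _ _ hu hv
        rw [map_add, map_add, hu, hv]
      · intro t u _ hu
        rw [map_smul, map_smul, hu]
    by_contra hne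
    have hex : ∃ a, ∃ ha : a < r + 1, d ⟨a, ha⟩ ≠ 0 := by
      by_contra hcon
      push Not at hcon
      exact hne (funext fun a => hcon a.1 a.2)
    obtain ⟨ha0, ha0'⟩ := Nat.find_spec hex
    set a0 := Nat.find hex with ha0def
    have hbelow : ∀ a : Fin (r + 1), (a : ℕ) < a0 → d a = 0 := by
      intro a ha
      by_contra hne'
      exact Nat.find_min hex ha ⟨a.2, hne'⟩
    let z : Fr k := ∑ a : Fin (r + 1), c ^ ((a : ℕ) - a0) * comb k (N - e * a) K (d a)
    have hcomb0 : ∀ n, comb k n K 0 = 0 := fun n => by simp [comb]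
    have hz : elt d = c ^ a0 * z := by
      simp only [elt, z]
      rw [Finset.mul_sum]
      refine Finset.sum_congr rfl fun a _ => ?_
      rcases lt_or_ge (a : ℕ) a0 with hlt | hge
      · rw [hbelow a hlt, hcomb0, mul_zero, mul_zero, mul_zero]
      · rw [← mul_assoc, ← pow_add]
        congr 2
        omega
    have hzmem : z ∈ V k ^ (N - e * a0) := by
      refine Submodule.sum_mem _ fun a _ => ?_
      rcases lt_or_ge (a : ℕ) a0 with hlt | hge
      · rw [hbelow a hlt, hcomb0, mul_zero]; exact Submodule.zero_mem _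
      · have h1 := mul_mem k (pow_mem k hc ((a : ℕ) - a0)) (comb_mem k (K := K) (N := N - e * a)
          (by have := hle a; omega) (d a))
        have h2 : e * ((a : ℕ) - a0) + (N - e * a) = N - e * a0 := by
          have h3 := hle a
          have h4 : e * ((a : ℕ) - a0) + e * a0 = e * a := by
            rw [← mul_add]; congr 1; omega
          omega
        rwa [h2] at h1
    have habz : ab k z ≠ 0 := by
      have h1 : ab k z = ab k (comb k (N - e * a0) K (d ⟨a0, ha0⟩)) := by
        simp only [z]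
        rw [map_sum, Finset.sum_eq_single_of_mem (⟨a0, ha0⟩ : Fin (r + 1)) (Finset.mem_univ _)]
        · simp
        · intro a _ hane
          rw [map_mul]
          rcases lt_trichotomy (a : ℕ) a0 with hlt | heq | hgt
          · rw [hbelow a hlt, hcomb0, map_zero, mul_zero]
          · exact absurd (Fin.ext heq) hane
          · rw [map_pow, hab, zero_pow (by omega), zero_mul]
      rw [h1]
      intro h2
      exact ha0' (ab_comb_eq_zero k _ h2)
    have hsurj := surj_of_fail h IH hfail hzmem habz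
    apply hnil
    refine ⟨a0, ?_⟩
    apply LinearMap.ext
    intro m
    obtain ⟨m', rfl⟩ := hsurj m
    rw [hz, map_mul, map_pow] at h0
    exact LinearMap.congr_fun h0 m'
  have := hF1 N
  have hle2 := LinearMap.finrank_le_finrank_of_injective hL
  simp only [Module.finrank_pi_fintype, Module.finrank_self, Fintype.card_prod, Fintype.card_fin,
    Finset.sum_const, Finset.card_univ, Fintype.card_coe, smul_eq_mul, mul_one] at hle2
  have h1 := hF2 N
  have h3 : N + 1 = 3 * K := by omega
  rw [h3] at h1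
  have h4 : s.card * Module.finrank k (F N) ≤ s.card * (C * (3 * K) ^ 2) :=
    Nat.mul_le_mul_left _ h1
  have h5 : s.card * (C * (3 * K) ^ 2) = r * (K * K) := by rw [hr]; ring
  have h6 : 0 < K * K := by positivity
  nlinarith

/-- the vectors `b • m`, `b` in the `j`-th power of the span of `1, x, y`, `m` in `s` -/
def U (k : Type) [Field k] {D : Type} [DivisionRing D] [Algebra k D]
    {M : Type} [AddCommGroup M] [Module D M] [Module k M]
    (x y : D) (s : Finset M) (j : ℕ) : Submodule k M :=
  Submodule.span k {z | ∃ b ∈ En k x y ^ j, ∃ m ∈ s, z = b • m}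

omit [IsScalarTower k D M] in
theorem U_mono (x y : D) (s : Finset M) {i j : ℕ} (h : i ≤ j) : U k x y s i ≤ U k x y s j := by
  apply Submodule.span_mono
  rintro _ ⟨b, hb, m, hm, rfl⟩
  exact ⟨b, En_mono x y h hb, m, hm, rfl⟩

theorem smul_U (x y : D) (s : Finset M) {i j : ℕ} {w : M} (hw : w ∈ U k x y s i) {b : D}
    (hb : b ∈ En k x y ^ j) : b • w ∈ U k x y s (j + i) := by
  refine Submodule.span_induction ?_ ?_ ?_ ?_ hw
  · rintro _ ⟨c, hc, m, hm, rfl⟩
    refine Submodule.subset_span ⟨b * c, ?_, m, hm, (mul_smul _ _ _).symm⟩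
    rw [pow_add]
    exact Submodule.mul_mem_mul hb hc
  · rw [smul_zero]; exact Submodule.zero_mem _
  · intro u v _ _ hu hv
    rw [smul_add]; exact Submodule.add_mem _ hu hv
  · intro t u _ hu
    rw [smul_comm]; exact Submodule.smul_mem _ _ hu

theorem x_mem_En (x y : D) : x ∈ En k x y ^ 1 := by
  rw [pow_one]; exact Submodule.subset_span (by simp)

theorem y_mem_En (x y : D) : y ∈ En k x y ^ 1 := by
  rw [pow_one]; exact Submodule.subset_span (by simp)

theorem ypow_mem_En (x y : D) (j : ℕ) : y ^ j ∈ En k x y ^ j := by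
  have := Submodule.pow_mem_pow _ (y_mem_En (k := k) x y) j
  rwa [← pow_mul, one_mul] at this

/-- independence over the homogeneous elements -/
def Indep (k : Type) [Field k] {D : Type} [DivisionRing D] [Algebra k D]
    {M : Type} [AddCommGroup M] [Module D M] [Module k M] [IsScalarTower k D M]
    (P : Fin 3 → Module.End D M) {r : ℕ} (v : Fin r → M) : Prop :=
  ∀ N, ∀ γ : Fin r → Fr k, (∀ i, γ i ∈ V k ^ N) → ∑ i, ev (k := k) P (γ i) (v i) = 0 →
    ∀ i, ab k (γ i) = 0

theorem ev_mem_F {x y : D} {P : Fin 3 → Module.End D M} {s : Finset M} {F : ℕ → Submodule k M}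
    (hF3 : ∀ N, ∀ N' ≤ N, ∀ γ ∈ V k ^ N', ∀ e ∈ En k x y ^ N, ∀ m ∈ s,
      ev (k := k) P γ (e • m) ∈ F N) {N N' j : ℕ} (h1 : N' ≤ N) (h2 : j ≤ N) {γ : Fr k}
    (hγ : γ ∈ V k ^ N') {w : M} (hw : w ∈ U k x y s j) : ev (k := k) P γ w ∈ F N := by
  have hw' := U_mono x y s h2 hw
  refine Submodule.span_induction ?_ ?_ ?_ ?_ hw'
  · rintro _ ⟨b, hb, m, hm, rfl⟩
    exact hF3 N N' h1 γ hγ b hb m hm
  · rw [map_zero]; exact Submodule.zero_mem _
  · intro u v _ _ hu hv
    rw [map_add]; exact Submodule.add_mem _ hu hv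
  · intro t u _ hu
    have : ev (k := k) P γ (t • u) = t • ev (k := k) P γ u := by
      rw [← algebraMap_smul D t u, map_smul, algebraMap_smul]
    rw [this]; exact Submodule.smul_mem _ _ hu

theorem indep_card {x y : D} {P : Fin 3 → Module.End D M} {s : Finset M} {C : ℕ}
    {F : ℕ → Submodule k M} (hF1 : ∀ N, Module.Finite k (F N))
    (hF2 : ∀ N, Module.finrank k (F N) ≤ C * (N + 1) ^ 2)
    (hF3 : ∀ N, ∀ N' ≤ N, ∀ γ ∈ V k ^ N', ∀ e ∈ En k x y ^ N, ∀ m ∈ s,
      ev (k := k) P γ (e • m) ∈ F N) {r : ℕ} (v : Fin r → M)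
    (hv : ∀ i, ∃ j, v i ∈ U k x y s j) (hi : Indep k P v) : r ≤ 9 * C := by
  classical
  choose jj hjj using hv
  set J := Finset.univ.sup jj with hJ
  set K := J + 1 with hK
  set N := 2 * K + J with hN
  have hmem : ∀ (c : Fin r → (Fin K × Fin K → k)),
      ∑ i, ev (k := k) P (comb k N K (c i)) (v i) ∈ F N := by
    intro c
    refine Submodule.sum_mem _ fun i _ => ev_mem_F hF3 le_rfl ?_ (comb_mem k (by omega) _) (hjj i)
    have : jj i ≤ J := Finset.le_sup (Finset.mem_univ i)
    omega
  let L : (Fin r → (Fin K × Fin K → k)) →ₗ[k] F N :=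
    { toFun := fun c => ⟨∑ i, ev (k := k) P (comb k N K (c i)) (v i), hmem c⟩
      map_add' := by
        intro c c'
        apply Subtype.ext
        simp only [Pi.add_apply, comb_add, map_add, LinearMap.add_apply, Submodule.coe_add,
          Finset.sum_add_distrib]
      map_smul' := by
        intro t c
        apply Subtype.ext
        simp only [Pi.smul_apply, comb_smul, map_smul, LinearMap.smul_apply, RingHom.id_apply,
          Submodule.coe_smul, Finset.smul_sum] }
  have hL : Function.Injective L := by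
    rw [injective_iff_map_eq_zero]
    intro c hc
    have h1 := hi N (fun i => comb k N K (c i)) (fun i => comb_mem k (by omega) _)
      (congrArg Subtype.val hc)
    funext i
    exact ab_comb_eq_zero k _ (h1 i)
  have := hF1 N
  have hle := LinearMap.finrank_le_finrank_of_injective hL
  simp only [Module.finrank_pi_fintype, Module.finrank_self, Fintype.card_prod, Fintype.card_fin,
    Finset.sum_const, Finset.card_univ, smul_eq_mul, mul_one] at hle
  have h1 := hF2 N
  have h3 : N + 1 = 3 * K := by omega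
  rw [h3] at h1
  have h6 : 0 < K * K := by positivity
  have h7 : r * (K * K) ≤ (9 * C) * (K * K) := by
    calc r * (K * K) ≤ C * (3 * K) ^ 2 := hle.trans h1
      _ = (9 * C) * (K * K) := by ring
  exact Nat.le_of_mul_le_mul_right h7 h6

theorem exists_max {x y : D} {P : Fin 3 → Module.End D M} {s : Finset M} {C : ℕ}
    {F : ℕ → Submodule k M} (hF1 : ∀ N, Module.Finite k (F N))
    (hF2 : ∀ N, Module.finrank k (F N) ≤ C * (N + 1) ^ 2)
    (hF3 : ∀ N, ∀ N' ≤ N, ∀ γ ∈ V k ^ N', ∀ e ∈ En k x y ^ N, ∀ m ∈ s,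
      ev (k := k) P γ (e • m) ∈ F N)
    (hK0 : ∀ N, ∀ c ∈ V k ^ N, ab k c = 0 → ev (k := k) P c = 0) :
    ∃ (r : ℕ) (v : Fin r → M), (∀ i, ∃ j, v i ∈ U k x y s j) ∧
      ∀ j, ∀ w ∈ U k x y s j, ∃ N, ∃ (γ : Fin r → Fr k) (δ : Fr k), (∀ i, γ i ∈ V k ^ N) ∧
        δ ∈ V k ^ N ∧ ab k δ ≠ 0 ∧
        ev (k := k) P δ w + ∑ i, ev (k := k) P (γ i) (v i) = 0 := by
  classical
  let Q : ℕ → Prop := fun r => ∃ v : Fin r → M, (∀ i, ∃ j, v i ∈ U k x y s j) ∧ Indep k P v
  have hQ0 : Q 0 := ⟨Fin.elim0, fun i => i.elim0, fun N γ _ _ i => i.elim0⟩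
  have hQb : ∀ r, Q r → r ≤ 9 * C := fun r ⟨v, h1, h2⟩ => indep_card hF1 hF2 hF3 v h1 h2
  have hmax : Q (Nat.findGreatest Q (9 * C)) := Nat.findGreatest_spec (Nat.zero_le _) hQ0
  set r := Nat.findGreatest Q (9 * C) with hr
  obtain ⟨v, hv, hi⟩ := hmax
  refine ⟨r, v, hv, ?_⟩
  intro j w hw
  have hnot : ¬ Q (r + 1) := by
    intro hQ
    have h1 := hQb _ hQ
    have h2 := Nat.le_findGreatest h1 hQ
    omega
  have hnot2 : ¬ Indep k P (Fin.cons w v : Fin (r + 1) → M) := by
    intro hI
    refine hnot ⟨Fin.cons w v, ?_, hI⟩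
    intro i
    refine Fin.cases ?_ ?_ i
    · exact ⟨j, by simpa using hw⟩
    · intro i
      obtain ⟨j', hj'⟩ := hv i
      exact ⟨j', by simpa using hj'⟩
  unfold Indep at hnot2
  push Not at hnot2
  obtain ⟨N, γ, hγ, hsum, i, hne⟩ := hnot2
  rw [Fin.sum_univ_succ] at hsum
  simp only [Fin.cons_zero, Fin.cons_succ] at hsum
  refine ⟨N, fun i => γ i.succ, γ 0, fun i => hγ _, hγ 0, ?_, hsum⟩
  intro h0
  rw [hK0 N _ (hγ 0) h0, LinearMap.zero_apply, zero_add] at hsum
  have h1 := hi N (fun i => γ i.succ) (fun i => hγ _) hsum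
  apply hne
  refine Fin.cases h0 ?_ i
  exact h1

end Setup

end Pool.Agent.W412
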