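import Mathlib
import Pool.Agent.W412.LemD

/-!
The commutative case and the main lemma.
-/

set_option autoImplicit false

namespace Pool.Agent.W412

open Module

section Setup

variable {k : Type} [Field k] {D : Type} [DivisionRing D] [Algebra k D]
variable {M : Type} [AddCommGroup M] [Module D M] [Module k M] [IsScalarTower k D M]

theorem x_ypow {x y : D} (hxy : x * y - y * x = y) (j : ℕ) :
    x * y ^ j = y ^ j * x + (j : D) * y ^ j := by
  induction j with
  | zero => simp
  | succ j ih =>
    have h1 : x * y = y * x + y := by rw [add_comm]; exact sub_eq_iff_eq_add.mp hxy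
    rw [pow_succ, ← mul_assoc, ih, add_mul, mul_assoc, h1]
    push_cast
    noncomm_ring

theorem comm_case [CharZero k] [FiniteDimensional D M] [Nontrivial M] {x y : D}
    (hxy : x * y - y * x = y) (hy : y ≠ 0) {P : Fin 3 → Module.End D M}
    (h : Growth k x y P)
    (IH : ∀ (M' : Type) [AddCommGroup M'] [Module D M'] [Module k M'] [IsScalarTower k D M']
      [FiniteDimensional D M'], Module.finrank D M' < Module.finrank D M →
      ∀ P' : Fin 3 → Module.End D M', Growth k x y P' → Good k P')
    (hfail : ¬ Good k P)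
    (hK0 : ∀ N, ∀ c ∈ V k ^ N, ab k c = 0 → ev (k := k) P c = 0) : False := by
  classical
  obtain ⟨s, C, F, hs, hF1, hF2, hF3⟩ := id h
  obtain ⟨r, v, hv, hdep⟩ := exists_max hF1 hF2 hF3 hK0
  choose jj hjj using hv
  set J := Finset.univ.sup jj with hJ
  set hh := 9 * (r * C) + 1 with hhh
  set K := J + hh + 1 with hK
  set N := 2 * K + J + hh with hN
  -- the operator
  let T : (Fin hh → (Fin K × Fin K → k)) → M → M := fun c w =>
    ∑ j : Fin hh, ev (k := k) P (comb k N K (c j)) (y ^ (j : ℕ) • w)
  have hTmem : ∀ c, ∀ i, T c (v i) ∈ F N := by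
    intro c i
    refine Submodule.sum_mem _ fun j _ => ?_
    refine ev_mem_F hF3 le_rfl ?_ (comb_mem k (by omega) _)
      (smul_U x y s (hjj i) (ypow_mem_En x y (j : ℕ)))
    have h1 : jj i ≤ J := Finset.le_sup (Finset.mem_univ i)
    have h2 := j.2
    omega
  let L : (Fin hh → (Fin K × Fin K → k)) →ₗ[k] (Fin r → F N) :=
    { toFun := fun c i => ⟨T c (v i), hTmem c i⟩
      map_add' := by
        intro c c'
        funext i
        apply Subtype.ext
        simp only [T, Pi.add_apply, comb_add, map_add, LinearMap.add_apply, Submodule.coe_add,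
          Finset.sum_add_distrib]
      map_smul' := by
        intro t c
        funext i
        apply Subtype.ext
        simp only [T, Pi.smul_apply, comb_smul, map_smul, LinearMap.smul_apply, RingHom.id_apply,
          Submodule.coe_smul, Finset.smul_sum]
        exact Finset.sum_congr rfl fun j _ => smul_comm _ _ _ }
  have := hF1 N
  have hker : LinearMap.ker L ≠ ⊥ := by
    apply LinearMap.ker_ne_bot_of_finrank_lt
    simp only [Module.finrank_pi_fintype, Module.finrank_self, Fintype.card_prod,
      Fintype.card_fin, Finset.sum_const, Finset.card_univ, smul_eq_mul, mul_one]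
    have h1 := hF2 N
    have h3 : N + 1 = 3 * K := by omega
    rw [h3] at h1
    have h4 : r * Module.finrank k (F N) ≤ r * (C * (3 * K) ^ 2) := Nat.mul_le_mul_left _ h1
    have h5 : r * (C * (3 * K) ^ 2) = 9 * (r * C) * (K * K) := by ring
    have h6 : 0 < K * K := by positivity
    have h7 : hh * (K * K) = 9 * (r * C) * (K * K) + K * K := by rw [hhh]; ring
    omega
  obtain ⟨c, hc, hc0⟩ := (Submodule.ne_bot_iff _).mp hker
  rw [LinearMap.mem_ker] at hc
  have hTv : ∀ i, T c (v i) = 0 := fun i => congrArg Subtype.val (congrFun hc i)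
  -- commutation
  have hcomm : ∀ {m n : ℕ} {a b : Fr k}, a ∈ V k ^ m → b ∈ V k ^ n → ∀ w,
      ev (k := k) P a (ev (k := k) P b w) = ev (k := k) P b (ev (k := k) P a w) := by
    intro m n a b ha hb w
    have h1 : a * b - b * a ∈ V k ^ (m + n) := by
      apply Submodule.sub_mem _ (mul_mem k ha hb)
      rw [add_comm]; exact mul_mem k hb ha
    have h2 : ab k (a * b - b * a) = 0 := by
      rw [map_sub, map_mul, map_mul, mul_comm, sub_self]
    have h3 := hK0 _ _ h1 h2
    rw [map_sub, map_mul, map_mul, sub_eq_zero] at h3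
    exact LinearMap.congr_fun h3 w
  have hτ : ∀ j, comb k N K (c j) ∈ V k ^ N := fun j => comb_mem k (by omega) _
  have hTadd : ∀ u w, T c (u + w) = T c u + T c w := by
    intro u w
    simp only [T, smul_add, map_add, Finset.sum_add_distrib]
  have hTev : ∀ {m : ℕ} {a : Fr k}, a ∈ V k ^ m → ∀ w,
      T c (ev (k := k) P a w) = ev (k := k) P a (T c w) := by
    intro m a ha w
    simp only [T]
    rw [map_sum]
    refine Finset.sum_congr rfl fun j _ => ?_
    rw [← map_smul (ev (k := k) P a), hcomm (hτ j) ha]
  have hT0 : T c 0 = 0 := by simp [T]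
  have hTsum : ∀ (g : Fin r → M), T c (∑ i, g i) = ∑ i, T c (g i) := by
    intro g
    let f : M →+ M := { toFun := T c, map_zero' := hT0, map_add' := hTadd }
    exact map_sum f g Finset.univ
  have hTU : ∀ j, ∀ w ∈ U k x y s j, T c w = 0 := by
    intro j w hw
    obtain ⟨N', γ, δ, hγ, hδ, hne, hrel⟩ := hdep j w hw
    apply inj_of_fail h IH hfail hδ hne
    rw [map_zero, ← hTev hδ, eq_neg_of_add_eq_zero_left hrel]
    have h1 : T c (∑ i, ev (k := k) P (γ i) (v i)) = 0 := by
      rw [hTsum]
      refine Finset.sum_eq_zero fun i _ => ?_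
      rw [hTev (hγ i), hTv, map_zero]
    have h2 : T c (-(∑ i, ev (k := k) P (γ i) (v i))) +
        T c (∑ i, ev (k := k) P (γ i) (v i)) = 0 := by
      rw [← hTadd, neg_add_cancel, hT0]
    rwa [h1, add_zero] at h2
  -- elimination
  have hpoly : ∀ p : Polynomial k, ∀ j, ∀ w ∈ U k x y s j,
      ∑ i : Fin hh, (p.eval (i : k)) • ev (k := k) P (comb k N K (c i)) (y ^ (i : ℕ) • w) = 0 := by
    intro p
    induction p using Polynomial.induction_on with
    | C a =>
      intro j w hw
      simp only [Polynomial.eval_C]
      rw [← Finset.smul_sum]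
      have := hTU j w hw
      simp only [T] at this
      rw [this, smul_zero]
    | add p q hp hq =>
      intro j w hw
      simp only [Polynomial.eval_add, add_smul, Finset.sum_add_distrib]
      rw [hp j w hw, hq j w hw, add_zero]
    | monomial n a ih =>
      intro j w hw
      have h1 := ih j w hw
      have h2 := ih (1 + j) (x • w) (smul_U x y s hw (x_mem_En x y))
      have h3 := congrArg (fun z => x • z) h1
      simp only [smul_zero, Finset.smul_sum] at h3
      have h4 : ∀ i : Fin hh, x • ((Polynomial.C a * Polynomial.X ^ n).eval (i : k) •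
          ev (k := k) P (comb k N K (c i)) (y ^ (i : ℕ) • w)) =
          (Polynomial.C a * Polynomial.X ^ n).eval (i : k) •
            ev (k := k) P (comb k N K (c i)) (y ^ (i : ℕ) • x • w) +
          (Polynomial.C a * Polynomial.X ^ (n + 1)).eval (i : k) •
            ev (k := k) P (comb k N K (c i)) (y ^ (i : ℕ) • w) := by
        intro i
        rw [smul_comm, ← map_smul (ev (k := k) P _) x, smul_smul x, x_ypow hxy, add_smul, map_add,
          smul_add, mul_smul, mul_smul]
        congr 1
        rw [map_smul]
        have h5 : ((i : ℕ) : D) = algebraMap k D (i : k) := by simp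
        rw [h5, algebraMap_smul, smul_smul]
        congr 1
        simp only [Polynomial.eval_mul, Polynomial.eval_C, Polynomial.eval_pow,
          Polynomial.eval_X]
        ring
      simp only [h4, Finset.sum_add_distrib] at h3
      rwa [h2, zero_add] at h3
  -- choose an index
  obtain ⟨i0, hi0⟩ : ∃ i, c i ≠ 0 := by
    by_contra hcon
    push Not at hcon
    exact hc0 (funext hcon)
  have hab : ab k (comb k N K (c i0)) ≠ 0 := fun h0 => hi0 (ab_comb_eq_zero k _ h0)
  let p : Polynomial k := ∏ i ∈ Finset.univ.erase i0, (Polynomial.X - Polynomial.C ((i : ℕ) : k))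
  have hp0 : p.eval ((i0 : ℕ) : k) ≠ 0 := by
    simp only [p, Polynomial.eval_prod, Polynomial.eval_sub, Polynomial.eval_X,
      Polynomial.eval_C]
    rw [Finset.prod_ne_zero_iff]
    intro i hi
    rw [sub_ne_zero]
    intro h1
    exact (Finset.ne_of_mem_erase hi) (Fin.ext (by exact_mod_cast h1.symm))
  have hpi : ∀ i : Fin hh, i ≠ i0 → p.eval ((i : ℕ) : k) = 0 := by
    intro i hi
    simp only [p, Polynomial.eval_prod, Polynomial.eval_sub, Polynomial.eval_X,
      Polynomial.eval_C]
    exact Finset.prod_eq_zero (Finset.mem_erase.mpr ⟨hi, Finset.mem_univ i⟩) (sub_self _)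
  have hs0 : ∀ m ∈ s, m = 0 := by
    intro m hm
    have hmU : m ∈ U k x y s 0 := by
      refine Submodule.subset_span ⟨1, ?_, m, hm, (one_smul _ _).symm⟩
      rw [pow_zero]; exact Submodule.one_le.mp le_rfl
    have h1 := hpoly p 0 m hmU
    rw [Finset.sum_eq_single_of_mem i0 (Finset.mem_univ _)] at h1
    · have h2 := (smul_eq_zero.mp h1).resolve_left hp0
      have h3 := inj_of_fail h IH hfail (hτ i0) hab (h2.trans (map_zero _).symm)
      exact (smul_eq_zero.mp h3).resolve_left (pow_ne_zero _ hy)
    · intro i _ hi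
      rw [hpi i hi, zero_smul]
  obtain ⟨m, hm⟩ := exists_ne (0 : M)
  apply hm
  have hm' : m ∈ Submodule.span D (s : Set M) := by rw [hs]; trivial
  have hs1 : Submodule.span D (s : Set M) = ⊥ := by
    rw [Submodule.span_eq_bot]
    exact hs0
  rw [hs1] at hm'
  exact (Submodule.mem_bot D).mp hm'

theorem main_lemma [CharZero k] {x y : D} (hxy : x * y - y * x = y) (hy : y ≠ 0) :
    ∀ (n : ℕ) (M : Type) [AddCommGroup M] [Module D M] [Module k M] [IsScalarTower k D M]
      [FiniteDimensional D M], Module.finrank D M = n →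
      ∀ P : Fin 3 → Module.End D M, Growth k x y P → Good k P := by
  intro n
  induction n using Nat.strong_induction_on with
  | _ n ih =>
    intro M _ _ _ _ _ hn P hG
    by_contra hfail
    have IH : ∀ (M' : Type) [AddCommGroup M'] [Module D M'] [Module k M'] [IsScalarTower k D M']
      [FiniteDimensional D M'], Module.finrank D M' < Module.finrank D M →
      ∀ P' : Fin 3 → Module.End D M', Growth k x y P' → Good k P' := by
      intro M' _ _ _ _ _ hlt P' hG'
      exact ih _ (hn ▸ hlt) M' rfl P' hG'
    rcases subsingleton_or_nontrivial M with hsub | hnt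
    · apply hfail
      refine ⟨0, 1, one_mem_zero k, ?_, ?_⟩
      · apply LinearMap.ext
        intro m
        exact Subsingleton.elim _ _
      · rw [map_one]; exact one_ne_zero
    · by_cases hK : ∃ N, ∃ c ∈ V k ^ N, ab k c = 0 ∧ ev (k := k) P c ≠ 0
      · obtain ⟨N, c, hc, h1, h2⟩ := exists_nonnil hG IH hfail hK
        exact h2 (no_nonnil hG IH hfail hc h1)
      · push Not at hK
        exact comm_case hxy hy hG IH hfail hK

end Setup

end Pool.Agent.W412
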