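import Mathlib

/-!
Ore extensions `R[x; d]` of derivation type.
-/

set_option autoImplicit false

namespace Pool.Agent.W412

section Ore

variable (k : Type) [Field k] (R : Type) [Ring R] [Algebra k R] (d : R →ₗ[k] R)

/-- left multiplication on coefficients -/
noncomputable def Lop : R →ₗ[k] Module.End k (ℕ →₀ R) where
  toFun r := Finsupp.mapRange.linearMap (LinearMap.mulLeft k r)
  map_add' := by
    intro r s
    apply Finsupp.lhom_ext
    intro n a
    simp [add_mul]
  map_smul' := by
    intro t r
    apply Finsupp.lhom_ext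
    intro n a
    simp only [Finsupp.mapRange.linearMap_apply, Finsupp.mapRange_single, LinearMap.mulLeft_apply,
      LinearMap.smul_apply, RingHom.id_apply, Finsupp.smul_single, smul_mul_assoc]

@[simp] theorem Lop_single (r : R) (n : ℕ) (a : R) :
    Lop k R r (Finsupp.single n a) = Finsupp.single n (r * a) := by
  change Finsupp.mapRange.linearMap (LinearMap.mulLeft k r) (Finsupp.single n a) = _
  rw [Finsupp.mapRange.linearMap_apply, Finsupp.mapRange_single, LinearMap.mulLeft_apply]

/-- the operator `x` -/
noncomputable def xop : Module.End k (ℕ →₀ R) :=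
  Finsupp.lmapDomain R k (fun n => n + 1) + Finsupp.mapRange.linearMap d

@[simp] theorem xop_single (n : ℕ) (a : R) :
    xop k R d (Finsupp.single n a) = Finsupp.single (n + 1) a + Finsupp.single n (d a) := by
  simp [xop]

theorem xop_Lop (hd : ∀ a b, d (a * b) = d a * b + a * d b) (r : R) :
    xop k R d * Lop k R r = Lop k R r * xop k R d + Lop k R (d r) := by
  apply Finsupp.lhom_ext
  intro n a
  simp only [Module.End.mul_apply, Lop_single, xop_single, LinearMap.add_apply, map_add, hd,
    Finsupp.single_add]
  abel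

theorem Lop_one : Lop k R 1 = 1 := by
  apply Finsupp.lhom_ext
  intro n a
  simp

theorem Lop_mul (r s : R) : Lop k R (r * s) = Lop k R r * Lop k R s := by
  apply Finsupp.lhom_ext
  intro n a
  rw [Module.End.mul_apply, Lop_single, Lop_single, Lop_single, mul_assoc]

/-- the operator attached to a polynomial -/
noncomputable def Th : (ℕ →₀ R) →ₗ[k] Module.End k (ℕ →₀ R) :=
  Finsupp.lsum k (fun n => (LinearMap.mulRight k (xop k R d ^ n)).comp (Lop k R))

@[simp] theorem Th_single (n : ℕ) (a : R) :
    Th k R d (Finsupp.single n a) = Lop k R a * xop k R d ^ n := by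
  simp [Th]

theorem Th_Lop (r : R) (q : ℕ →₀ R) : Th k R d (Lop k R r q) = Lop k R r * Th k R d q := by
  have : (Th k R d).comp (Lop k R r) = (LinearMap.mulLeft k (Lop k R r)).comp (Th k R d) := by
    apply Finsupp.lhom_ext
    intro n a
    rw [LinearMap.comp_apply, LinearMap.comp_apply, LinearMap.mulLeft_apply, Lop_single,
      Th_single, Th_single, Lop_mul, mul_assoc]
  exact LinearMap.congr_fun this q

variable (hd : ∀ a b, d (a * b) = d a * b + a * d b)

include hd

theorem Th_xop (q : ℕ →₀ R) : Th k R d (xop k R d q) = xop k R d * Th k R d q := by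
  have : (Th k R d).comp (xop k R d) = (LinearMap.mulLeft k (xop k R d)).comp (Th k R d) := by
    apply Finsupp.lhom_ext
    intro n a
    simp only [LinearMap.comp_apply, xop_single, map_add, Th_single, LinearMap.mulLeft_apply]
    rw [← mul_assoc, xop_Lop k R d hd, add_mul, pow_succ', mul_assoc]
  exact LinearMap.congr_fun this q

theorem Th_xop_pow (n : ℕ) (q : ℕ →₀ R) :
    Th k R d ((xop k R d ^ n) q) = xop k R d ^ n * Th k R d q := by
  induction n with
  | zero => simp
  | succ n ih =>
    rw [pow_succ', Module.End.mul_apply, Th_xop k R d hd, ih, mul_assoc]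

theorem Th_Th (p q : ℕ →₀ R) : Th k R d (Th k R d p q) = Th k R d p * Th k R d q := by
  induction p using Finsupp.induction_linear with
  | zero => simp
  | add f g hf hg => rw [map_add, LinearMap.add_apply, map_add, hf, hg, add_mul]
  | single n a =>
    rw [Th_single, Module.End.mul_apply, Th_Lop, Th_xop_pow k R d hd, mul_assoc]

theorem d_one : d 1 = 0 := by
  have := hd 1 1
  simpa using this

omit hd in
theorem xop_pow_one (n : ℕ) (a : R) (ha : d a = 0) :
    (xop k R d ^ n) (Finsupp.single 0 a) = Finsupp.single n a := by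
  induction n with
  | zero => simp
  | succ n ih =>
    rw [pow_succ', Module.End.mul_apply, ih, xop_single, ha, Finsupp.single_zero, add_zero]

theorem Th_apply_one (p : ℕ →₀ R) : Th k R d p (Finsupp.single 0 1) = p := by
  induction p using Finsupp.induction_linear with
  | zero => simp
  | add f g hf hg => rw [map_add, LinearMap.add_apply, hf, hg]
  | single n a =>
    rw [Th_single, Module.End.mul_apply, xop_pow_one k R d n 1 (d_one k R d hd)]
    simp

/-- The Ore extension. -/
noncomputable def OreS : Subalgebra k (Module.End k (ℕ →₀ R)) where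
  carrier := Set.range (Th k R d)
  mul_mem' := by
    rintro _ _ ⟨p, rfl⟩ ⟨q, rfl⟩
    exact ⟨_, Th_Th k R d hd p q⟩
  add_mem' := by
    rintro _ _ ⟨p, rfl⟩ ⟨q, rfl⟩
    exact ⟨_, map_add _ p q⟩
  algebraMap_mem' := by
    intro r
    refine ⟨Finsupp.single 0 (algebraMap k R r), ?_⟩
    rw [Th_single, pow_zero, mul_one]
    apply Finsupp.lhom_ext
    intro n a
    simp [Module.algebraMap_end_apply, Algebra.smul_def]

noncomputable instance instRingOreS : Ring (OreS k R d hd) := Algebra.semiringToRing k

/-- the coefficients of an element -/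
noncomputable def cf : OreS k R d hd →ₗ[k] (ℕ →₀ R) where
  toFun s := s.1 (Finsupp.single 0 1)
  map_add' _ _ := rfl
  map_smul' _ _ := rfl

theorem Th_cf (s : OreS k R d hd) : Th k R d (cf k R d hd s) = s.1 := by
  obtain ⟨_, p, rfl⟩ := s
  change Th k R d (Th k R d p (Finsupp.single 0 1)) = _
  rw [Th_apply_one k R d hd]

theorem cf_inj : Function.Injective (cf k R d hd) := by
  intro s t h
  apply Subtype.ext
  rw [← Th_cf k R d hd s, h, Th_cf]

/-- an element with given coefficients -/
noncomputable def ofc (p : ℕ →₀ R) : OreS k R d hd := ⟨Th k R d p, p, rfl⟩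

theorem cf_ofc (p : ℕ →₀ R) : cf k R d hd (ofc k R d hd p) = p := Th_apply_one k R d hd p

theorem ofc_cf (s : OreS k R d hd) : ofc k R d hd (cf k R d hd s) = s :=
  cf_inj k R d hd (cf_ofc k R d hd _)

/-- the base ring -/
noncomputable def fO : R →ₐ[k] OreS k R d hd :=
  AlgHom.ofLinearMap
    { toFun := fun r => ⟨Lop k R r, Finsupp.single 0 r, by simp⟩
      map_add' := fun r s => Subtype.ext (map_add (Lop k R) r s)
      map_smul' := fun t r => Subtype.ext (map_smul (Lop k R) t r) }
    (Subtype.ext (Lop_one k R)) (fun r s => Subtype.ext (Lop_mul k R r s))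

theorem fO_val (r : R) : (fO k R d hd r).1 = Lop k R r := rfl

/-- the variable -/
noncomputable def xO : OreS k R d hd := ⟨xop k R d, Finsupp.single 1 1, by
  rw [Th_single, Lop_one, one_mul, pow_one]⟩

theorem xO_val : (xO k R d hd).1 = xop k R d := rfl

theorem xO_fO (r : R) :
    xO k R d hd * fO k R d hd r = fO k R d hd r * xO k R d hd + fO k R d hd (d r) :=
  Subtype.ext (xop_Lop k R d hd r)

theorem ofc_single (n : ℕ) (a : R) :
    ofc k R d hd (Finsupp.single n a) = fO k R d hd a * xO k R d hd ^ n := by
  apply Subtype.ext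
  change Th k R d (Finsupp.single n a) = _
  rw [Th_single]
  rfl

theorem ofc_add (p q : ℕ →₀ R) :
    ofc k R d hd (p + q) = ofc k R d hd p + ofc k R d hd q := Subtype.ext (map_add _ p q)

theorem ofc_zero : ofc k R d hd 0 = 0 := Subtype.ext (map_zero _)

theorem ofc_eq (p : ℕ →₀ R) :
    ofc k R d hd p = p.sum (fun n a => fO k R d hd a * xO k R d hd ^ n) := by
  classical
  induction p using Finsupp.induction_linear with
  | zero => rw [ofc_zero, Finsupp.sum_zero_index]
  | add f g hf hg =>
    rw [ofc_add, hf, hg, Finsupp.sum_add_index']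
    · intro n; rw [map_zero, zero_mul]
    · intro n a b; rw [map_add, add_mul]
  | single n a => rw [ofc_single, Finsupp.sum_single_index]; rw [map_zero, zero_mul]

theorem unique_rep (s : OreS k R d hd) :
    ∃! c : ℕ →₀ R, s = c.sum (fun n a => fO k R d hd a * xO k R d hd ^ n) := by
  refine ⟨cf k R d hd s, ?_, ?_⟩
  · change s = _
    rw [← ofc_eq, ofc_cf]
  · intro c hc
    have hc' : s = c.sum (fun n a => fO k R d hd a * xO k R d hd ^ n) := hc
    rw [hc', ← ofc_eq, cf_ofc]

omit hd in
/-- evaluation of polynomials in a ring -/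
noncomputable def evT {T : Type} [Ring T] [Algebra k T] (g : R →ₐ[k] T) (t : T) :
    (ℕ →₀ R) →ₗ[k] T :=
  Finsupp.lsum k (fun n => (LinearMap.mulRight k (t ^ n)).comp g.toLinearMap)

omit hd in
@[simp] theorem evT_single {T : Type} [Ring T] [Algebra k T] (g : R →ₐ[k] T) (t : T) (n : ℕ)
    (a : R) : evT k R g t (Finsupp.single n a) = g a * t ^ n := by
  simp [evT]

omit hd in
theorem evT_Lop {T : Type} [Ring T] [Algebra k T] (g : R →ₐ[k] T) (t : T) (r : R)
    (q : ℕ →₀ R) : evT k R g t (Lop k R r q) = g r * evT k R g t q := by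
  have : (evT k R g t).comp (Lop k R r) = (LinearMap.mulLeft k (g r)).comp (evT k R g t) := by
    apply Finsupp.lhom_ext
    intro n a
    rw [LinearMap.comp_apply, LinearMap.comp_apply, LinearMap.mulLeft_apply, Lop_single,
      evT_single, evT_single, map_mul, mul_assoc]
  exact LinearMap.congr_fun this q

omit hd in
theorem evT_xop {T : Type} [Ring T] [Algebra k T] (g : R →ₐ[k] T) (t : T)
    (ht : ∀ r, t * g r = g r * t + g (d r)) (q : ℕ →₀ R) :
    evT k R g t (xop k R d q) = t * evT k R g t q := by
  have : (evT k R g t).comp (xop k R d) = (LinearMap.mulLeft k t).comp (evT k R g t) := by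
    apply Finsupp.lhom_ext
    intro n a
    simp only [LinearMap.comp_apply, xop_single, map_add, evT_single, LinearMap.mulLeft_apply]
    rw [← mul_assoc, ht, add_mul, pow_succ', mul_assoc]
  exact LinearMap.congr_fun this q

omit hd in
theorem evT_xop_pow {T : Type} [Ring T] [Algebra k T] (g : R →ₐ[k] T) (t : T)
    (ht : ∀ r, t * g r = g r * t + g (d r)) (n : ℕ) (q : ℕ →₀ R) :
    evT k R g t ((xop k R d ^ n) q) = t ^ n * evT k R g t q := by
  induction n with
  | zero => simp
  | succ n ih => rw [pow_succ', Module.End.mul_apply, evT_xop k R d g t ht, ih, pow_succ', mul_assoc]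

omit hd in
theorem evT_Th {T : Type} [Ring T] [Algebra k T] (g : R →ₐ[k] T) (t : T)
    (ht : ∀ r, t * g r = g r * t + g (d r)) (p q : ℕ →₀ R) :
    evT k R g t (Th k R d p q) = evT k R g t p * evT k R g t q := by
  induction p using Finsupp.induction_linear with
  | zero => simp
  | add f h hf hh => rw [map_add, LinearMap.add_apply, map_add, hf, hh, map_add, add_mul]
  | single n a =>
    rw [Th_single, Module.End.mul_apply, evT_Lop, evT_xop_pow k R d g t ht, evT_single, mul_assoc]

/-- the universal property -/
noncomputable def liftO {T : Type} [Ring T] [Algebra k T] (g : R →ₐ[k] T) (t : T)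
    (ht : ∀ r, t * g r = g r * t + g (d r)) : OreS k R d hd →ₐ[k] T :=
  AlgHom.ofLinearMap ((evT k R g t).comp (cf k R d hd))
    (by
      change evT k R g t (Finsupp.single 0 1) = 1
      rw [evT_single, map_one, pow_zero, mul_one])
    (by
      intro s s'
      change evT k R g t ((s.1 * s'.1) (Finsupp.single 0 1)) = _
      rw [Module.End.mul_apply]
      rw [← Th_cf k R d hd s, evT_Th k R d g t ht]
      rfl)

theorem liftO_apply {T : Type} [Ring T] [Algebra k T] (g : R →ₐ[k] T) (t : T)
    (ht : ∀ r, t * g r = g r * t + g (d r)) (s : OreS k R d hd) :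
    liftO k R d hd g t ht s = evT k R g t (cf k R d hd s) := rfl

theorem cf_fO (r : R) : cf k R d hd (fO k R d hd r) = Finsupp.single 0 r := by
  change Lop k R r (Finsupp.single 0 1) = _
  rw [Lop_single, mul_one]

theorem cf_xO : cf k R d hd (xO k R d hd) = Finsupp.single 1 1 := by
  change xop k R d (Finsupp.single 0 1) = _
  rw [xop_single, d_one k R d hd, Finsupp.single_zero, add_zero]

theorem liftO_fO {T : Type} [Ring T] [Algebra k T] (g : R →ₐ[k] T) (t : T)
    (ht : ∀ r, t * g r = g r * t + g (d r)) (r : R) :
    liftO k R d hd g t ht (fO k R d hd r) = g r := by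
  rw [liftO_apply, cf_fO, evT_single, pow_zero, mul_one]

theorem liftO_xO {T : Type} [Ring T] [Algebra k T] (g : R →ₐ[k] T) (t : T)
    (ht : ∀ r, t * g r = g r * t + g (d r)) :
    liftO k R d hd g t ht (xO k R d hd) = t := by
  rw [liftO_apply, cf_xO, evT_single, pow_one, map_one, one_mul]

/-- induction principle: the extension is generated by the base ring and `x` -/
theorem ore_ind {Q : OreS k R d hd → Prop} (hf : ∀ r, Q (fO k R d hd r)) (hx : Q (xO k R d hd))
    (hadd : ∀ a b, Q a → Q b → Q (a + b)) (hmul : ∀ a b, Q a → Q b → Q (a * b)) (s) : Q s := by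
  classical
  have h1 : Q 1 := by rw [← map_one (fO k R d hd)]; exact hf 1
  have hpow : ∀ n, Q (xO k R d hd ^ n) := by
    intro n
    induction n with
    | zero => rw [pow_zero]; exact h1
    | succ n ih => rw [pow_succ]; exact hmul _ _ ih hx
  rw [← ofc_cf k R d hd s]
  generalize cf k R d hd s = p
  induction p using Finsupp.induction_linear with
  | zero => rw [ofc_zero, ← map_zero (fO k R d hd)]; exact hf 0
  | add f g hf' hg' => rw [ofc_add]; exact hadd _ _ hf' hg'
  | single n a => rw [ofc_single]; exact hmul _ _ (hf a) (hpow n)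

end Ore

end Pool.Agent.W412
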