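import Mathlib
import Pool.Agent.W412.Ore
import Pool.Agent.W412.LemE
import Pool.Agent.Helper678.WeylField

/-!
The ring `E = ℚ[y][x; y d/dy]` and its embedding in a division ring.
-/

set_option autoImplicit false

namespace Pool.Agent.W412

open Polynomial

/-- The Euler derivation. -/
noncomputable def eul : ℚ[X] →ₗ[ℚ] ℚ[X] := (LinearMap.mulLeft ℚ X).comp Polynomial.derivative

theorem eul_apply (p : ℚ[X]) : eul p = X * derivative p := rfl

theorem eul_mul (a b : ℚ[X]) : eul (a * b) = eul a * b + a * eul b := by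
  simp only [eul_apply, derivative_mul]; ring

/-- The ring `E`. -/
noncomputable abbrev E : Type := OreS ℚ ℚ[X] eul eul_mul

abbrev DD : Type := Pool.Agent.Helper678.WeylField.D

noncomputable def xD : DD := -(Pool.Agent.Helper678.WeylField.ι (Pool.Agent.Helper678.WeylField.tA 0))
noncomputable def yD : DD := Pool.Agent.Helper678.WeylField.d 0

theorem xyD : xD * yD - yD * xD = yD := by
  have h := Pool.Agent.Helper678.WeylField.dt_self 0
  rw [xD, yD, neg_mul, mul_neg, h]
  abel

theorem yD_ne : yD ≠ 0 := by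
  intro h
  have h1 := Pool.Agent.Helper678.WeylField.d_mul_d' 0
  have h2 : Pool.Agent.Helper678.WeylField.d 0 = 0 := h
  rw [h2, zero_mul] at h1
  exact zero_ne_one h1

noncomputable example : Algebra ℚ DD := inferInstance

/-- the base ring in `D` -/
noncomputable def gD : ℚ[X] →ₐ[ℚ] DD := Polynomial.aeval yD

theorem gD_rel (p : ℚ[X]) : xD * gD p = gD p * xD + gD (eul p) := by
  induction p using Polynomial.induction_on with
  | C a =>
    rw [eul_apply, derivative_C, mul_zero, map_zero, add_zero, gD, Polynomial.aeval_C]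
    exact (Algebra.commutes a xD).symm
  | add p q hp hq => rw [map_add, mul_add, hp, hq, map_add, map_add, add_mul]; abel
  | monomial n a _ =>
    have h1 : gD (C a * X ^ (n + 1)) = algebraMap ℚ DD a * yD ^ (n + 1) := by
      simp [gD]
    have h2 : eul (C a * X ^ (n + 1)) = C (a * (n + 1 : ℕ)) * X ^ (n + 1) := by
      rw [eul_apply, derivative_C_mul_X_pow, Nat.add_sub_cancel, pow_succ' X n]
      ring
    rw [h2, h1]
    have h3 : gD (C (a * (n + 1 : ℕ)) * X ^ (n + 1)) =
        algebraMap ℚ DD a * (((n + 1 : ℕ) : DD) * yD ^ (n + 1)) := by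
      simp only [gD, map_mul, Polynomial.aeval_C, map_pow, Polynomial.aeval_X, map_natCast,
        mul_assoc]
    rw [h3, ← mul_assoc, ← Algebra.commutes a xD, mul_assoc, x_ypow xyD, mul_assoc, ← mul_add]

noncomputable def toD : E →ₐ[ℚ] DD := liftO ℚ ℚ[X] eul eul_mul gD xD gD_rel

end Pool.Agent.W412
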