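import Mathlib
import Pool.Agent.W412.DivE

/-!
The embedding of `E` in the division ring is injective.
-/

set_option autoImplicit false

namespace Pool.Agent.W412

open Polynomial Pool.Agent.Helper678

open WeylField (ι ι_inj e t tA dA e_smul_t)

abbrev AA : Type := WeylField.A
abbrev KK : Type := WeylField.K

noncomputable def tt0 : KK := t 0

theorem transc (i : ℕ) (h : ℚ[X]) (h0 : Polynomial.aeval (-(tt0 + (i : KK))) h = 0) : h = 0 := by
  have h1 : (-(tt0 + (i : KK))) = algebraMap WeylField.P KK (-(MvPolynomial.X 0 + (i : WeylField.P))) := by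
    simp [tt0, t]
  rw [h1, Polynomial.aeval_algebraMap_apply] at h0
  have h2 : Polynomial.aeval (-(MvPolynomial.X 0 + (i : WeylField.P))) h = 0 :=
    (IsFractionRing.injective WeylField.P KK) (h0.trans (map_zero _).symm)
  let φ : WeylField.P →ₐ[ℚ] ℚ[X] := MvPolynomial.aeval (fun _ => -X - (i : ℚ[X]))
  have h3 := congrArg φ h2
  rw [map_zero, ← Polynomial.aeval_algHom_apply] at h3
  have h4 : φ (-(MvPolynomial.X 0 + (i : WeylField.P))) = X := by
    simp [φ]
  rw [h4, Polynomial.aeval_X_left, AlgHom.id_apply] at h3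
  exact h3

theorem dA_pow (i : ℕ) : (dA 0) ^ i = SkewMonoidAlgebra.single ((e 0) ^ i) 1 := by
  induction i with
  | zero => rw [pow_zero, pow_zero]; rfl
  | succ i ih =>
    rw [pow_succ, ih, dA, SkewMonoidAlgebra.single_mul_single, pow_succ]
    simp

theorem e_pow_smul (i : ℕ) : (e 0) ^ i • tt0 = tt0 + (i : KK) := by
  induction i with
  | zero => simp
  | succ i ih =>
    rw [pow_succ', mul_smul, ih, smul_add, tt0, e_smul_t]
    have : e 0 • (i : KK) = (i : KK) := by
      have := map_natCast (MulSemiringAction.toRingHom WeylField.G KK (e 0)) i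
      exact this
    rw [this]
    simp
    ring

theorem negtA_pow (q : ℕ) : (-(tA 0)) ^ q = SkewMonoidAlgebra.single (1 : WeylField.G) ((-tt0) ^ q) := by
  induction q with
  | zero => rw [pow_zero, pow_zero]; rfl
  | succ q ih =>
    rw [pow_succ, ih, tA, ← SkewMonoidAlgebra.single_neg, SkewMonoidAlgebra.single_mul_single,
      pow_succ]
    simp [tt0]

theorem yx (i q : ℕ) : yD ^ i * xD ^ q =
    ι (SkewMonoidAlgebra.single ((e 0) ^ i) ((-(tt0 + (i : KK))) ^ q)) := by
  have h1 : yD ^ i = ι ((dA 0) ^ i) := by rw [map_pow]; rfl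
  have h2 : xD ^ q = ι ((-(tA 0)) ^ q) := by rw [map_pow, map_neg]; rfl
  rw [h1, h2, ← map_mul, dA_pow, negtA_pow, SkewMonoidAlgebra.single_mul_single, mul_one, one_mul,
    smul_pow', smul_neg, e_pow_smul]

theorem e_pow_inj {i j : ℕ} (h : (e 0) ^ i = (e 0) ^ j) : i = j := by
  have h1 : (Multiplicative.toAdd ((e 0) ^ i)) 0 = (Multiplicative.toAdd ((e 0) ^ j)) 0 := by
    rw [h]
  simp only [e, toAdd_pow, toAdd_ofAdd, Finsupp.smul_apply, Finsupp.single_eq_same] at h1
  simpa using h1

theorem rat_eq (a : ℚ) : algebraMap ℚ DD a =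
    ι (SkewMonoidAlgebra.singleOneRingHom (algebraMap ℚ KK a)) := by
  have : (algebraMap ℚ DD) = (ι.comp SkewMonoidAlgebra.singleOneRingHom).comp
    (algebraMap ℚ KK) := RingHom.ext_rat _ _
  rw [this]
  rfl

theorem term_eq (a : ℚ) (i q : ℕ) : algebraMap ℚ DD a * yD ^ i * xD ^ q =
    ι (SkewMonoidAlgebra.single ((e 0) ^ i) (algebraMap ℚ KK a * (-(tt0 + (i : KK))) ^ q)) := by
  rw [mul_assoc, yx, rat_eq, ← map_mul]
  congr 1
  change SkewMonoidAlgebra.single 1 (algebraMap ℚ KK a) * _ = _
  rw [SkewMonoidAlgebra.single_mul_single, one_mul, one_smul]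

theorem toD_inj : Function.Injective toD := by
  classical
  rw [injective_iff_map_eq_zero]
  intro s hs
  apply cf_inj ℚ ℚ[X] eul eul_mul
  rw [map_zero]
  set c := cf ℚ ℚ[X] eul eul_mul s with hc
  obtain ⟨N, hN⟩ : ∃ N, ∀ q ∈ c.support, (c q).natDegree < N := by
    refine ⟨c.support.sup (fun q => (c q).natDegree) + 1, fun q hq => ?_⟩
    exact Nat.lt_succ_of_le (Finset.le_sup (f := fun q => (c q).natDegree) hq)
  have h1 : toD s = ∑ q ∈ c.support, gD (c q) * xD ^ q := by
    change evT ℚ ℚ[X] gD xD c = _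
    rw [evT, Finsupp.lsum_apply, Finsupp.sum]
    rfl
  have h2 : ∀ q ∈ c.support, gD (c q) * xD ^ q = ∑ i ∈ Finset.range N,
      ι (SkewMonoidAlgebra.single ((e 0) ^ i)
        (algebraMap ℚ KK ((c q).coeff i) * (-(tt0 + (i : KK))) ^ q)) := by
    intro q hq
    rw [gD, Polynomial.aeval_eq_sum_range' (hN q hq), Finset.sum_mul]
    refine Finset.sum_congr rfl fun i _ => ?_
    rw [← term_eq, Algebra.smul_def]
  rw [h1, Finset.sum_congr rfl h2] at hs
  have h3 : ι (∑ q ∈ c.support, ∑ i ∈ Finset.range N,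
      (SkewMonoidAlgebra.single ((e 0) ^ i)
        (algebraMap ℚ KK ((c q).coeff i) * (-(tt0 + (i : KK))) ^ q))) = 0 := by
    rw [map_sum]
    rw [← hs]
    exact Finset.sum_congr rfl fun q _ => map_sum _ _ _
  have h4 := ι_inj (h3.trans (map_zero ι).symm)
  have h5 : ∀ j, ∀ q, (c q).coeff j = 0 := by
    intro j q
    by_cases hj : j < N
    swap
    · by_cases hq : q ∈ c.support
      · exact Polynomial.coeff_eq_zero_of_natDegree_lt (lt_of_lt_of_le (hN q hq) (not_lt.mp hj))
      · rw [Finsupp.notMem_support_iff.mp hq, Polynomial.coeff_zero]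
    let co : AA →+ KK := (Finsupp.applyAddHom ((e 0) ^ j)).comp
      (SkewMonoidAlgebra.coeffAddEquiv (k := KK) (G := WeylField.G)).toAddMonoidHom
    have hco : ∀ (g : WeylField.G) (a : KK), co (SkewMonoidAlgebra.single g a) =
        if g = (e 0) ^ j then a else 0 := by
      intro g a
      change (SkewMonoidAlgebra.single g a).coeff ((e 0) ^ j) = _
      rw [SkewMonoidAlgebra.coeff_single, Finsupp.single_apply]
    have h6 := congrArg co h4
    simp only [map_sum, hco, map_zero] at h6
    have h7 : ∀ q, (∑ i ∈ Finset.range N, if (e 0) ^ i = (e 0) ^ j then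
        (algebraMap ℚ KK ((c q).coeff i) * (-(tt0 + (i : KK))) ^ q) else 0) =
          algebraMap ℚ KK ((c q).coeff j) * ((-(tt0 + (j : KK))) ^ q) := by
      intro q
      rw [Finset.sum_eq_single_of_mem j (Finset.mem_range.mpr hj)]
      · rw [if_pos rfl]
      · intro i _ hij
        rw [if_neg]
        intro h
        exact hij (e_pow_inj h)
    simp only [h7] at h6
    let h : ℚ[X] := ∑ q ∈ c.support, C ((c q).coeff j) * X ^ q
    have h8 : Polynomial.aeval (-(tt0 + (j : KK))) h = 0 := by
      rw [← h6]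
      simp only [h, map_sum, map_mul, Polynomial.aeval_C, map_pow, Polynomial.aeval_X]
    have h9 := transc j h h8
    by_cases hq : q ∈ c.support
    · have h10 := congrArg (fun z => Polynomial.coeff z q) h9
      simp only [h, Polynomial.finsetSum_coeff, Polynomial.coeff_C_mul, Polynomial.coeff_X_pow,
        Polynomial.coeff_zero] at h10
      rw [Finset.sum_eq_single_of_mem q hq] at h10
      · simpa using h10
      · intro b _ hb
        rw [if_neg (Ne.symm hb), mul_zero]
    · rw [Finsupp.notMem_support_iff.mp hq, Polynomial.coeff_zero]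
  ext q : 1
  ext j
  rw [h5 j q]
  simp

end Pool.Agent.W412
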