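import Mathlib
import Pool.Agent.W412.LemE

/-!
Lemma L for matrices over a division ring.
-/

set_option autoImplicit false

namespace Pool.Agent.W412

open Module

section Filt

variable {k : Type} [Field k] {D : Type} [DivisionRing D] [Algebra k D] {x y : D}

theorem En_one_mem' (j : ℕ) : (1 : D) ∈ En k x y ^ j := by
  have := Submodule.pow_mem_pow (En k x y) (one_mem_En x y) j
  rwa [one_pow] at this

theorem xE_mem : x ∈ En k x y ^ 1 := by
  rw [pow_one]; exact Submodule.subset_span (by simp)

theorem yE_mem : y ∈ En k x y ^ 1 := by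
  rw [pow_one]; exact Submodule.subset_span (by simp)

theorem En_mul' {m n : ℕ} {a b : D} (ha : a ∈ En k x y ^ m) (hb : b ∈ En k x y ^ n) :
    a * b ∈ En k x y ^ (m + n) := by
  rw [pow_add]; exact Submodule.mul_mem_mul ha hb

/-- the box -/
def boxF (x y : D) (j : ℕ) (p : Fin (j + 1) × Fin (j + 1)) : D := y ^ (p.1 : ℕ) * x ^ (p.2 : ℕ)

theorem mem_box {j p q : ℕ} (hp : p ≤ j) (hq : q ≤ j) :
    y ^ p * x ^ q ∈ Submodule.span k (Set.range (boxF x y j)) :=
  Submodule.subset_span ⟨(⟨p, by omega⟩, ⟨q, by omega⟩), rfl⟩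

theorem En_le_box (hxy : x * y - y * x = y) (j : ℕ) :
    En k x y ^ j ≤ Submodule.span k (Set.range (boxF x y j)) := by
  induction j with
  | zero =>
    rw [pow_zero, Submodule.one_le]
    have := mem_box (k := k) (x := x) (y := y) (j := 0) (p := 0) (q := 0) le_rfl le_rfl
    rwa [pow_zero, pow_zero, mul_one] at this
  | succ j ih =>
    rw [pow_succ']
    refine (mul_le_mul' le_rfl ih).trans ?_
    rw [En, Submodule.span_mul_span, Submodule.span_le]
    rintro _ ⟨a, ha, b, ⟨⟨⟨p, hp⟩, ⟨q, hq⟩⟩, rfl⟩, rfl⟩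
    simp only [Set.mem_insert_iff, Set.mem_singleton_iff] at ha
    simp only [SetLike.mem_coe, boxF]
    rcases ha with rfl | rfl | rfl
    · rw [one_mul]
      exact mem_box (by omega) (by omega)
    · rw [← mul_assoc, x_ypow hxy, add_mul, mul_assoc, ← pow_succ', mul_assoc, ← nsmul_eq_mul]
      refine Submodule.add_mem _ (mem_box (by omega) (by omega)) ?_
      exact nsmul_mem (mem_box (by omega) (by omega)) _
    · rw [← mul_assoc, ← pow_succ']
      exact mem_box (by omega) (by omega)

theorem En_fin (hxy : x * y - y * x = y) (j : ℕ) : Module.Finite k (En k x y ^ j : Submodule k D) := by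
  have : Module.Finite k (Submodule.span k (Set.range (boxF x y j))) :=
    FiniteDimensional.span_of_finite k (Set.finite_range _)
  exact Submodule.finiteDimensional_of_le (En_le_box hxy j)

theorem En_finrank (hxy : x * y - y * x = y) (j : ℕ) :
    Module.finrank k (En k x y ^ j : Submodule k D) ≤ (j + 1) ^ 2 := by
  have : Module.Finite k (Submodule.span k (Set.range (boxF x y j))) :=
    FiniteDimensional.span_of_finite k (Set.finite_range _)
  refine (Submodule.finrank_mono (En_le_box hxy j)).trans ?_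
  refine (finrank_range_le_card (R := k) (boxF x y j)).trans ?_
  simp [sq]

end Filt

section Act

variable {k : Type} [Field k] {D : Type} [DivisionRing D] [Algebra k D] (n : ℕ)

omit [Algebra k D] [Field k] in
/-- matrices act on column vectors -/
def mv1 (P : Matrix (Fin n) (Fin n) D) : (Fin n → D) →ₗ[Dᵐᵒᵖ] (Fin n → D) where
  toFun v := P.mulVec v
  map_add' := Matrix.mulVec_add P
  map_smul' c v := Matrix.mulVec_smul P c v

theorem mv1_apply (P : Matrix (Fin n) (Fin n) D) (v : Fin n → D) : mv1 n P v = P.mulVec v := rfl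

theorem mv1_inj {P Q : Matrix (Fin n) (Fin n) D} (h : mv1 n P = mv1 n Q) : P = Q := by
  classical
  ext i j
  have h1 := congrFun (LinearMap.congr_fun h (Pi.single j 1)) i
  rw [mv1_apply, mv1_apply, Matrix.mulVec_single_one, Matrix.mulVec_single_one] at h1
  exact h1

theorem ev_mv1 (P : Fin 3 → Matrix (Fin n) (Fin n) D) (γ : Fr k) :
    ev (k := k) (D := Dᵐᵒᵖ) (fun i => mv1 n (P i)) γ = mv1 n (FreeAlgebra.lift k P γ) := by
  induction γ using FreeAlgebra.induction with
  | grade0 r =>
    rw [AlgHom.commutes, AlgHom.commutes]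
    apply LinearMap.ext
    intro v
    rw [Module.algebraMap_end_apply, mv1_apply, Algebra.algebraMap_eq_smul_one, Matrix.smul_mulVec,
      Matrix.one_mulVec]
  | grade1 i => rw [ev_ι, FreeAlgebra.lift_ι_apply]
  | mul a b ha hb =>
    rw [map_mul, map_mul, ha, hb]
    apply LinearMap.ext
    intro v
    rw [Module.End.mul_apply, mv1_apply, mv1_apply, mv1_apply, Matrix.mulVec_mulVec]
  | add a b ha hb =>
    rw [map_add, map_add, ha, hb]
    apply LinearMap.ext
    intro v
    exact (Matrix.add_mulVec _ _ v).symm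

/-- entries in a subspace -/
theorem entries {x y : D} {d : ℕ} (P : Fin 3 → Matrix (Fin n) (Fin n) D)
    (hP : ∀ i a b, P i a b ∈ En k x y ^ d) (N : ℕ) (γ : Fr k) (hγ : γ ∈ V k ^ N) (a b : Fin n) :
    (FreeAlgebra.lift k P γ) a b ∈ En k x y ^ (d * N) := by
  classical
  induction N generalizing γ a b with
  | zero =>
    rw [pow_zero] at hγ
    obtain ⟨r, rfl⟩ := Submodule.mem_one.mp hγ
    rw [AlgHom.commutes, Algebra.algebraMap_eq_smul_one, Matrix.smul_apply, Matrix.one_apply]
    refine Submodule.smul_mem _ _ ?_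
    split_ifs
    · exact En_one_mem' _
    · exact Submodule.zero_mem _
  | succ N ih =>
    rw [pow_succ] at hγ
    refine Submodule.mul_induction_on hγ ?_ ?_
    · intro m hm m' hm'
      rw [map_mul, Matrix.mul_apply]
      refine Submodule.sum_mem _ fun c _ => ?_
      rw [mul_add, mul_one]
      refine En_mul' (ih m hm a c) ?_
      refine Submodule.span_induction ?_ ?_ ?_ ?_ hm'
      · rintro _ ⟨i, rfl⟩
        rw [FreeAlgebra.lift_ι_apply]
        exact hP i c b
      · rw [map_zero]; exact Submodule.zero_mem _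
      · intro u v _ _ hu hv
        rw [map_add]; exact Submodule.add_mem _ hu hv
      · intro r u _ hu
        rw [map_smul]; exact Submodule.smul_mem _ _ hu
    · intro u v hu hv
      rw [map_add]; exact Submodule.add_mem _ hu hv

end Act

section Op

variable {k : Type} [Field k] {D : Type} [DivisionRing D] [Algebra k D]

theorem op_En {x y : D} (N : ℕ) (e : Dᵐᵒᵖ)
    (he : e ∈ En k (-MulOpposite.op x) (MulOpposite.op y) ^ N) : e.unop ∈ En k x y ^ N := by
  induction N generalizing e with
  | zero =>
    rw [pow_zero] at he ⊢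
    obtain ⟨r, rfl⟩ := Submodule.mem_one.mp he
    exact Submodule.mem_one.mpr ⟨r, rfl⟩
  | succ N ih =>
    rw [pow_succ] at he
    rw [pow_succ']
    refine Submodule.mul_induction_on he ?_ ?_
    · intro m hm m' hm'
      rw [MulOpposite.unop_mul]
      refine Submodule.mul_mem_mul ?_ (ih m hm)
      refine Submodule.span_induction ?_ ?_ ?_ ?_ hm'
      · intro u hu
        simp only [Set.mem_insert_iff, Set.mem_singleton_iff] at hu
        rcases hu with rfl | rfl | rfl
        · exact one_mem_En x y
        · rw [MulOpposite.unop_neg, MulOpposite.unop_op]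
          exact Submodule.neg_mem _ (Submodule.subset_span (by simp))
        · exact Submodule.subset_span (by simp)
      · exact Submodule.zero_mem _
      · intro u v _ _ hu hv
        rw [MulOpposite.unop_add]; exact Submodule.add_mem _ hu hv
      · intro r u _ hu
        rw [MulOpposite.unop_smul]; exact Submodule.smul_mem _ _ hu
    · intro u v hu hv
      rw [MulOpposite.unop_add]; exact Submodule.add_mem _ hu hv

theorem growth_mat [CharZero k] (n : ℕ) {x y : D} (hxy : x * y - y * x = y) {d : ℕ}
    (P : Fin 3 → Matrix (Fin n) (Fin n) D) (hP : ∀ i a b, P i a b ∈ En k x y ^ d) :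
    Growth k (-MulOpposite.op x) (MulOpposite.op y) (D := Dᵐᵒᵖ) (fun i => mv1 n (P i)) := by
  classical
  let F : ℕ → Submodule k (Fin n → D) := fun N =>
    Submodule.pi Set.univ (fun _ => En k x y ^ ((d + 1) * N))
  have hinj : ∀ N, ∃ f : F N →ₗ[k] (Fin n → (En k x y ^ ((d + 1) * N) : Submodule k D)),
      Function.Injective f := by
    intro N
    refine ⟨LinearMap.pi (fun i => ((LinearMap.proj i).comp (F N).subtype).codRestrict _
      (fun v => v.2 i (Set.mem_univ i))), ?_⟩
    intro u v h
    apply Subtype.ext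
    funext i
    exact congrArg Subtype.val (congrFun h i)
  refine ⟨Finset.univ.image (fun i => Pi.single i 1), n * (d + 1) ^ 2, F, ?_, ?_, ?_, ?_⟩
  · rw [eq_top_iff]
    intro v _
    have hv : v = ∑ i, MulOpposite.op (v i) • (Pi.single i (1 : D) : Fin n → D) := by
      funext j
      rw [Finset.sum_apply, Finset.sum_eq_single_of_mem j (Finset.mem_univ j)]
      · simp
      · intro b _ hb
        simp [hb.symm]
    rw [hv]
    refine Submodule.sum_mem _ fun i _ => Submodule.smul_mem _ _ (Submodule.subset_span ?_)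
    rw [Finset.coe_image]
    exact ⟨i, by simp, rfl⟩
  · intro N
    obtain ⟨f, hf⟩ := hinj N
    have := En_fin (k := k) hxy ((d + 1) * N)
    exact Module.Finite.of_injective f hf
  · intro N
    obtain ⟨f, hf⟩ := hinj N
    have := En_fin (k := k) hxy ((d + 1) * N)
    refine (LinearMap.finrank_le_finrank_of_injective hf).trans ?_
    rw [Module.finrank_pi_fintype, Finset.sum_const, Finset.card_univ, Fintype.card_fin,
      smul_eq_mul, mul_assoc]
    refine Nat.mul_le_mul_left _ ((En_finrank (k := k) hxy _).trans ?_)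
    rw [← mul_pow]
    exact Nat.pow_le_pow_left (by nlinarith) 2
  · intro N N' hN γ hγ e he m hm
    rw [Finset.mem_image] at hm
    obtain ⟨i, -, rfl⟩ := hm
    rw [map_smul (ev (k := k) (D := Dᵐᵒᵖ) _ γ), ev_mv1, mv1_apply, Matrix.mulVec_single_one]
    intro j _
    change (FreeAlgebra.lift k P γ) j i * e.unop ∈ _
    have h1 := entries n P hP N' γ hγ j i
    have h2 := op_En N e he
    refine En_mono x y ?_ (En_mul' h1 h2)
    nlinarith

/-- the division ring form -/
theorem good_mat [CharZero k] (n : ℕ) {x y : D} (hxy : x * y - y * x = y) (hy : y ≠ 0) {d : ℕ}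
    (P : Fin 3 → Matrix (Fin n) (Fin n) D) (hP : ∀ i a b, P i a b ∈ En k x y ^ d) :
    ∃ N, ∃ γ ∈ V k ^ N, FreeAlgebra.lift k P γ = 0 ∧ ab k γ ≠ 0 := by
  have hxy' : (-MulOpposite.op x) * MulOpposite.op y - MulOpposite.op y * (-MulOpposite.op x) =
      MulOpposite.op y := by
    rw [neg_mul, mul_neg, ← MulOpposite.op_mul, ← MulOpposite.op_mul, sub_neg_eq_add,
      ← MulOpposite.op_neg, ← MulOpposite.op_add]
    congr 1
    rw [neg_add_eq_sub]; exact hxy
  have hy' : MulOpposite.op y ≠ 0 := fun h => hy (MulOpposite.op_eq_zero_iff y |>.mp h)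
  have hfin : Module.Finite Dᵐᵒᵖ D := by
    refine ⟨⟨{1}, ?_⟩⟩
    rw [eq_top_iff]
    intro v _
    rw [Finset.coe_singleton, Submodule.mem_span_singleton]
    exact ⟨MulOpposite.op v, by simp⟩
  obtain ⟨N, γ, hγ, h1, h2⟩ := main_lemma (k := k) hxy' hy' _ (Fin n → D) rfl _
    (growth_mat n hxy P hP)
  refine ⟨N, γ, hγ, ?_, h2⟩
  apply mv1_inj
  rw [← ev_mv1, h1]
  apply LinearMap.ext
  intro v
  rw [mv1_apply, Matrix.zero_mulVec]
  rfl

end Op

end Pool.Agent.W412
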