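import Mathlib
import Pool.Agent.W412.DivInj
import Pool.Agent.W412.Mat

/-!
Lemma L for matrices over `E`.
-/

set_option autoImplicit false

namespace Pool.Agent.W412

open Polynomial Module

section Gen

variable {D : Type} [DivisionRing D] [Algebra ℚ D] {x y : D}

theorem exists_filt (φ : E →ₐ[ℚ] D) (hx : φ (xO ℚ ℚ[X] eul eul_mul) = x)
    (hy : φ (fO ℚ ℚ[X] eul eul_mul X) = y) (s : E) : ∃ d, φ s ∈ En ℚ x y ^ d := by
  induction s using ore_ind with
  | hf r =>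
    induction r using Polynomial.induction_on with
    | C a =>
      refine ⟨0, ?_⟩
      have h1 : fO ℚ ℚ[X] eul eul_mul (C a) = algebraMap ℚ _ a := (fO ℚ ℚ[X] eul eul_mul).commutes a
      rw [h1, AlgHom.commutes, Algebra.algebraMap_eq_smul_one]
      exact Submodule.smul_mem _ _ (En_one_mem' 0)
    | add p q hp hq =>
      obtain ⟨d, hd⟩ := hp
      obtain ⟨e, he⟩ := hq
      refine ⟨max d e, ?_⟩
      rw [map_add, map_add]
      exact Submodule.add_mem _ (En_mono x y (le_max_left _ _) hd)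
        (En_mono x y (le_max_right _ _) he)
    | monomial n a h =>
      obtain ⟨d, hd⟩ := h
      refine ⟨d + 1, ?_⟩
      have h2 : (C a * X ^ (n + 1) : ℚ[X]) = C a * X ^ n * X := by rw [pow_succ, mul_assoc]
      rw [h2, map_mul, map_mul]
      refine En_mul' hd ?_
      rw [hy]
      exact yE_mem
  | hx =>
    refine ⟨1, ?_⟩
    rw [hx]
    exact xE_mem
  | hadd p q hp hq =>
    obtain ⟨d, hd⟩ := hp
    obtain ⟨e, he⟩ := hq
    refine ⟨max d e, ?_⟩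
    rw [map_add]
    exact Submodule.add_mem _ (En_mono x y (le_max_left _ _) hd)
      (En_mono x y (le_max_right _ _) he)
  | hmul p q hp hq =>
    obtain ⟨d, hd⟩ := hp
    obtain ⟨e, he⟩ := hq
    refine ⟨d + e, ?_⟩
    rw [map_mul]
    exact En_mul' hd he

theorem lemmaL_aux (φ : E →ₐ[ℚ] D) (hx : φ (xO ℚ ℚ[X] eul eul_mul) = x)
    (hy : φ (fO ℚ ℚ[X] eul eul_mul X) = y) (hφ : Function.Injective φ)
    (hxy : x * y - y * x = y) (hy0 : y ≠ 0) (n : ℕ) (P : Fin 3 → Matrix (Fin n) (Fin n) E) :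
    ∃ N, 1 ≤ N ∧ ∃ γ ∈ V ℚ ^ N, FreeAlgebra.lift ℚ P γ = 0 ∧ ab ℚ γ ≠ 0 := by
  classical
  let Q : Fin 3 → Matrix (Fin n) (Fin n) D := fun i => (P i).map φ
  obtain ⟨d, hd⟩ : ∃ d, ∀ i a b, Q i a b ∈ En ℚ x y ^ d := by
    choose f hf using fun p : Fin 3 × Fin n × Fin n => exists_filt φ hx hy (P p.1 p.2.1 p.2.2)
    refine ⟨Finset.univ.sup f, fun i a b => ?_⟩
    exact En_mono x y (Finset.le_sup (Finset.mem_univ (i, a, b))) (hf (i, a, b))
  obtain ⟨N, γ, hγ, h1, h2⟩ := good_mat (k := ℚ) n hxy hy0 Q hd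
  refine ⟨N + 1, by omega, γ * FreeAlgebra.ι ℚ 0, mul_mem ℚ hγ (ι_mem_one ℚ 0), ?_, ?_⟩
  · have h3 : FreeAlgebra.lift ℚ Q = (AlgHom.mapMatrix φ).comp (FreeAlgebra.lift ℚ P) := by
      apply FreeAlgebra.hom_ext
      funext i
      simp [Q]
    rw [h3, AlgHom.comp_apply] at h1
    have h4 : FreeAlgebra.lift ℚ P γ = 0 := by
      apply Matrix.ext
      intro a b
      apply hφ
      have := congrFun (congrFun h1 a) b
      exact this.trans (map_zero φ).symm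
    rw [map_mul, h4, zero_mul]
  · rw [map_mul, ab_ι]
    exact mul_ne_zero h2 (MvPolynomial.X_ne_zero _)

end Gen

theorem lemmaL (n : ℕ) (P : Fin 3 → Matrix (Fin n) (Fin n) E) :
    ∃ N, 1 ≤ N ∧ ∃ γ ∈ V ℚ ^ N, FreeAlgebra.lift ℚ P γ = 0 ∧ ab ℚ γ ≠ 0 :=
  lemmaL_aux (x := xD) (y := yD) toD (liftO_xO _ _ _ _ _ _ _)
    ((liftO_fO _ _ _ _ _ _ _ _).trans (Polynomial.aeval_X yD)) toD_inj xyD yD_ne n P

end Pool.Agent.W412
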