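import Mathlib

/-!
Pairing between monoid algebras of a free monoid, and the ideal attached to a family of elements.
-/

set_option autoImplicit false

namespace Pool.Agent.W412

open MonoidAlgebra

section Pair

variable {k : Type} [Field k] {α : Type} {R : Type} [Ring R] [Algebra k R]

/-- homogeneous of degree `j` -/
def IsHom {R : Type} [Ring R] (j : ℕ) (X : MonoidAlgebra R (FreeMonoid α)) : Prop :=
  ∀ w, X.coeff w ≠ 0 → w.length = j

omit [Algebra k R] [Field k] in
theorem IsHom.add {j : ℕ} {X Y : MonoidAlgebra R (FreeMonoid α)} (hX : IsHom j X)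
    (hY : IsHom j Y) : IsHom j (X + Y) := by
  intro w hw
  by_cases h : X.coeff w = 0
  · apply hY
    intro h'
    apply hw
    rw [coeff_add, Finsupp.add_apply, h, h', add_zero]
  · exact hX w h

theorem isHom_zero (j : ℕ) : IsHom j (0 : MonoidAlgebra R (FreeMonoid α)) := by
  intro w hw
  exact absurd rfl hw

theorem isHom_single (w : FreeMonoid α) (r : R) : IsHom w.length (single w r) := by
  classical
  intro v hv
  rw [coeff_single, Finsupp.single_apply] at hv
  by_cases h : w = v
  · rw [h]
  · rw [if_neg h] at hv; exact absurd rfl hv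

theorem isHom_one : IsHom 0 (1 : MonoidAlgebra R (FreeMonoid α)) := isHom_single 1 1

theorem IsHom.mul {i j : ℕ} {X Y : MonoidAlgebra R (FreeMonoid α)} (hX : IsHom i X)
    (hY : IsHom j Y) : IsHom (i + j) (X * Y) := by
  classical
  intro w hw
  by_contra hne
  apply hw
  rw [coeff_mul]
  refine Finset.sum_eq_zero fun m₁ h₁ => Finset.sum_eq_zero fun m₂ h₂ => ?_
  beta_reduce
  rw [if_neg]
  intro h
  apply hne
  rw [← h, FreeMonoid.length_mul, hX m₁ (Finsupp.mem_support_iff.mp h₁),
    hY m₂ (Finsupp.mem_support_iff.mp h₂)]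

theorem IsHom.pow {i : ℕ} {X : MonoidAlgebra R (FreeMonoid α)} (hX : IsHom i X) (n : ℕ) :
    IsHom (n * i) (X ^ n) := by
  induction n with
  | zero => rw [pow_zero, zero_mul]; exact isHom_one
  | succ n ih => rw [pow_succ, add_mul, one_mul]; exact ih.mul hX

theorem coeff_mul_hom {j : ℕ} {y : MonoidAlgebra R (FreeMonoid α)} (hy : IsHom j y)
    (y' : MonoidAlgebra R (FreeMonoid α)) (w₁ w₂ : FreeMonoid α) (h₁ : w₁.length = j) :
    (y * y').coeff (w₁ * w₂) = y.coeff w₁ * y'.coeff w₂ := by
  classical
  have key : ∀ m₁ m₂ : FreeMonoid α, m₁.length = j → m₁ * m₂ = w₁ * w₂ → m₁ = w₁ ∧ m₂ = w₂ := by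
    intro m₁ m₂ hm h
    have h' : FreeMonoid.toList m₁ ++ FreeMonoid.toList m₂ =
      FreeMonoid.toList w₁ ++ FreeMonoid.toList w₂ := h
    exact List.append_inj h' (hm.trans h₁.symm)
  rw [coeff_mul, Finsupp.sum_eq_single w₁]
  · rw [Finsupp.sum_eq_single w₂]
    · rw [if_pos rfl]
    · intro m₂ _ hne
      rw [if_neg]
      intro h
      exact hne (mul_left_cancel h)
    · intro _
      rw [mul_zero, ite_self]
  · intro m₁ hm₁ hne
    refine Finset.sum_eq_zero fun m₂ _ => ?_
    beta_reduce
    rw [if_neg]
    intro h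
    exact hne (key m₁ m₂ (hy m₁ hm₁) h).1
  · intro h
    refine Finset.sum_eq_zero fun m₂ _ => ?_
    beta_reduce
    rw [zero_mul, ite_self]

/-- the pairing -/
noncomputable def pair (p : MonoidAlgebra k (FreeMonoid α)) (y : MonoidAlgebra R (FreeMonoid α)) :
    R := p.coeff.sum (fun w c => c • y.coeff w)

theorem pair_single (w : FreeMonoid α) (c : k) (y : MonoidAlgebra R (FreeMonoid α)) :
    pair (single w c) y = c • y.coeff w := by
  rw [pair, coeff_single, Finsupp.sum_single_index]
  rw [zero_smul]

theorem pair_add_left (p q : MonoidAlgebra k (FreeMonoid α)) (y : MonoidAlgebra R (FreeMonoid α)) :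
    pair (p + q) y = pair p y + pair q y := by
  classical
  rw [pair, coeff_add, Finsupp.sum_add_index']
  · rfl
  · intro w; rw [zero_smul]
  · intro w c d; rw [add_smul]

theorem pair_zero_left (y : MonoidAlgebra R (FreeMonoid α)) :
    pair (0 : MonoidAlgebra k (FreeMonoid α)) y = 0 := by
  rw [pair, coeff_zero, Finsupp.sum_zero_index]

theorem pair_add_right (p : MonoidAlgebra k (FreeMonoid α))
    (y z : MonoidAlgebra R (FreeMonoid α)) : pair p (y + z) = pair p y + pair p z := by
  rw [pair, pair, pair, ← Finsupp.sum_add]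
  refine Finsupp.sum_congr fun w _ => ?_
  rw [coeff_add, Finsupp.add_apply, smul_add]

theorem pair_zero_right (p : MonoidAlgebra k (FreeMonoid α)) :
    pair p (0 : MonoidAlgebra R (FreeMonoid α)) = 0 := by
  rw [pair]
  refine Finset.sum_eq_zero fun w _ => ?_
  beta_reduce
  rw [coeff_zero, Finsupp.zero_apply, smul_zero]

theorem pair_neg_right (p : MonoidAlgebra k (FreeMonoid α))
    (y : MonoidAlgebra R (FreeMonoid α)) : pair p (-y) = -pair p y := by
  rw [eq_neg_iff_add_eq_zero, ← pair_add_right, neg_add_cancel, pair_zero_right]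

/-- The induction principle for homogeneous elements: they are sums of words of the same length -/
theorem hom_ind {R : Type} [Ring R] {j : ℕ} {P : MonoidAlgebra R (FreeMonoid α) → Prop}
    (h0 : P 0) (hs : ∀ w r, w.length = j → P (single w r))
    (ha : ∀ x y, P x → P y → P (x + y)) (x : MonoidAlgebra R (FreeMonoid α)) (hx : IsHom j x) :
    P x := by
  rw [← sum_coeff_single x]
  refine Finset.sum_induction _ P ha h0 ?_
  intro w hw
  exact hs w _ (hx w (Finsupp.mem_support_iff.mp hw))

theorem pair_mul {j : ℕ} {p : MonoidAlgebra k (FreeMonoid α)} (hp : IsHom j p)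
    (q : MonoidAlgebra k (FreeMonoid α)) {y : MonoidAlgebra R (FreeMonoid α)} (hy : IsHom j y)
    (y' : MonoidAlgebra R (FreeMonoid α)) : pair (p * q) (y * y') = pair p y * pair q y' := by
  refine hom_ind (P := fun p => pair (p * q) (y * y') = pair p y * pair q y') ?_ ?_ ?_ p hp
  · rw [zero_mul, pair_zero_left, pair_zero_left, zero_mul]
  · intro w c hw
    induction q using MonoidAlgebra.induction_linear with
    | zero => rw [mul_zero, pair_zero_left, pair_zero_left, mul_zero]
    | add f g hf hg => rw [mul_add, pair_add_left, pair_add_left, hf, hg, mul_add]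
    | single m r =>
      rw [single_mul_single, pair_single, pair_single, pair_single, coeff_mul_hom hy y' w m hw,
        smul_mul_assoc, mul_smul_comm, smul_smul]
  · intro x z hx hz
    rw [add_mul, pair_add_left, pair_add_left, hx, hz, add_mul]

theorem pair_deg {i j : ℕ} (hij : i ≠ j) {p : MonoidAlgebra k (FreeMonoid α)} (hp : IsHom i p)
    {y : MonoidAlgebra R (FreeMonoid α)} (hy : IsHom j y) : pair p y = 0 := by
  rw [pair]
  refine Finset.sum_eq_zero fun w hw => ?_
  have h1 := hp w (Finsupp.mem_support_iff.mp hw)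
  by_cases h : y.coeff w = 0
  · beta_reduce; rw [h, smul_zero]
  · exact absurd (h1.symm.trans (hy w h)) hij

/-- pairing with a word -/
theorem pair_word (p : MonoidAlgebra k (FreeMonoid α)) (w : FreeMonoid α) (r : R) :
    pair p (single w r) = p.coeff w • r := by
  classical
  rw [pair, Finsupp.sum_eq_single w]
  · rw [coeff_single, Finsupp.single_eq_same]
  · intro v _ hv
    rw [coeff_single, Finsupp.single_eq_of_ne hv, smul_zero]
  · intro _
    rw [zero_smul]

/-- membership in the ideal attached to a family -/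
def memJ (A : ℕ → MonoidAlgebra k (FreeMonoid α)) (X : MonoidAlgebra R (FreeMonoid α)) : Prop :=
  ∀ T (Y Z : MonoidAlgebra R (FreeMonoid α)), pair (A T) (Y * X * Z) = 0

variable {A : ℕ → MonoidAlgebra k (FreeMonoid α)}

theorem memJ_zero : memJ A (0 : MonoidAlgebra R (FreeMonoid α)) := by
  intro T Y Z
  rw [mul_zero, zero_mul, pair_zero_right]

theorem memJ.add {X X' : MonoidAlgebra R (FreeMonoid α)} (h : memJ A X) (h' : memJ A X') :
    memJ A (X + X') := by
  intro T Y Z
  rw [mul_add, add_mul, pair_add_right, h, h', add_zero]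

theorem memJ.mul_left {X : MonoidAlgebra R (FreeMonoid α)} (h : memJ A X)
    (X' : MonoidAlgebra R (FreeMonoid α)) : memJ A (X' * X) := by
  intro T Y Z
  rw [← mul_assoc Y]
  exact h T _ _

theorem memJ.mul_right {X : MonoidAlgebra R (FreeMonoid α)} (h : memJ A X)
    (X' : MonoidAlgebra R (FreeMonoid α)) : memJ A (X * X') := by
  intro T Y Z
  rw [← mul_assoc Y, mul_assoc _ X']
  exact h T _ _

theorem memJ.neg {X : MonoidAlgebra R (FreeMonoid α)} (h : memJ A X) : memJ A (-X) := by
  intro T Y Z
  rw [mul_neg, neg_mul, pair_neg_right, h, neg_zero]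

/-- it is enough to test with words -/
theorem memJ_of_words {X : MonoidAlgebra R (FreeMonoid α)}
    (h : ∀ T u v (r s : R), pair (A T) (single u r * X * single v s) = 0) : memJ A X := by
  intro T Y Z
  induction Y using MonoidAlgebra.induction_linear with
  | zero => rw [zero_mul, zero_mul, pair_zero_right]
  | add f g hf hg => rw [add_mul, add_mul, pair_add_right, hf, hg, add_zero]
  | single u r =>
    induction Z using MonoidAlgebra.induction_linear with
    | zero => rw [mul_zero, pair_zero_right]
    | add f g hf hg => rw [mul_add, pair_add_right, hf, hg, add_zero]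
    | single v s => exact h T u v r s

theorem pair_words (p : MonoidAlgebra k (FreeMonoid α)) (X : MonoidAlgebra R (FreeMonoid α))
    (u v : FreeMonoid α) (r s : R) :
    pair p (single u r * X * single v s) =
      r * (X.coeff.sum (fun w c => p.coeff (u * w * v) • c)) * s := by
  classical
  induction X using MonoidAlgebra.induction_linear with
  | zero =>
    rw [mul_zero, zero_mul, pair_zero_right, coeff_zero, Finsupp.sum_zero_index, mul_zero, zero_mul]
  | add f g hf hg =>
    rw [mul_add, add_mul, pair_add_right, hf, hg, coeff_add, Finsupp.sum_add_index', mul_add,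
      add_mul]
    · intro w; rw [smul_zero]
    · intro w c d; rw [smul_add]
  | single w c =>
    rw [single_mul_single, single_mul_single, pair_word, coeff_single, Finsupp.sum_single_index,
      mul_smul_comm, smul_mul_assoc]
    rw [smul_zero]

theorem memJ_iff (X : MonoidAlgebra R (FreeMonoid α)) : memJ A X ↔
    ∀ T u v, X.coeff.sum (fun w c => (A T).coeff (u * w * v) • c) = 0 := by
  constructor
  · intro h T u v
    have := h T (single u 1) (single v 1)
    rwa [pair_words, one_mul, mul_one] at this
  · intro h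
    apply memJ_of_words
    intro T u v r s
    rw [pair_words, h, mul_zero, zero_mul]

/-- apply a linear map to coefficients -/
noncomputable def mapc {R' : Type} [Ring R'] [Algebra k R'] (φ : R →ₗ[k] R')
    (X : MonoidAlgebra R (FreeMonoid α)) : MonoidAlgebra R' (FreeMonoid α) :=
  ofCoeff (X.coeff.mapRange φ (map_zero φ))

theorem mapc_single {R' : Type} [Ring R'] [Algebra k R'] (φ : R →ₗ[k] R') (w : FreeMonoid α)
    (r : R) : mapc φ (single w r) = single w (φ r) := by
  rw [mapc, coeff_single, Finsupp.mapRange_single, ofCoeff_single]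

theorem mapc_add {R' : Type} [Ring R'] [Algebra k R'] (φ : R →ₗ[k] R')
    (X Y : MonoidAlgebra R (FreeMonoid α)) : mapc φ (X + Y) = mapc φ X + mapc φ Y := by
  rw [mapc, coeff_add, Finsupp.mapRange_add (map_add φ)]
  rfl

theorem mapc_zero {R' : Type} [Ring R'] [Algebra k R'] (φ : R →ₗ[k] R') :
    mapc φ (0 : MonoidAlgebra R (FreeMonoid α)) = 0 := by
  rw [mapc, coeff_zero, Finsupp.mapRange_zero]
  rfl

theorem memJ.mapc {R' : Type} [Ring R'] [Algebra k R'] (φ : R →ₗ[k] R')
    {X : MonoidAlgebra R (FreeMonoid α)} (h : memJ A X) : memJ A (mapc φ X) := by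
  rw [memJ_iff] at h ⊢
  intro T u v
  rw [W412.mapc, coeff_ofCoeff, Finsupp.sum_mapRange_index]
  · have := congrArg φ (h T u v)
    rw [map_zero, map_finsuppSum] at this
    rw [← this]
    exact Finsupp.sum_congr fun w _ => (map_smul φ _ _).symm
  · intro w
    rw [smul_zero]

end Pair

end Pool.Agent.W412
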