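import Mathlib
import Pool.Agent.W412.Pair

/-!
The window argument.
-/

set_option autoImplicit false

namespace Pool.Agent.W412

open MonoidAlgebra

section Window

variable {k : Type} [Field k] {α : Type} {R : Type} [Ring R] [Algebra k R]

/-- homogeneous elements as a submodule -/
def homS (k : Type) [Field k] (α : Type) (j : ℕ) : Submodule k (MonoidAlgebra k (FreeMonoid α)) where
  carrier := {p | IsHom j p}
  add_mem' := fun h h' => IsHom.add h h'
  zero_mem' := isHom_zero j
  smul_mem' := by
    intro c p hp w hw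
    apply hp
    intro h
    apply hw
    rw [coeff_smul, Finsupp.smul_apply, h, smul_zero]

theorem homS_pow {U : Submodule k (MonoidAlgebra k (FreeMonoid α))} {l : ℕ} (hU : U ≤ homS k α l)
    (i : ℕ) : U ^ i ≤ homS k α (i * l) := by
  induction i with
  | zero =>
    rw [pow_zero, Submodule.one_le, zero_mul]
    exact isHom_one
  | succ i ih =>
    rw [pow_succ, Submodule.mul_le]
    intro m hm n hn
    rw [add_mul, one_mul]
    exact IsHom.mul (ih hm) (hU hn)

theorem window {U : Submodule k (MonoidAlgebra k (FreeMonoid α))} {l : ℕ} (hU : U ≤ homS k α l)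
    (hl : 1 ≤ l) {G : MonoidAlgebra R (FreeMonoid α)} (hG : IsHom 1 G)
    (hUG : ∀ q ∈ U, pair q (G ^ l) = 0) {m : ℕ} {p : MonoidAlgebra k (FreeMonoid α)}
    (hp : p ∈ U ^ m) {a b : ℕ} {Y Z : MonoidAlgebra R (FreeMonoid α)} (hY : IsHom a Y)
    (hZ : IsHom b Z) : pair p (Y * G ^ (2 * l) * Z) = 0 := by
  have hGp : ∀ n, IsHom n (G ^ n) := fun n => by
    have := hG.pow n
    rwa [mul_one] at this
  by_cases hdeg : m * l = a + 2 * l + b
  swap
  · exact pair_deg hdeg (homS_pow hU m hp) ((hY.mul (hGp _)).mul hZ)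
  obtain ⟨i, a', hi, ha'⟩ : ∃ i a', i * l = a + a' ∧ a' < l := by
    refine ⟨(a + (l - 1)) / l, l - 1 - (a + (l - 1)) % l, ?_, by omega⟩
    have h1 := Nat.div_add_mod (a + (l - 1)) l
    have h2 := Nat.mod_lt (a + (l - 1)) (show 0 < l by omega)
    rw [mul_comm]
    omega
  obtain ⟨j, hj⟩ : ∃ j, m = i + 1 + j := by
    have : (i + 1) * l ≤ m * l := by
      rw [hdeg, add_mul, one_mul, hi]; omega
    have := Nat.le_of_mul_le_mul_right this (by omega)
    exact ⟨m - (i + 1), by omega⟩
  have h2l : G ^ (2 * l) = G ^ a' * G ^ l * G ^ (l - a') := by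
    rw [← pow_add, ← pow_add]; congr 1; omega
  have hre : Y * G ^ (2 * l) * Z = (Y * G ^ a') * (G ^ l * (G ^ (l - a') * Z)) := by
    rw [h2l]; simp only [mul_assoc]
  rw [hre]
  rw [hj, pow_add, pow_add, pow_one, mul_assoc] at hp
  refine Submodule.mul_induction_on hp ?_ ?_
  · intro p' hp' p'' hp''
    have h1 : IsHom (i * l) (Y * G ^ a') := by
      rw [hi]; exact hY.mul (hGp a')
    rw [pair_mul (homS_pow hU i hp') _ h1]
    have h2 : pair p'' (G ^ l * (G ^ (l - a') * Z)) = 0 := by
      refine Submodule.mul_induction_on hp'' ?_ ?_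
      · intro q hq q' _
        rw [pair_mul (hU hq) _ (hGp l), hUG q hq, zero_mul]
      · intro x y hx hy
        rw [pair_add_left, hx, hy, add_zero]
    rw [h2, mul_zero]
  · intro x y hx hy
    rw [pair_add_left, hx, hy, add_zero]

/-- the generic element -/
noncomputable def gen [Fintype α] (F : α → R) : MonoidAlgebra R (FreeMonoid α) :=
  ∑ s, single (FreeMonoid.of s) (F s)

theorem isHom_gen [Fintype α] (F : α → R) : IsHom 1 (gen F) := by
  refine Finset.sum_induction _ (IsHom 1) (fun _ _ => IsHom.add) (isHom_zero 1) ?_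
  intro s _
  exact isHom_single (FreeMonoid.of s) (F s)

theorem coeff_gen [Fintype α] (F : α → R) (s : α) : (gen F).coeff (FreeMonoid.of s) = F s := by
  classical
  rw [gen, coeff_sum, Finset.sum_apply', Finset.sum_eq_single_of_mem s (Finset.mem_univ s)]
  · rw [coeff_single, Finsupp.single_eq_same]
  · intro t _ ht
    rw [coeff_single, Finsupp.single_eq_of_ne]
    intro h
    exact ht (FreeMonoid.of_injective h).symm

theorem coeff_gen_pow [Fintype α] (F : α → R) (w : FreeMonoid α) :
    (gen F ^ w.length).coeff w = FreeMonoid.lift F w := by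
  induction w using FreeMonoid.recOn with
  | one => rw [FreeMonoid.length_one, pow_zero, coeff_one_one, map_one]
  | of_mul s w hw =>
    rw [FreeMonoid.length_mul, FreeMonoid.length_of, pow_add, pow_one,
      coeff_mul_hom (isHom_gen F) _ _ _ (FreeMonoid.length_of s), hw, coeff_gen, map_mul,
      FreeMonoid.lift_eval_of]

theorem pair_gen_pow [Fintype α] (F : α → R) {l : ℕ} {p : MonoidAlgebra k (FreeMonoid α)}
    (hp : IsHom l p) : pair p (gen F ^ l) = MonoidAlgebra.lift k R (FreeMonoid α) (FreeMonoid.lift F) p := by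
  refine hom_ind (P := fun p => pair p (gen F ^ l) =
    MonoidAlgebra.lift k R (FreeMonoid α) (FreeMonoid.lift F) p) ?_ ?_ ?_ p hp
  · rw [pair_zero_left, map_zero]
  · intro w r hw
    subst hw
    rw [pair_single, coeff_gen_pow, MonoidAlgebra.lift_single]
  · intro x y hx hy
    rw [pair_add_left, hx, hy, map_add]

end Window

end Pool.Agent.W412
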