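import Mathlib
import Pool.Agent.W412.Window
import Pool.Agent.W412.LemL

/-!
The recursive construction.
-/

set_option autoImplicit false

namespace Pool.Agent.W412

open MonoidAlgebra Polynomial

/-- words in four letters -/
abbrev Wd : Type := FreeMonoid (Fin 4)

/-- the rational monoid algebra -/
abbrev QW : Type := MonoidAlgebra ℚ Wd

/-- test data -/
abbrev Ms : Type := Σ n : ℕ, Fin 4 → Matrix (Fin n) (Fin n) E

instance : Countable ℚ[X] := by
  have : Function.Injective (fun p : ℚ[X] => (p.toFinsupp.coeff : ℕ →₀ ℚ)) := by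
    intro p q h
    apply Polynomial.toFinsupp_injective
    exact AddMonoidAlgebra.coeff_injective h
  exact this.countable

instance : Countable E := (cf_inj ℚ ℚ[X] eul eul_mul).countable

instance (n : ℕ) : Countable (Matrix (Fin n) (Fin n) E) :=
  inferInstanceAs (Countable (Fin n → Fin n → E))

instance : Countable Ms := inferInstance

instance : Nonempty Ms := ⟨⟨0, fun _ => 0⟩⟩

/-- an enumeration of the test data -/
noncomputable def enum : ℕ → Ms := Classical.choose (exists_surjective_nat Ms)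

theorem enum_surj : Function.Surjective enum := Classical.choose_spec (exists_surjective_nat Ms)

/-- evaluation -/
noncomputable def evF {R : Type} [Ring R] [Algebra ℚ R] (F : Fin 4 → R) : QW →ₐ[ℚ] R :=
  MonoidAlgebra.lift ℚ R Wd (FreeMonoid.lift F)

/-- the degree of the chosen relation -/
noncomputable def gN (x : Ms) (P : Fin 3 → QW) : ℕ :=
  Classical.choose (lemmaL x.1 (fun i => evF x.2 (P i)))

theorem gN_pos (x : Ms) (P : Fin 3 → QW) : 1 ≤ gN x P :=
  (Classical.choose_spec (lemmaL x.1 (fun i => evF x.2 (P i)))).1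

/-- the chosen relation -/
noncomputable def gG (x : Ms) (P : Fin 3 → QW) : Fr ℚ :=
  Classical.choose (Classical.choose_spec (lemmaL x.1 (fun i => evF x.2 (P i)))).2

theorem gG_spec (x : Ms) (P : Fin 3 → QW) : gG x P ∈ V ℚ ^ gN x P ∧
    FreeAlgebra.lift ℚ (fun i => evF x.2 (P i)) (gG x P) = 0 ∧ ab ℚ (gG x P) ≠ 0 :=
  Classical.choose_spec (Classical.choose_spec (lemmaL x.1 (fun i => evF x.2 (P i)))).2

/-- a letter -/
abbrev lt (i : Fin 4) : Wd := FreeMonoid.of i

/-- the sequence of triples -/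
noncomputable def seq : ℕ → Fin 3 → QW
  | 0 => ![single (lt 2 * lt 3) 1, single (lt 0 * lt 0) 1, single (lt 0 * lt 1) 1]
  | t + 1 => fun i => FreeAlgebra.lift ℚ (seq t) (gG (enum t) (seq t)) * seq t i

/-- their degrees -/
noncomputable def seqL : ℕ → ℕ
  | 0 => 2
  | t + 1 => (gN (enum t) (seq t) + 1) * seqL t

theorem seqL_pos (t : ℕ) : 1 ≤ seqL t := by
  induction t with
  | zero => simp [seqL]
  | succ t ih =>
    rw [seqL]
    exact Nat.mul_pos (by omega) ih

theorem seqL_lt (t : ℕ) : seqL t < seqL (t + 1) := by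
  rw [seqL]
  have h1 := seqL_pos t
  have h2 := gN_pos (enum t) (seq t)
  nlinarith

theorem seqL_mono : StrictMono seqL := strictMono_nat_of_lt_succ seqL_lt

/-- the span of the three elements -/
noncomputable def Us (t : ℕ) : Submodule ℚ QW := Submodule.span ℚ (Set.range (seq t))

theorem seq_mem (t : ℕ) (i : Fin 3) : seq t i ∈ Us t := Submodule.subset_span ⟨i, rfl⟩

theorem lift_mem (t N : ℕ) (γ : Fr ℚ) (hγ : γ ∈ V ℚ ^ N) :
    FreeAlgebra.lift ℚ (seq t) γ ∈ Us t ^ N := by
  have h1 : Submodule.map (FreeAlgebra.lift ℚ (seq t)).toLinearMap (V ℚ) ≤ Us t := by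
    rw [V, Submodule.map_span, Submodule.span_le]
    rintro _ ⟨_, ⟨i, rfl⟩, rfl⟩
    simp only [AlgHom.toLinearMap_apply, FreeAlgebra.lift_ι_apply]
    exact seq_mem t i
  have h2 : FreeAlgebra.lift ℚ (seq t) γ ∈
      Submodule.map (FreeAlgebra.lift ℚ (seq t)).toLinearMap (V ℚ ^ N) := ⟨γ, hγ, rfl⟩
  rw [Submodule.map_pow] at h2
  exact pow_le_pow_left' h1 N h2

theorem Us_succ (t : ℕ) : Us (t + 1) ≤ Us t ^ (gN (enum t) (seq t) + 1) := by
  rw [Us, Submodule.span_le]
  rintro _ ⟨i, rfl⟩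
  rw [seq, pow_succ]
  exact Submodule.mul_mem_mul (lift_mem t _ _ (gG_spec _ _).1) (seq_mem t i)

theorem Us_le (t T : ℕ) (h : t ≤ T) : ∃ m, Us T ≤ Us t ^ m := by
  induction T, h using Nat.le_induction with
  | base => exact ⟨1, by rw [pow_one]⟩
  | succ T _ ih =>
    obtain ⟨m, hm⟩ := ih
    refine ⟨m * (gN (enum T) (seq T) + 1), (Us_succ T).trans ?_⟩
    rw [pow_mul]
    exact pow_le_pow_left' hm _

theorem Us_hom (t : ℕ) : Us t ≤ homS ℚ (Fin 4) (seqL t) := by
  induction t with
  | zero =>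
    rw [Us, Submodule.span_le]
    rintro _ ⟨i, rfl⟩
    fin_cases i <;> exact isHom_single _ _
  | succ t ih =>
    refine (Us_succ t).trans ((homS_pow ih _).trans (le_of_eq ?_))
    rw [seqL]

theorem seq_kill (t : ℕ) (i : Fin 3) : evF (enum t).2 (seq (t + 1) i) = 0 := by
  rw [seq, map_mul]
  have h1 : evF (enum t).2 (FreeAlgebra.lift ℚ (seq t) (gG (enum t) (seq t))) =
      FreeAlgebra.lift ℚ (fun i => evF (enum t).2 (seq t i)) (gG (enum t) (seq t)) := by
    have : (evF (enum t).2).comp (FreeAlgebra.lift ℚ (seq t)) =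
        FreeAlgebra.lift ℚ (fun i => evF (enum t).2 (seq t i)) := by
      apply FreeAlgebra.hom_ext
      funext i
      simp
    rw [← this]
    rfl
  rw [h1, (gG_spec _ _).2.1, zero_mul]

theorem Us_kill (t : ℕ) (q : QW) (hq : q ∈ Us (t + 1)) : evF (enum t).2 q = 0 := by
  rw [Us] at hq
  refine Submodule.span_induction ?_ ?_ ?_ ?_ hq
  · rintro _ ⟨i, rfl⟩
    exact seq_kill t i
  · rw [map_zero]
  · intro x y _ _ hx hy
    rw [map_add, hx, hy, add_zero]
  · intro a x _ hx
    rw [map_smul, hx, smul_zero]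

/-- the family defining the ideal -/
noncomputable def AT (T : ℕ) : QW := seq T 0

theorem AT_hom (T : ℕ) : IsHom (seqL T) (AT T) := Us_hom T (seq_mem T 0)

theorem nilp (t : ℕ) : memJ AT (gen (enum t).2 ^ (2 * seqL (t + 1))) := by
  apply memJ_of_words
  intro T u v r s
  have hY := isHom_single u r
  have hZ := isHom_single v s
  rcases lt_or_ge T (t + 1) with hT | hT
  · have h1 : seqL T < seqL (t + 1) := seqL_mono hT
    have hG := (isHom_gen (enum t).2).pow (2 * seqL (t + 1))
    refine pair_deg ?_ (AT_hom T) ((hY.mul hG).mul hZ)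
    omega
  · obtain ⟨m, hm⟩ := Us_le (t + 1) T hT
    refine window (Us_hom (t + 1)) (seqL_pos (t + 1)) (isHom_gen (enum t).2) ?_
      (hm (seq_mem T 0)) hY hZ
    intro q hq
    rw [pair_gen_pow _ (Us_hom (t + 1) hq)]
    exact Us_kill t q hq

theorem nilp' (n : ℕ) (F : Fin 4 → Matrix (Fin n) (Fin n) E) : ∃ K, memJ AT (gen F ^ K) := by
  obtain ⟨t, ht⟩ := enum_surj ⟨n, F⟩
  have := nilp t
  rw [ht] at this
  exact ⟨_, this⟩

end Pool.Agent.W412
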