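import Mathlib
import Pool.Agent.W412.Seq

/-!
The element `β` is not nilpotent modulo the ideal.
-/

set_option autoImplicit false

namespace Pool.Agent.W412

open MonoidAlgebra Polynomial

/-- the base ring -/
abbrev R0 : Type := MonoidAlgebra ℚ[X] Wd

/-- the element `β` -/
noncomputable def beta : R0 :=
  single (lt 0) 1 + single (lt 1) X + single (lt 2 * lt 3) 1

/-- the matrices -/
noncomputable def F0 : Fin 4 → Matrix (Fin 2) (Fin 2) ℚ[X][X] :=
  ![!![X, 0; 0, 0], !![X * C X, 0; 0, 0], !![0, X; 0, 0], !![0, 0; 1, 0]]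

section Coeff

variable {α : Type} {R : Type} [Ring R]

theorem csw (s : α) (r : R) (Y : MonoidAlgebra R (FreeMonoid α)) (w : FreeMonoid α) :
    (single (FreeMonoid.of s) r * Y).coeff (FreeMonoid.of s * w) = r * Y.coeff w :=
  coeff_single_mul_mul Y r _ _

theorem csw_ne {s t : α} (h : s ≠ t) (r : R) (Y : MonoidAlgebra R (FreeMonoid α))
    (w : FreeMonoid α) : (single (FreeMonoid.of s) r * Y).coeff (FreeMonoid.of t * w) = 0 := by
  apply coeff_single_mul_of_forall_mul_ne
  intro d hd
  have h' : s :: FreeMonoid.toList d = t :: FreeMonoid.toList w := hd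
  exact h (List.cons.inj h').1

theorem csw_one (s : α) (r : R) (Y : MonoidAlgebra R (FreeMonoid α)) :
    (single (FreeMonoid.of s) r * Y).coeff 1 = 0 := by
  apply coeff_single_mul_of_forall_mul_ne
  intro d hd
  have h' : s :: FreeMonoid.toList d = [] := hd
  exact List.cons_ne_nil _ _ h'

end Coeff

theorem beta_mul (Y : R0) : beta * Y = single (lt 0) 1 * Y + single (lt 1) X * Y +
    single (lt 2) 1 * (single (lt 3) 1 * Y) := by
  rw [beta, add_mul, add_mul, ← mul_assoc (single (lt 2) 1), single_mul_single, one_mul]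

theorem cone (s : Fin 4) (w : Wd) : ((1 : R0).coeff (lt s * w)) = 0 := by
  classical
  rw [one_def, coeff_single, Finsupp.single_apply, if_neg]
  intro h
  have h' : [] = s :: FreeMonoid.toList w := h
  exact List.cons_ne_nil _ _ h'.symm

theorem gen_claim (w : Wd) : ∀ m, ((FreeMonoid.lift F0 w) 0 0).coeff m = (beta ^ m).coeff w ∧
    ((FreeMonoid.lift F0 w) 1 0).coeff m = (single (lt 3) 1 * beta ^ m : R0).coeff w := by
  induction w using FreeMonoid.recOn with
  | one =>
    intro m
    rw [map_one]
    constructor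
    · rw [Matrix.one_apply_eq]
      cases m with
      | zero => rw [pow_zero, coeff_one_one, Polynomial.coeff_one_zero]
      | succ m =>
        rw [pow_succ', beta_mul, MonoidAlgebra.coeff_add, MonoidAlgebra.coeff_add, Finsupp.add_apply, Finsupp.add_apply,
          csw_one, csw_one, csw_one, Polynomial.coeff_one]
        simp
    · rw [Matrix.one_apply_ne (by decide), csw_one, Polynomial.coeff_zero]
  | of_mul s w ih =>
    intro m
    rw [map_mul, FreeMonoid.lift_eval_of, Matrix.mul_apply, Matrix.mul_apply, Fin.sum_univ_two,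
      Fin.sum_univ_two]
    have hs : s = 0 ∨ s = 1 ∨ s = 2 ∨ s = 3 := by fin_cases s <;> simp
    rcases hs with rfl | rfl | rfl | rfl
    · constructor
      · cases m with
        | zero => 
          rw [pow_zero, cone]
          simp [F0]
        | succ m =>
          rw [pow_succ', beta_mul, MonoidAlgebra.coeff_add, MonoidAlgebra.coeff_add, Finsupp.add_apply, Finsupp.add_apply,
            csw, csw_ne (by decide), csw_ne (by decide), ← (ih m).1]
          simp [F0]
      · rw [csw_ne (by decide)]
        simp [F0]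
    · constructor
      · cases m with
        | zero => 
          rw [pow_zero, cone]
          simp [F0]
        | succ m =>
          rw [pow_succ', beta_mul, MonoidAlgebra.coeff_add, MonoidAlgebra.coeff_add, Finsupp.add_apply, Finsupp.add_apply,
            csw, csw_ne (by decide), csw_ne (by decide), ← (ih m).1]
          simp [F0, mul_assoc]
      · rw [csw_ne (by decide)]
        simp [F0]
    · constructor
      · cases m with
        | zero => 
          rw [pow_zero, cone]
          simp [F0]
        | succ m =>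
          rw [pow_succ', beta_mul, MonoidAlgebra.coeff_add, MonoidAlgebra.coeff_add, Finsupp.add_apply, Finsupp.add_apply,
            csw, csw_ne (by decide), csw_ne (by decide), ← (ih m).2]
          simp [F0]
      · rw [csw_ne (by decide)]
        simp [F0]
    · constructor
      · cases m with
        | zero => 
          rw [pow_zero, cone]
          simp [F0]
        | succ m =>
          rw [pow_succ', beta_mul, MonoidAlgebra.coeff_add, MonoidAlgebra.coeff_add, Finsupp.add_apply, Finsupp.add_apply,
            csw_ne (by decide), csw_ne (by decide), csw_ne (by decide)]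
          simp [F0]
      · rw [csw, ← (ih m).1]
        simp [F0]

theorem evF_coeff (p : QW) (m : ℕ) : ((evF F0 p) 0 0).coeff m = pair p (beta ^ m) := by
  induction p using MonoidAlgebra.induction_linear with
  | zero => rw [map_zero, pair_zero_left, Matrix.zero_apply, Polynomial.coeff_zero]
  | add f g hf hg =>
    rw [map_add, pair_add_left, Matrix.add_apply, Polynomial.coeff_add, hf, hg]
  | single w r =>
    rw [evF, MonoidAlgebra.lift_single, pair_single, Matrix.smul_apply, Polynomial.coeff_smul,
      (gen_claim w m).1]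

/-- the idempotent -/
noncomputable def e11 : Matrix (Fin 2) (Fin 2) ℚ[X][X] := !![1, 0; 0, 0]

theorem lift_idem (cs : Fin 3 → ℚ[X][X]) (γ : Fr ℚ) :
    FreeAlgebra.lift ℚ (fun i => cs i • e11) γ * e11 =
      (MvPolynomial.aeval cs (ab ℚ γ)) • e11 := by
  have he : e11 * e11 = e11 := by
    rw [e11]; ext i j; fin_cases i <;> fin_cases j <;> simp
  induction γ using FreeAlgebra.induction with
  | grade0 r =>
    rw [AlgHom.commutes, AlgHom.commutes, AlgHom.commutes, Algebra.algebraMap_eq_smul_one,
      Algebra.algebraMap_eq_smul_one, smul_mul_assoc, one_mul, smul_assoc, one_smul]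
  | grade1 i =>
    rw [FreeAlgebra.lift_ι_apply, ab_ι, MvPolynomial.aeval_X, smul_mul_assoc, he]
  | mul a b ha hb =>
    rw [map_mul, map_mul, map_mul, mul_assoc, hb, mul_smul_comm, ha, smul_smul, mul_comm]
  | add a b ha hb =>
    rw [map_add, map_add, map_add, add_mul, ha, hb, add_smul]

theorem ab_homog {N : ℕ} {γ : Fr ℚ} (hγ : γ ∈ V ℚ ^ N) : (ab ℚ γ).IsHomogeneous N := by
  induction N generalizing γ with
  | zero =>
    rw [pow_zero] at hγ
    obtain ⟨r, rfl⟩ := Submodule.mem_one.mp hγ
    rw [AlgHom.commutes]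
    exact MvPolynomial.isHomogeneous_C _ r
  | succ N ih =>
    rw [pow_succ] at hγ
    refine Submodule.mul_induction_on hγ ?_ ?_
    · intro m hm n hn
      rw [map_mul]
      refine (ih hm).mul ?_
      refine Submodule.span_induction ?_ ?_ ?_ ?_ hn
      · rintro _ ⟨i, rfl⟩
        rw [ab_ι]
        exact MvPolynomial.isHomogeneous_X _ i
      · rw [map_zero]; exact MvPolynomial.isHomogeneous_zero _ _ _
      · intro x y _ _ hx hy
        rw [map_add]; exact hx.add hy
      · intro a x _ hx
        rw [map_smul, MvPolynomial.smul_eq_C_mul]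
        exact hx.C_mul a
    · intro x y hx hy
      rw [map_add]; exact hx.add hy

theorem aeval_scale (α : ℚ[X][X]) (cs : Fin 3 → ℚ[X][X]) {N : ℕ} {q : MvPolynomial (Fin 3) ℚ}
    (hq : q.IsHomogeneous N) :
    MvPolynomial.aeval (fun i => α * cs i) q = α ^ N * MvPolynomial.aeval cs q := by
  rw [MvPolynomial.aeval_def, MvPolynomial.aeval_def, MvPolynomial.eval₂_eq', MvPolynomial.eval₂_eq',
    Finset.mul_sum]
  refine Finset.sum_congr rfl fun d hd => ?_
  have h1 : d 0 + d 1 + d 2 = N := by
    have h2 : d.degree = N := by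
      by_contra h
      exact (MvPolynomial.mem_support_iff.mp hd) (hq.coeff_eq_zero h)
    rw [← h2, Finsupp.degree_eq_sum, Fin.sum_univ_three]
  rw [Fin.prod_univ_three, Fin.prod_univ_three, mul_pow, mul_pow, mul_pow, ← h1]
  ring

/-- the specialisation -/
noncomputable def cs0 : Fin 3 → ℚ[X][X] := ![1, X, X * C X]

theorem spec_ne {N : ℕ} {q : MvPolynomial (Fin 3) ℚ} (hq : q.IsHomogeneous N) (hq0 : q ≠ 0) :
    MvPolynomial.aeval cs0 q ≠ 0 := by
  classical
  obtain ⟨d, hd⟩ := MvPolynomial.ne_zero_iff.mp hq0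
  have hdeg : ∀ d : Fin 3 →₀ ℕ, q.coeff d ≠ 0 → d 0 + d 1 + d 2 = N := by
    intro d hd
    have h2 : d.degree = N := by
      by_contra h
      exact hd (hq.coeff_eq_zero h)
    rw [← h2, Finsupp.degree_eq_sum, Fin.sum_univ_three]
  have hmon : ∀ e : Fin 3 →₀ ℕ, ∀ a b, (((algebraMap ℚ ℚ[X][X] (q.coeff e) *
      ∏ i, cs0 i ^ e i)).coeff a).coeff b = if a = e 1 + e 2 ∧ b = e 2 then q.coeff e else 0 := by
    intro e a b
    have h1 : (algebraMap ℚ ℚ[X][X] (q.coeff e) * ∏ i, cs0 i ^ e i) =
        C (C (q.coeff e) * X ^ e 2) * X ^ (e 1 + e 2) := by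
      rw [Fin.prod_univ_three]
      simp only [cs0, Matrix.cons_val_zero, Matrix.cons_val_one, Matrix.cons_val, one_pow, one_mul,
        mul_pow, map_mul, map_pow]
      rw [pow_add]
      have : algebraMap ℚ ℚ[X][X] (q.coeff e) = C (C (q.coeff e)) := rfl
      rw [this]
      ring
    rw [h1, Polynomial.coeff_C_mul, Polynomial.coeff_X_pow]
    by_cases ha : a = e 1 + e 2
    · rw [if_pos ha, mul_one, Polynomial.coeff_C_mul, Polynomial.coeff_X_pow]
      by_cases hb : b = e 2
      · rw [if_pos hb, if_pos ⟨ha, hb⟩, mul_one]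
      · rw [if_neg hb, if_neg (fun h => hb h.2), mul_zero]
    · rw [if_neg ha, if_neg (fun h => ha h.1), mul_zero, Polynomial.coeff_zero]
  intro h0
  have h1 := congrArg (fun z : ℚ[X][X] => (z.coeff (d 1 + d 2)).coeff (d 2)) h0
  rw [MvPolynomial.aeval_def, MvPolynomial.eval₂_eq'] at h1
  simp only [Polynomial.finsetSum_coeff, Polynomial.coeff_zero] at h1
  rw [Finset.sum_eq_single_of_mem d (MvPolynomial.mem_support_iff.mpr hd)] at h1
  · rw [hmon, if_pos ⟨rfl, rfl⟩] at h1
    exact hd h1
  · intro e he hne
    rw [hmon, if_neg]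
    rintro ⟨h2, h3⟩
    apply hne
    have h4 := hdeg d hd
    have h5 := hdeg e (MvPolynomial.mem_support_iff.mp he)
    ext i
    fin_cases i
    · change e 0 = d 0
      omega
    · change e 1 = d 1
      omega
    · change e 2 = d 2
      omega

theorem seq_eval (t : ℕ) : ∃ α : ℚ[X][X], α ≠ 0 ∧ ∀ i, evF F0 (seq t i) = (α * cs0 i) • e11 := by
  induction t with
  | zero =>
    refine ⟨X, X_ne_zero, fun i => ?_⟩
    have hi : i = 0 ∨ i = 1 ∨ i = 2 := by fin_cases i <;> simp
    rcases hi with rfl | rfl | rfl
    · simp only [seq, cs0, Matrix.cons_val_zero, evF, MonoidAlgebra.lift_single, map_mul,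
        FreeMonoid.lift_eval_of, one_smul, F0, Matrix.cons_val]
      ext i j : 2
      fin_cases i <;> fin_cases j <;> simp [e11]
    · simp only [seq, cs0, Matrix.cons_val_zero, Matrix.cons_val_one, evF,
        MonoidAlgebra.lift_single, map_mul, FreeMonoid.lift_eval_of, one_smul, F0, Matrix.cons_val]
      ext i j : 2
      fin_cases i <;> fin_cases j <;> simp [e11]
    · simp only [seq, cs0, Matrix.cons_val_zero, Matrix.cons_val_one, evF,
        MonoidAlgebra.lift_single, map_mul, FreeMonoid.lift_eval_of, one_smul, F0, Matrix.cons_val]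
      ext i j : 2
      fin_cases i <;> fin_cases j <;> simp [e11]
  | succ t ih =>
    obtain ⟨α, hα, hi⟩ := ih
    obtain ⟨hγ, -, hab⟩ := gG_spec (enum t) (seq t)
    set γ := gG (enum t) (seq t) with hγdef
    set N := gN (enum t) (seq t)
    refine ⟨α * (α ^ N * MvPolynomial.aeval cs0 (ab ℚ γ)),
      mul_ne_zero hα (mul_ne_zero (pow_ne_zero _ hα) (spec_ne (ab_homog hγ) hab)), fun i => ?_⟩
    have h1 : evF F0 (FreeAlgebra.lift ℚ (seq t) γ) =
        FreeAlgebra.lift ℚ (fun i => (α * cs0 i) • e11) γ := by
      have : (evF F0).comp (FreeAlgebra.lift ℚ (seq t)) =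
          FreeAlgebra.lift ℚ (fun i => (α * cs0 i) • e11) := by
        apply FreeAlgebra.hom_ext
        funext i
        simp [hi]
      rw [← this]
      rfl
    rw [seq, map_mul, h1, hi, mul_smul_comm, lift_idem, aeval_scale _ _ (ab_homog hγ), smul_smul]
    congr 1
    ring

theorem beta_hom_lt (m : ℕ) (w : Wd) (h : (beta ^ m).coeff w ≠ 0) : w.length ≤ 2 * m := by
  classical
  induction m generalizing w with
  | zero =>
    rw [pow_zero, one_def, coeff_single, Finsupp.single_apply] at h
    by_cases h1 : 1 = w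
    · rw [← h1]; simp
    · rw [if_neg h1] at h; exact absurd rfl h
  | succ m ih =>
    by_contra hcon
    apply h
    rw [pow_succ', MonoidAlgebra.coeff_mul]
    refine Finset.sum_eq_zero fun m₁ h₁ => Finset.sum_eq_zero fun m₂ h₂ => ?_
    beta_reduce
    rw [if_neg]
    intro hw
    have h3 := ih m₂ (Finsupp.mem_support_iff.mp h₂)
    have h4 : m₁.length ≤ 2 := by
      have h5 : beta.coeff m₁ ≠ 0 := Finsupp.mem_support_iff.mp h₁
      by_contra h6
      apply h5
      rw [beta, MonoidAlgebra.coeff_add, MonoidAlgebra.coeff_add, Finsupp.add_apply,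
        Finsupp.add_apply, coeff_single, coeff_single, coeff_single, Finsupp.single_apply,
        Finsupp.single_apply, Finsupp.single_apply, if_neg, if_neg, if_neg, add_zero, add_zero]
      · rintro rfl; exact h6 (by simp)
      · rintro rfl; exact h6 (by simp)
      · rintro rfl; exact h6 (by simp)
    apply hcon
    rw [← hw, FreeMonoid.length_mul]
    omega

theorem beta_not_nilp (m : ℕ) : ¬ memJ AT (beta ^ m) := by
  intro h
  obtain ⟨T, hT⟩ : ∃ T, 2 * m < seqL T := by
    refine ⟨2 * m + 1, ?_⟩
    exact lt_of_lt_of_le (Nat.lt_succ_self _) (seqL_mono.id_le _)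
  obtain ⟨α, hα, hi⟩ := seq_eval T
  apply hα
  have h1 : (evF F0 (AT T)) 0 0 = α := by
    rw [AT, hi, Matrix.smul_apply, e11, cs0]
    simp
  rw [← h1]
  ext1 m'
  rw [evF_coeff, Polynomial.coeff_zero]
  rcases lt_or_ge m' m with hm | hm
  · rw [pair]
    refine Finset.sum_eq_zero fun w hw => ?_
    have h2 := AT_hom T w (Finsupp.mem_support_iff.mp hw)
    have h3 : (beta ^ m').coeff w = 0 := by
      by_contra h4
      have := beta_hom_lt m' w h4
      omega
    beta_reduce
    rw [h3, smul_zero]
  · obtain ⟨j, rfl⟩ := Nat.exists_eq_add_of_le hm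
    have h2 := h T 1 (beta ^ j)
    rwa [one_mul, ← pow_add] at h2

end Pool.Agent.W412
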