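import Mathlib

/-!
The rational closure argument.
-/

set_option autoImplicit false

namespace Pool.Agent.W412

section Q

variable {S : Type} [Ring S] (Xs : AddSubgroup S)

/-- elements given by linear systems over `Xs` -/
def Qp (g : S) : Prop :=
  ∃ (ι : Type) (_ : Fintype ι) (F : Matrix ι ι S) (α c : ι → S) (x₀ : S) (v : ι → S),
    (∀ i j, F i j ∈ Xs) ∧ (∀ i, α i ∈ Xs) ∧ (∀ i, c i ∈ Xs) ∧ x₀ ∈ Xs ∧
    (∀ i, v i = ∑ j, F i j * v j + c i) ∧ g = ∑ i, α i * v i + x₀

variable {Xs}

theorem Qp_base {x : S} (hx : x ∈ Xs) : Qp Xs x :=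
  ⟨Empty, inferInstance, 0, Empty.elim, Empty.elim, x, Empty.elim, fun i => i.elim, fun i => i.elim,
    fun i => i.elim, hx, fun i => i.elim, by simp⟩

theorem Qp.add {g g' : S} (h : Qp Xs g) (h' : Qp Xs g') : Qp Xs (g + g') := by
  obtain ⟨ι, _, F, α, c, x₀, v, h1, h2, h3, h4, h5, rfl⟩ := h
  obtain ⟨ι', _, F', α', c', x₀', v', h1', h2', h3', h4', h5', rfl⟩ := h'
  refine ⟨ι ⊕ ι', inferInstance, Matrix.fromBlocks F 0 0 F', Sum.elim α α', Sum.elim c c', x₀ + x₀',
    Sum.elim v v', ?_, ?_, ?_, Xs.add_mem h4 h4', ?_, ?_⟩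
  · rintro (i | i) (j | j)
    · exact h1 i j
    · exact Xs.zero_mem
    · exact Xs.zero_mem
    · exact h1' i j
  · rintro (i | i)
    · exact h2 i
    · exact h2' i
  · rintro (i | i)
    · exact h3 i
    · exact h3' i
  · rintro (i | i)
    · simp [h5 i]
    · simp [h5' i]
  · simp only [Fintype.sum_sum_type, Sum.elim_inl, Sum.elim_inr]
    abel

theorem Qp.mul_left {g h : S} (hg : Qp Xs g) (hh : h ∈ Xs) : Qp Xs (h * g) := by
  obtain ⟨ι, _, F, α, c, x₀, v, h1, h2, h3, h4, h5, rfl⟩ := hg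
  refine ⟨ι ⊕ Unit, inferInstance, Matrix.fromBlocks F 0 (fun _ j => α j) 0,
    Sum.elim (fun _ => 0) (fun _ => h), Sum.elim c (fun _ => x₀), 0,
    Sum.elim v (fun _ => ∑ i, α i * v i + x₀), ?_, ?_, ?_, Xs.zero_mem, ?_, ?_⟩
  · rintro (i | i) (j | j)
    · exact h1 i j
    · exact Xs.zero_mem
    · exact h2 j
    · exact Xs.zero_mem
  · rintro (i | i)
    · exact Xs.zero_mem
    · exact hh
  · rintro (i | i)
    · exact h3 i
    · exact h4
  · rintro (i | i)
    · simp [h5 i]
    · simp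
  · simp

theorem Qp.mul_left' {g p : S} (hg : Qp Xs g) (hp : ∀ x ∈ Xs, p * x ∈ Xs) : Qp Xs (p * g) := by
  obtain ⟨ι, _, F, α, c, x₀, v, h1, h2, h3, h4, h5, rfl⟩ := hg
  refine ⟨ι, inferInstance, F, fun i => p * α i, c, p * x₀, v, h1, fun i => hp _ (h2 i), h3,
    hp _ h4, h5, ?_⟩
  rw [mul_add, Finset.mul_sum]
  simp only [mul_assoc]

/-- the key invertibility statement -/
theorem Qp.inv {g : S} (hg : Qp Xs g)
    (hnil : ∀ (n : ℕ) (M : Matrix (Fin n) (Fin n) S), (∀ i j, M i j ∈ Xs) → ∃ K, M ^ K = 0) :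
    ∃ z, z * (1 - g) = 1 := by
  classical
  obtain ⟨ι, _, F, α, c, x₀, v, h1, h2, h3, h4, h5, rfl⟩ := hg
  let M : Matrix (Option ι) (Option ι) S := fun i j =>
    match i, j with
    | none, none => x₀
    | none, some j => α j
    | some i, none => c i
    | some i, some j => F i j
  let w : Option ι → S := fun i => match i with
    | none => 1
    | some i => v i
  have hM : ∀ i j, M i j ∈ Xs := by
    rintro (_ | i) (_ | j)
    · exact h4
    · exact h2 j
    · exact h3 i
    · exact h1 i j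
  let e := Fintype.equivFin (Option ι)
  obtain ⟨K, hK⟩ : ∃ K, M ^ K = 0 := by
    obtain ⟨K, hK⟩ := hnil _ (M.submatrix e.symm e.symm) (fun i j => hM _ _)
    refine ⟨K, ?_⟩
    have h6 : ∀ m, (M.submatrix e.symm e.symm) ^ m = (M ^ m).submatrix e.symm e.symm := by
      intro m
      induction m with
      | zero =>
        rw [pow_zero, pow_zero, Matrix.submatrix_one_equiv]
      | succ m ih =>
        rw [pow_succ, pow_succ, ih, Matrix.submatrix_mul_equiv]
    rw [h6] at hK
    ext i j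
    have := congrFun (congrFun hK (e i)) (e j)
    simpa using this
  set g := ∑ i, α i * v i + x₀ with hg
  -- `(1 - M) w` has entries in `S (1 - g)`
  have hw : ∀ i, w i - ∑ j, M i j * w j = if i = none then 1 - g else 0 := by
    rintro (_ | i)
    · rw [if_pos rfl, Fintype.sum_option]
      simp only [w, M, mul_one]
      rw [hg]; abel
    · rw [if_neg (Option.some_ne_none i), Fintype.sum_option]
      simp only [w, M, mul_one]
      rw [h5 i]; abel
  let Ug : Matrix (Option ι) (Option ι) S := ∑ i ∈ Finset.range K, M ^ i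
  have hU : Ug * (1 - M) = 1 := by
    have := geom_sum_mul_neg M K
    rw [hK, sub_zero] at this
    exact this
  refine ⟨Ug none none, ?_⟩
  have h7 : (Ug * (1 - M)).mulVec w none = Ug none none * (1 - g) := by
    rw [← Matrix.mulVec_mulVec]
    have h8 : (1 - M).mulVec w = fun i => if i = none then 1 - g else 0 := by
      funext i
      rw [Matrix.sub_mulVec, Matrix.one_mulVec, Pi.sub_apply]
      exact hw i
    rw [h8]
    change ∑ j, Ug none j * (if j = none then 1 - g else 0) = _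
    rw [Finset.sum_eq_single_of_mem none (Finset.mem_univ _)]
    · rw [if_pos rfl]
    · intro b _ hb
      rw [if_neg hb, mul_zero]
  rw [← h7, hU, Matrix.one_mulVec]

end Q

end Pool.Agent.W412
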