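import Mathlib

/-!
The upper nilradical modulo an ideal, and its stability under derivations.
-/

set_option autoImplicit false

namespace Pool.Agent.W412

section Deriv

variable {k : Type} [Field k] [CharZero k] {A : Type} [Ring A] [Algebra k A]

/-- a two-sided ideal as a subspace -/
def subI (k : Type) [Field k] {A : Type} [Ring A] [Algebra k A] (I : Ideal A) : Submodule k A :=
  I.restrictScalars k

/-- powers -/
def Pw (k : Type) [Field k] {A : Type} [Ring A] [Algebra k A] (I : Ideal A) : ℕ → Submodule k A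
  | 0 => ⊤
  | n + 1 => Pw k I n * subI k I

variable {I : Ideal A} [I.IsTwoSided]

omit [CharZero k] in
theorem Pw_mul (n : ℕ) {x : A} (hx : x ∈ Pw k I n) (y : A) : x * y ∈ Pw k I n := by
  induction n generalizing x y with
  | zero => trivial
  | succ n ih =>
    rw [Pw] at hx ⊢
    refine Submodule.mul_induction_on hx ?_ ?_
    · intro m hm l hl
      rw [mul_assoc]
      exact Submodule.mul_mem_mul hm (I.mul_mem_right y hl)
    · intro a b ha hb
      rw [add_mul]; exact Submodule.add_mem _ ha hb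

omit [CharZero k] [I.IsTwoSided] in
theorem Pw_one {n : ℕ} {x : A} (hx : x ∈ Pw k I (n + 1)) : x ∈ I := by
  rw [Pw] at hx
  refine Submodule.mul_induction_on hx ?_ ?_
  · intro m _ l hl
    exact I.mul_mem_left m hl
  · intro a b ha hb
    exact I.add_mem ha hb

variable (d : A →ₗ[k] A) (hd : ∀ a b, d (a * b) = d a * b + a * d b)

include hd

omit [CharZero k] in
theorem d_Pw (n : ℕ) {x : A} (hx : x ∈ Pw k I (n + 1)) : d x ∈ Pw k I n := by
  induction n generalizing x with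
  | zero => trivial
  | succ n ih =>
    rw [Pw] at hx
    refine Submodule.mul_induction_on hx ?_ ?_
    · intro m hm l hl
      rw [hd]
      refine Submodule.add_mem _ ?_ (Pw_mul _ hm _)
      rw [Pw]
      exact Submodule.mul_mem_mul (ih hm) hl
    · intro a b ha hb
      rw [map_add]; exact Submodule.add_mem _ ha hb

omit [CharZero k] in
theorem d_pow_Pw (j n : ℕ) {x : A} (hx : x ∈ Pw k I (n + j)) : (d ^ j) x ∈ Pw k I n := by
  induction j generalizing n x with
  | zero => rw [pow_zero]; exact hx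
  | succ j ih =>
    rw [pow_succ', Module.End.mul_apply]
    apply d_Pw d hd
    apply ih
    rwa [add_assoc, add_comm 1 j]

omit [CharZero k] in
theorem lead_step (m r : ℕ) {x l : A} (hx : x ∈ Pw k I (m + r)) :
    (d ^ (m + 1)) (x * l) - (d ^ (m + 1)) x * l - ((m + 1 : ℕ) : A) * ((d ^ m) x * d l) ∈
      Pw k I (r + 1) := by
  induction m generalizing r with
  | zero =>
    have : (d ^ (0 + 1)) (x * l) - (d ^ (0 + 1)) x * l - ((0 + 1 : ℕ) : A) * ((d ^ 0) x * d l) = 0 := by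
      rw [zero_add, pow_one, pow_zero, hd, Nat.cast_one, one_mul, Module.End.one_apply]
      abel
    rw [this]
    exact Submodule.zero_mem _
  | succ m ih =>
    have h1 := ih (r + 1) (by rwa [show m + (r + 1) = m + 1 + r by ring])
    have h2 := d_Pw d hd _ h1
    have hnat : ∀ (n : ℕ) (z : A), d ((n : A) * z) = (n : A) * d z := by
      intro n z
      rw [← nsmul_eq_mul, map_nsmul, nsmul_eq_mul]
    rw [map_sub, map_sub, hnat, hd, hd] at h2
    have h3 : ((m + 1 : ℕ) : A) * ((d ^ m) x * d (d l)) ∈ Pw k I (r + 1) := by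
      have h4 : (d ^ m) x ∈ Pw k I (r + 1) := by
        apply d_pow_Pw d hd
        rwa [show r + 1 + m = m + 1 + r by ring]
      rw [← nsmul_eq_mul]
      exact nsmul_mem (Pw_mul _ h4 _) _
    have h5 := Submodule.add_mem _ h2 h3
    have h6 : ∀ z, (d ^ (m + 1 + 1)) z = d ((d ^ (m + 1)) z) := by
      intro z; rw [pow_succ', Module.End.mul_apply]
    have h7 : ∀ z, (d ^ (m + 1)) z = d ((d ^ m) z) := by
      intro z; rw [pow_succ', Module.End.mul_apply]
    rw [h6, h6]
    convert h5 using 1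
    rw [h7 x]
    push_cast
    noncomm_ring

omit [CharZero k] [I.IsTwoSided] hd in
theorem l_pow_Pw {l : A} (hl : l ∈ I) (n : ℕ) : l ^ n ∈ Pw k I n := by
  induction n with
  | zero => trivial
  | succ n ih =>
    rw [pow_succ, Pw]
    exact Submodule.mul_mem_mul ih hl

omit [CharZero k] in
theorem lead {l : A} (hl : l ∈ I) (n : ℕ) :
    (d ^ n) (l ^ n) - (n.factorial : A) * (d l) ^ n ∈ I := by
  induction n with
  | zero => simp
  | succ n ih =>
    have h1 := Pw_one (lead_step d hd n 0 (l := l) (l_pow_Pw (k := k) hl n))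
    have h2 : (d ^ (n + 1)) (l ^ n) * l ∈ I := I.mul_mem_left _ hl
    have h3 : ((n + 1 : ℕ) : A) * (((d ^ n) (l ^ n) - (n.factorial : A) * (d l) ^ n) * d l) ∈ I :=
      I.mul_mem_left _ (I.mul_mem_right _ ih)
    have h4 := I.add_mem (I.add_mem h1 h2) h3
    convert h4 using 1
    rw [pow_succ l, pow_succ (d l), Nat.factorial_succ]
    push_cast
    noncomm_ring

/-- the key fact -/
theorem dl_pow_mem {J : Ideal A} (hJ : ∀ x ∈ J, d x ∈ J) (hJI : J ≤ I) {l : A} (hl : l ∈ I) {n : ℕ}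
    (hn : l ^ n ∈ J) : (d l) ^ n ∈ I := by
  have h1 : ∀ j, (d ^ j) (l ^ n) ∈ J := by
    intro j
    induction j with
    | zero => rw [pow_zero]; exact hn
    | succ j ih => rw [pow_succ', Module.End.mul_apply]; exact hJ _ ih
  have h2 := I.sub_mem (hJI (h1 n)) (lead d hd hl n)
  rw [sub_sub_cancel] at h2
  have h3 := I.mul_mem_left (algebraMap k A ((n.factorial : k)⁻¹)) h2
  rw [← mul_assoc] at h3
  have h4 : algebraMap k A ((n.factorial : k)⁻¹) * (n.factorial : A) = 1 := by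
    rw [← map_natCast (algebraMap k A), ← map_mul, inv_mul_cancel₀, map_one]
    exact_mod_cast Nat.factorial_ne_zero n
  rwa [h4, one_mul] at h3

end Deriv

section Rad

variable {k : Type} [Field k] [CharZero k] {A : Type} [Ring A] [Algebra k A]

theorem add_pow_mem {A : Type} [Ring A] {I : Ideal A} [I.IsTwoSided] (a : A) {b : A} (hb : b ∈ I)
    (n : ℕ) : (a + b) ^ n - a ^ n ∈ I := by
  induction n with
  | zero => simp
  | succ n ih =>
    have h1 : (a + b) ^ (n + 1) - a ^ (n + 1) =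
        ((a + b) ^ n - a ^ n) * (a + b) + a ^ n * b := by
      rw [pow_succ, pow_succ]; noncomm_ring
    rw [h1]
    exact I.add_mem (I.mul_mem_right _ ih) (I.mul_mem_left _ hb)

/-- nil modulo `J` -/
def NilMod {A : Type} [Ring A] (J I : Ideal A) : Prop := ∀ x ∈ I, ∃ n, x ^ n ∈ J

/-- the upper nilradical modulo `J` -/
def N0 {A : Type} [Ring A] (J : Ideal A) [J.IsTwoSided] : Ideal A where
  carrier := {r | ∃ I : Ideal A, I.IsTwoSided ∧ J ≤ I ∧ NilMod J I ∧ r ∈ I}
  zero_mem' := ⟨J, inferInstance, le_rfl, fun x hx => ⟨1, by rwa [pow_one]⟩, J.zero_mem⟩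
  smul_mem' := by
    rintro c x ⟨I, h1, h2, h3, h4⟩
    exact ⟨I, h1, h2, h3, I.mul_mem_left c h4⟩
  add_mem' := by
    rintro a b ⟨I, h1, h2, h3, h4⟩ ⟨I', h1', h2', h3', h4'⟩
    refine ⟨I ⊔ I', ⟨?_⟩, h2.trans le_sup_left, ?_, Submodule.add_mem_sup h4 h4'⟩
    · intro x y hx
      obtain ⟨u, hu, v, hv, rfl⟩ := Submodule.mem_sup.mp hx
      rw [add_mul]
      exact Submodule.add_mem_sup (I.mul_mem_right y hu) (I'.mul_mem_right y hv)
    · intro x hx
      obtain ⟨u, hu, v, hv, rfl⟩ := Submodule.mem_sup.mp hx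
      obtain ⟨n, hn⟩ := h3 u hu
      have h5 := I'.add_mem (add_pow_mem u hv n) (h2' hn)
      rw [sub_add_cancel] at h5
      obtain ⟨m, hm⟩ := h3' _ h5
      exact ⟨n * m, by rwa [pow_mul]⟩

variable (J : Ideal A) [J.IsTwoSided]

omit [CharZero k] in
instance : (N0 J).IsTwoSided := ⟨by
  rintro a b ⟨I, h1, h2, h3, h4⟩
  exact ⟨I, h1, h2, h3, I.mul_mem_right b h4⟩⟩

theorem J_le_N0 {A : Type} [Ring A] (J : Ideal A) [J.IsTwoSided] : J ≤ N0 J := fun x hx =>
  ⟨J, inferInstance, le_rfl, fun x hx => ⟨1, by rwa [pow_one]⟩, hx⟩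

theorem N0_nil {A : Type} [Ring A] (J : Ideal A) [J.IsTwoSided] : NilMod J (N0 J) := by
  rintro x ⟨I, h1, h2, h3, h4⟩
  exact h3 x h4

theorem N0_max {A : Type} [Ring A] (J : Ideal A) [J.IsTwoSided] (I : Ideal A) [I.IsTwoSided]
    (h : NilMod J I) : I ≤ N0 J := by
  intro x hx
  refine ⟨I ⊔ J, ⟨?_⟩, le_sup_right, ?_, Submodule.mem_sup_left hx⟩
  · intro x y hx
    obtain ⟨u, hu, v, hv, rfl⟩ := Submodule.mem_sup.mp hx
    rw [add_mul]
    exact Submodule.add_mem_sup (I.mul_mem_right y hu) (J.mul_mem_right y hv)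
  · intro x hx
    obtain ⟨u, hu, v, hv, rfl⟩ := Submodule.mem_sup.mp hx
    obtain ⟨n, hn⟩ := h u hu
    have h5 := J.add_mem (add_pow_mem u hv n) hn
    rw [sub_add_cancel] at h5
    exact ⟨n, h5⟩

theorem d_N0 (d : A →ₗ[k] A) (hd : ∀ a b, d (a * b) = d a * b + a * d b)
    (hJ : ∀ x ∈ J, d x ∈ J) {x : A} (hx : x ∈ N0 J) : d x ∈ N0 J := by
  obtain ⟨I, h1, h2, h3, h4⟩ := hx
  let I' : Ideal A :=
    { carrier := {z | ∃ a ∈ I, ∃ b ∈ I, z = a + d b}
      zero_mem' := ⟨0, I.zero_mem, 0, I.zero_mem, by simp⟩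
      add_mem' := by
        rintro _ _ ⟨a, ha, b, hb, rfl⟩ ⟨a', ha', b', hb', rfl⟩
        exact ⟨a + a', I.add_mem ha ha', b + b', I.add_mem hb hb', by rw [map_add]; abel⟩
      smul_mem' := by
        rintro c _ ⟨a, ha, b, hb, rfl⟩
        refine ⟨c * a - d c * b, I.sub_mem (I.mul_mem_left _ ha) (I.mul_mem_left _ hb), c * b,
          I.mul_mem_left _ hb, ?_⟩
        rw [hd, smul_eq_mul, mul_add]; abel }
  have : I'.IsTwoSided := ⟨by
    rintro _ c ⟨a, ha, b, hb, rfl⟩
    refine ⟨a * c - b * d c, I.sub_mem (I.mul_mem_right _ ha) (I.mul_mem_right _ hb), b * c,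
      I.mul_mem_right _ hb, ?_⟩
    rw [hd, add_mul]; abel⟩
  apply N0_max J I' _ ⟨0, I.zero_mem, x, h4, by rw [zero_add]⟩
  rintro _ ⟨a, ha, b, hb, rfl⟩
  obtain ⟨n, hn⟩ := h3 b hb
  have h5 := dl_pow_mem d hd hJ h2 hb hn
  have h6 := I.add_mem (add_pow_mem (d b) ha n) h5
  rw [sub_add_cancel, add_comm] at h6
  obtain ⟨m, hm⟩ := h3 _ h6
  exact ⟨n * m, by rwa [pow_mul]⟩

/-- the quotient has no nonzero nil ideals -/
theorem quot_nonil {A : Type} [Ring A] (J : Ideal A) [J.IsTwoSided] (K : TwoSidedIdeal (A ⧸ N0 J))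
    (hK : ∀ x ∈ K, IsNilpotent x) : K = ⊥ := by
  let I : Ideal A :=
    { carrier := {r | Ideal.Quotient.mk (N0 J) r ∈ K}
      zero_mem' := by
        change Ideal.Quotient.mk (N0 J) 0 ∈ K
        rw [map_zero]; exact K.zero_mem
      add_mem' := by
        intro a b ha hb
        change Ideal.Quotient.mk (N0 J) (a + b) ∈ K
        rw [map_add]; exact K.add_mem ha hb
      smul_mem' := by
        intro c a ha
        change Ideal.Quotient.mk (N0 J) (c * a) ∈ K
        rw [map_mul]; exact K.mul_mem_left _ _ ha }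
  have : I.IsTwoSided := ⟨by
    intro a b ha
    change Ideal.Quotient.mk (N0 J) (a * b) ∈ K
    rw [map_mul]; exact K.mul_mem_right _ _ ha⟩
  have hI : I ≤ N0 J := by
    apply N0_max
    intro r hr
    obtain ⟨n, hn⟩ := hK _ hr
    rw [← map_pow, Ideal.Quotient.eq_zero_iff_mem] at hn
    obtain ⟨m, hm⟩ := N0_nil J _ hn
    exact ⟨n * m, by rwa [pow_mul]⟩
  rw [eq_bot_iff]
  intro x hx
  obtain ⟨r, rfl⟩ := Ideal.Quotient.mk_surjective x
  have : Ideal.Quotient.mk (N0 J) r = 0 := Ideal.Quotient.eq_zero_iff_mem.mpr (hI hx)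
  rw [this]
  exact TwoSidedIdeal.zero_mem _

/-- the induced derivation -/
noncomputable def dbar (d : A →ₗ[k] A) (h : ∀ x ∈ N0 J, d x ∈ N0 J) :
    (A ⧸ N0 J) →ₗ[k] (A ⧸ N0 J) where
  toFun := Quotient.map' d (by
    intro a b hab
    rw [Submodule.quotientRel_def] at hab ⊢
    rw [← map_sub]
    exact h _ hab)
  map_add' := by
    intro x y
    obtain ⟨a, rfl⟩ := Ideal.Quotient.mk_surjective x
    obtain ⟨b, rfl⟩ := Ideal.Quotient.mk_surjective y
    exact congrArg (Ideal.Quotient.mk (N0 J)) (map_add d a b)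
  map_smul' := by
    intro c x
    obtain ⟨a, rfl⟩ := Ideal.Quotient.mk_surjective x
    exact congrArg (Ideal.Quotient.mk (N0 J)) (map_smul d c a)

omit [CharZero k] in
theorem dbar_mk (d : A →ₗ[k] A) (h : ∀ x ∈ N0 J, d x ∈ N0 J) (a : A) :
    dbar J d h (Ideal.Quotient.mk (N0 J) a) = Ideal.Quotient.mk (N0 J) (d a) := rfl

omit [CharZero k] in
theorem dbar_mul (d : A →ₗ[k] A) (hd : ∀ a b, d (a * b) = d a * b + a * d b)
    (h : ∀ x ∈ N0 J, d x ∈ N0 J) (x y : A ⧸ N0 J) :
    dbar J d h (x * y) = dbar J d h x * y + x * dbar J d h y := by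
  obtain ⟨a, rfl⟩ := Ideal.Quotient.mk_surjective x
  obtain ⟨b, rfl⟩ := Ideal.Quotient.mk_surjective y
  rw [← map_mul, dbar_mk, dbar_mk, dbar_mk, hd, map_add, map_mul, map_mul]

end Rad

end Pool.Agent.W412
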