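import Mathlib
import Pool.Agent.W412.Beta
import Pool.Agent.W412.Nil
import Pool.Agent.W412.Jac

/-!
The final ring.
-/

set_option autoImplicit false

namespace Pool.Agent.W412

open MonoidAlgebra Polynomial

/-- the ideal -/
noncomputable def JC : Ideal R0 where
  carrier := {X | memJ AT X}
  zero_mem' := memJ_zero
  add_mem' := fun h h' => h.add h'
  smul_mem' := fun c _ h => h.mul_left c

theorem mem_JC (X : R0) : X ∈ JC ↔ memJ AT X := Iff.rfl

instance : JC.IsTwoSided := ⟨fun b h => memJ.mul_right h b⟩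

/-- the derivation -/
noncomputable def d0 : R0 →ₗ[ℚ] R0 where
  toFun := mapc eul
  map_add' := mapc_add eul
  map_smul' := by
    intro c X
    apply MonoidAlgebra.ext
    ext1 w
    change eul (c • X.coeff w) = c • eul (X.coeff w)
    rw [map_smul]

theorem d0_single (w : Wd) (p : ℚ[X]) : d0 (single w p) = single w (eul p) := mapc_single eul w p

theorem d0_mul (a b : R0) : d0 (a * b) = d0 a * b + a * d0 b := by
  induction a using MonoidAlgebra.induction_linear with
  | zero => rw [zero_mul, map_zero, zero_mul, zero_mul, add_zero]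
  | add f g hf hg => rw [add_mul, map_add, hf, hg, map_add, add_mul, add_mul]; abel
  | single u p =>
    induction b using MonoidAlgebra.induction_linear with
    | zero => rw [mul_zero, map_zero, mul_zero, mul_zero, add_zero]
    | add f g hf hg => rw [mul_add, map_add, hf, hg, map_add, mul_add, mul_add]; abel
    | single v q =>
      rw [single_mul_single, d0_single, d0_single, d0_single, single_mul_single,
        single_mul_single, eul_mul, single_add]

theorem d0_J (X : R0) (h : X ∈ JC) : d0 X ∈ JC := memJ.mapc eul h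

/-- the ring -/
abbrev Rb : Type := R0 ⧸ N0 JC

/-- projection -/
noncomputable abbrev mk : R0 →+* Rb := Ideal.Quotient.mk (N0 JC)

/-- its derivation -/
noncomputable def db : Rb →ₗ[ℚ] Rb := dbar JC d0 (fun _ hx => d_N0 JC d0 d0_mul d0_J hx)

theorem db_mk (X : R0) : db (mk X) = mk (d0 X) := rfl

theorem db_mul (a b : Rb) : db (a * b) = db a * b + a * db b := dbar_mul JC d0 d0_mul _ a b

/-- the Ore extension -/
noncomputable abbrev Sb : Type := OreS ℚ Rb db db_mul

noncomputable abbrev fS : Rb →ₐ[ℚ] Sb := fO ℚ Rb db db_mul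
noncomputable abbrev xS : Sb := xO ℚ Rb db db_mul

/-- the coefficient ring in `Sb` -/
noncomputable def gS : ℚ[X] →ₐ[ℚ] Sb :=
  fS.comp ((Ideal.Quotient.mkₐ ℚ (N0 JC)).comp (MonoidAlgebra.singleOneAlgHom (R := ℚ)))

theorem gS_apply (p : ℚ[X]) : gS p = fS (mk (single 1 p)) := rfl

theorem gS_rel (p : ℚ[X]) : xS * gS p = gS p * xS + gS (eul p) := by
  rw [gS_apply, xO_fO, db_mk, d0_single]
  rfl

/-- `E` in `Sb` -/
noncomputable def phE : E →ₐ[ℚ] Sb := liftO ℚ ℚ[X] eul eul_mul gS xS gS_rel

/-- words in `Sb` -/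
noncomputable def phW : Wd →* Sb where
  toFun w := fS (mk (single w 1))
  map_one' := by
    change fS (mk 1) = 1
    rw [map_one, map_one]
  map_mul' u v := by
    rw [← map_mul, ← map_mul, single_mul_single, one_mul]

theorem phW_apply (w : Wd) : phW w = fS (mk (single w 1)) := rfl

theorem ph_comm (s : E) (w : Wd) : Commute (phE s) (phW w) := by
  induction s using ore_ind with
  | hf r =>
    change phE (fO ℚ ℚ[X] eul eul_mul r) * phW w = phW w * phE (fO ℚ ℚ[X] eul eul_mul r)
    rw [phE, liftO_fO, gS_apply, phW_apply, ← map_mul, ← map_mul, ← map_mul, ← map_mul,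
      single_mul_single, single_mul_single, one_mul, mul_one, one_mul, mul_one]
  | hx =>
    change phE (xO ℚ ℚ[X] eul eul_mul) * phW w = phW w * phE (xO ℚ ℚ[X] eul eul_mul)
    rw [phE, liftO_xO, phW_apply, xO_fO, db_mk, d0_single, eul_apply, derivative_one, mul_zero,
      single_zero, map_zero, map_zero, add_zero]
  | hadd a b ha hb => rw [map_add]; exact ha.add_left hb
  | hmul a b ha hb => rw [map_mul]; exact ha.mul_left hb

/-- the component of `phW w * phE s` -/
theorem cf_ph (w : Wd) (s : E) (q : ℕ) : cf ℚ Rb db db_mul (phE s * phW w) q =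
    mk (single w (cf ℚ ℚ[X] eul eul_mul s q)) := by
  rw [(ph_comm s w).eq, phE, liftO_apply]
  generalize cf ℚ ℚ[X] eul eul_mul s = p
  induction p using Finsupp.induction_linear with
  | zero =>
    rw [map_zero, mul_zero, map_zero, Finsupp.zero_apply, Finsupp.zero_apply, single_zero,
      map_zero]
  | add f g hf hg =>
    rw [map_add, mul_add, map_add, Finsupp.add_apply, hf, hg, Finsupp.add_apply, single_add,
      map_add]
  | single m c =>
    classical
    rw [evT_single, phW_apply, gS_apply, ← mul_assoc, ← map_mul, ← map_mul, single_mul_single,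
      mul_one, one_mul, ← ofc_single, cf_ofc, Finsupp.single_apply, Finsupp.single_apply]
    by_cases h : m = q
    · rw [if_pos h, if_pos h]
    · rw [if_neg h, if_neg h, single_zero, map_zero]

section Mat

variable (n : ℕ)

/-- scalar matrices of words -/
noncomputable def scW : Wd →* Matrix (Fin n) (Fin n) Sb where
  toFun w := Matrix.diagonal (fun _ => phW w)
  map_one' := by
    rw [map_one]; exact Matrix.diagonal_one
  map_mul' u v := by
    rw [Matrix.diagonal_mul_diagonal, map_mul]

theorem Psi_comm (M : Matrix (Fin n) (Fin n) E) (w : Wd) :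
    Commute ((phE.mapMatrix : Matrix (Fin n) (Fin n) E →ₐ[ℚ] Matrix (Fin n) (Fin n) Sb) M)
      (scW n w) := by
  change phE.mapMatrix M * Matrix.diagonal (fun _ => phW w) =
    Matrix.diagonal (fun _ => phW w) * phE.mapMatrix M
  refine Matrix.ext fun i j => ?_
  rw [Matrix.mul_diagonal, Matrix.diagonal_mul]
  exact (ph_comm (M i j) w).eq

/-- the evaluation map -/
noncomputable def Psi : MonoidAlgebra (Matrix (Fin n) (Fin n) E) Wd →+* Matrix (Fin n) (Fin n) Sb :=
  MonoidAlgebra.liftNCRingHom (phE.mapMatrix : Matrix (Fin n) (Fin n) E →ₐ[ℚ] _).toRingHom (scW n)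
    (Psi_comm n)

theorem Psi_single (w : Wd) (M : Matrix (Fin n) (Fin n) E) (i j : Fin n) :
    Psi n (single w M) i j = phE (M i j) * phW w := by
  rw [Psi, MonoidAlgebra.liftNCRingHom_single]
  have h : (phE.mapMatrix M * Matrix.diagonal (fun _ => phW w) : Matrix (Fin n) (Fin n) Sb) i j =
      phE (M i j) * phW w := by
    rw [Matrix.mul_diagonal]
    rfl
  exact h

/-- coefficient functionals -/
noncomputable def kap (i j : Fin n) (q : ℕ) : Matrix (Fin n) (Fin n) E →ₗ[ℚ] ℚ[X] where
  toFun M := cf ℚ ℚ[X] eul eul_mul (M i j) q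
  map_add' M M' := by
    rw [Matrix.add_apply, map_add, Finsupp.add_apply]
  map_smul' c M := by
    rw [Matrix.smul_apply, map_smul, Finsupp.smul_apply]
    rfl

theorem Psi_cf (X : MonoidAlgebra (Matrix (Fin n) (Fin n) E) Wd) (i j : Fin n) (q : ℕ) :
    cf ℚ Rb db db_mul (Psi n X i j) q = mk (mapc (kap n i j q) X) := by
  induction X using MonoidAlgebra.induction_linear with
  | zero =>
    rw [map_zero, Matrix.zero_apply, map_zero, Finsupp.zero_apply, mapc_zero, map_zero]
  | add f g hf hg =>
    rw [map_add, Matrix.add_apply, map_add, Finsupp.add_apply, hf, hg, mapc_add, map_add]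
  | single w M =>
    rw [Psi_single, cf_ph, mapc_single]
    rfl

theorem Psi_zero (X : MonoidAlgebra (Matrix (Fin n) (Fin n) E) Wd) (hX : memJ AT X) :
    Psi n X = 0 := by
  apply Matrix.ext
  intro i j
  apply cf_inj ℚ Rb db db_mul
  rw [Matrix.zero_apply, map_zero]
  ext1 q
  rw [Psi_cf, Finsupp.zero_apply]
  apply Ideal.Quotient.eq_zero_iff_mem.mpr
  apply J_le_N0
  exact memJ.mapc (kap n i j q) hX

end Mat

/-- the linear forms -/
noncomputable def Xs : AddSubgroup Sb where
  carrier := {x | ∃ c : Fin 4 → E, x = ∑ s, phE (c s) * phW (lt s)}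
  zero_mem' := ⟨0, by simp⟩
  add_mem' := by
    rintro _ _ ⟨c, rfl⟩ ⟨c', rfl⟩
    refine ⟨c + c', ?_⟩
    simp only [Pi.add_apply, map_add, add_mul, Finset.sum_add_distrib]
  neg_mem' := by
    rintro _ ⟨c, rfl⟩
    refine ⟨-c, ?_⟩
    simp only [Pi.neg_apply, map_neg, neg_mul, Finset.sum_neg_distrib]

theorem Xs_nil (n : ℕ) (M : Matrix (Fin n) (Fin n) Sb) (hM : ∀ i j, M i j ∈ Xs) :
    ∃ K, M ^ K = 0 := by
  choose c hc using hM
  let F : Fin 4 → Matrix (Fin n) (Fin n) E := fun s => Matrix.of (fun i j => c i j s)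
  obtain ⟨K, hK⟩ := nilp' n F
  refine ⟨K, ?_⟩
  have h1 : M = Psi n (gen F) := by
    apply Matrix.ext
    intro i j
    rw [hc i j, gen, map_sum, Matrix.sum_apply]
    refine Finset.sum_congr rfl fun s _ => ?_
    rw [Psi_single]
    rfl
  rw [h1, ← map_pow]
  exact Psi_zero n _ hK

theorem Xs_mul (e : E) (x : Sb) (hx : x ∈ Xs) : phE e * x ∈ Xs := by
  obtain ⟨c, rfl⟩ := hx
  refine ⟨fun s => e * c s, ?_⟩
  rw [Finset.mul_sum]
  refine Finset.sum_congr rfl fun s _ => ?_
  rw [map_mul, mul_assoc]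

theorem Xs_letter (e : E) (s : Fin 4) : phE e * phW (lt s) ∈ Xs := by
  classical
  refine ⟨Pi.single s e, ?_⟩
  rw [Finset.sum_eq_single_of_mem s (Finset.mem_univ s)]
  · rw [Pi.single_eq_same]
  · intro t _ ht
    rw [Pi.single_eq_of_ne ht, map_zero, zero_mul]

/-- elements preserving `Qp` -/
def Pr (h : Sb) : Prop := ∀ g, Qp Xs g → Qp Xs (h * g)

theorem Pr_E (e : E) : Pr (phE e) := fun _ hg => hg.mul_left' (Xs_mul e)

theorem Pr_add {a b : Sb} (ha : Pr a) (hb : Pr b) : Pr (a + b) := fun g hg => by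
  rw [add_mul]; exact (ha g hg).add (hb g hg)

theorem Pr_mul {a b : Sb} (ha : Pr a) (hb : Pr b) : Pr (a * b) := fun g hg => by
  rw [mul_assoc]; exact ha _ (hb g hg)

theorem Pr_letter (s : Fin 4) : Pr (phW (lt s)) := by
  intro g hg
  have := Xs_letter 1 s
  rw [map_one, one_mul] at this
  exact hg.mul_left this

theorem Pr_one : Pr 1 := by
  have := Pr_E 1
  rwa [map_one] at this

theorem Pr_word (w : Wd) : Pr (phW w) := by
  induction w using FreeMonoid.recOn with
  | one => rw [map_one]; exact Pr_one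
  | of_mul s w ih => rw [map_mul]; exact Pr_mul (Pr_letter s) ih

theorem Pr_all (h : Sb) : Pr h := by
  induction h using ore_ind with
  | hf r =>
    obtain ⟨X, rfl⟩ := Ideal.Quotient.mk_surjective r
    induction X using MonoidAlgebra.induction_linear with
    | zero =>
      rw [map_zero, map_zero]
      have := Pr_E 0
      rwa [map_zero] at this
    | add f g hf hg => rw [map_add, map_add]; exact Pr_add hf hg
    | single w p =>
      have h1 : (single w p : R0) = single 1 p * single w 1 := by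
        rw [single_mul_single, one_mul, mul_one]
      rw [h1, map_mul, map_mul]
      refine Pr_mul ?_ (Pr_word w)
      have := Pr_E (fO ℚ ℚ[X] eul eul_mul p)
      rw [phE, liftO_fO] at this
      exact this
  | hx =>
    have := Pr_E (xO ℚ ℚ[X] eul eul_mul)
    rw [phE, liftO_xO] at this
    exact this
  | hadd a b ha hb => exact Pr_add ha hb
  | hmul a b ha hb => exact Pr_mul ha hb

theorem beta_Q : Qp Xs (fS (mk beta)) := by
  have h1 : fS (mk beta) = phE 1 * phW (lt 0) + phE (fO ℚ ℚ[X] eul eul_mul X) * phW (lt 1) +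
      phW (lt 2) * (phE 1 * phW (lt 3)) := by
    have h2 : phE (fO ℚ ℚ[X] eul eul_mul X) * phW (lt 1) = fS (mk (single (lt 1) X)) := by
      rw [phE, liftO_fO, gS_apply, phW_apply, ← map_mul, ← map_mul, single_mul_single, one_mul,
        mul_one]
    rw [h2, beta, map_add, map_add, map_add, map_add, map_one, one_mul, one_mul, ← map_mul phW]
    rfl
  rw [h1]
  exact ((Qp_base (Xs_letter _ _)).add (Qp_base (Xs_letter _ _))).add
    (Pr_all _ _ (Qp_base (Xs_letter _ _)))

theorem beta_jac : fS (mk beta) ∈ (⊥ : Ideal Sb).jacobson := by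
  rw [Ideal.mem_jacobson_iff]
  intro y
  obtain ⟨z, hz⟩ := (Pr_all (-y) _ beta_Q).inv Xs_nil
  refine ⟨z, ?_⟩
  rw [Ideal.mem_bot, sub_eq_zero, ← hz, neg_mul, sub_neg_eq_add, mul_add, mul_one, mul_assoc,
    add_comm]

theorem beta_ne : fS (mk beta) ≠ 0 := by
  intro h
  have h1 := congrArg (cf ℚ Rb db db_mul) h
  rw [cf_fO, map_zero, Finsupp.single_eq_zero] at h1
  have h2 := Ideal.Quotient.eq_zero_iff_mem.mp h1
  obtain ⟨n, hn⟩ := N0_nil JC _ h2
  exact beta_not_nilp n hn

theorem final : ¬ (∀ (R : Type) [Ring R] (d : R →+ R),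
      (∀ a b : R, d (a * b) = d a * b + a * d b) →
      (∀ I : TwoSidedIdeal R, (∀ a ∈ I, IsNilpotent a) → I = ⊥) →
      ∀ (S : Type) [Ring S] (f : R →+* S) (x : S),
        (∀ r : R, x * f r = f r * x + f (d r)) →
        (∀ s : S, ∃! c : ℕ →₀ R, s = c.sum (fun n a => f a * x ^ n)) →
        (⊥ : Ideal S).jacobson = ⊥) := by
  intro H
  have h1 := H Rb db.toAddMonoidHom db_mul (quot_nonil JC) Sb fS.toRingHom xS
    (xO_fO ℚ Rb db db_mul) (unique_rep ℚ Rb db db_mul)
  have h2 := beta_jac
  rw [h1, Ideal.mem_bot] at h2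
  exact beta_ne h2

end Pool.Agent.W412
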