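import Mathlib

/-!
A finitely generated algebra of polynomial growth without a greatest nilpotent ideal.
-/

set_option autoImplicit false

namespace Pool.Agent.W412.Gni

open Classical

variable (K : Type) [Field K]

/-- the underlying space -/
abbrev M : Type := ℕ → ℕ → K

/-- length of row `k` -/
def NN (k : ℕ) : ℕ := (k + 1) ^ 2

/-- the letter at position `p` of row `k` -/
def letr (k p : ℕ) : Option Bool :=
  if p < NN k then (if (p + 1) % (k + 1) = 0 then some true else some false) else none

/-- the two operators -/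
noncomputable def Z (a : Bool) : Module.End K (M K) where
  toFun f := fun k p => if letr k p = some a then f k (p + 1) else 0
  map_add' f g := by
    funext k p
    simp only [Pi.add_apply]
    split_ifs
    · rfl
    · rw [add_zero]
  map_smul' c f := by
    funext k p
    simp only [Pi.smul_apply, RingHom.id_apply]
    split_ifs
    · rfl
    · rw [smul_zero]

theorem Z_apply (a : Bool) (f : M K) (k p : ℕ) :
    Z K a f k p = if letr k p = some a then f k (p + 1) else 0 := rfl

/-- the word `w` occurs at position `p` of row `k` -/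
def mt (k : ℕ) : ℕ → List Bool → Prop
  | _, [] => True
  | p, a :: w => letr k p = some a ∧ mt k (p + 1) w

/-- the operator of a word -/
noncomputable def op (w : List Bool) : Module.End K (M K) := (w.map (Z K)).prod

theorem op_nil : op K [] = 1 := rfl

theorem op_cons (a : Bool) (w : List Bool) : op K (a :: w) = Z K a * op K w := by
  rw [op, List.map_cons, List.prod_cons]; rfl

theorem op_apply (w : List Bool) (f : M K) (k p : ℕ) :
    op K w f k p = if mt k p w then f k (p + w.length) else 0 := by
  induction w generalizing p with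
  | nil => simp [op_nil, mt]
  | cons a w ih =>
    rw [op_cons, Module.End.mul_apply, Z_apply]
    by_cases h : letr k p = some a
    · rw [if_pos h, ih]
      have h1 : mt k p (a :: w) ↔ mt k (p + 1) w := by
        rw [mt]; exact ⟨fun h => h.2, fun h' => ⟨h, h'⟩⟩
      have h2 : p + 1 + w.length = p + (a :: w).length := by
        rw [List.length_cons]; omega
      rw [h2]
      by_cases h3 : mt k (p + 1) w
      · rw [if_pos h3, if_pos (h1.mpr h3)]
      · rw [if_neg h3, if_neg (fun h4 => h3 (h1.mp h4))]
    · rw [if_neg h, if_neg]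
      intro h'
      exact h h'.1

/-- the word of length `m` at position `p` of row `k` -/
def wd (k : ℕ) : ℕ → ℕ → List Bool
  | _, 0 => []
  | p, m + 1 => ((letr k p).getD false) :: wd k (p + 1) m

theorem wd_length (k p m : ℕ) : (wd k p m).length = m := by
  induction m generalizing p with
  | zero => rfl
  | succ m ih => rw [wd, List.length_cons, ih]

theorem mt_wd (k p : ℕ) (w : List Bool) (h : mt k p w) : w = wd k p w.length := by
  induction w generalizing p with
  | nil => rfl
  | cons a w ih =>
    rw [List.length_cons, wd, ← ih (p + 1) h.2, h.1]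
    rfl

theorem wd_congr (k p k' p' m : ℕ) (h : ∀ j < m, letr k (p + j) = letr k' (p' + j)) :
    wd k p m = wd k' p' m := by
  induction m generalizing p p' with
  | zero => rfl
  | succ m ih =>
    rw [wd, wd]
    have h0 := h 0 (by omega)
    rw [add_zero, add_zero] at h0
    rw [h0, ih (p + 1) (p' + 1)]
    intro j hj
    have := h (j + 1) (by omega)
    rwa [show p + 1 + j = p + (j + 1) by ring, show p' + 1 + j = p' + (j + 1) by ring]

theorem mt_lt (k p : ℕ) (w : List Bool) (h : mt k p w) (j : ℕ) (hj : j < w.length) :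
    p + j < NN k := by
  induction w generalizing p j with
  | nil => exact absurd hj (by simp)
  | cons a w ih =>
    cases j with
    | zero =>
      by_contra hc
      have := h.1
      rw [letr, if_neg (by simpa using hc)] at this
      exact absurd this (by simp)
    | succ j =>
      have := ih (p + 1) h.2 j (by rw [List.length_cons] at hj; omega)
      omega

/-- every occurring word occurs early -/
theorem early (n : ℕ) (w : List Bool) (hw : w.length ≤ n) (k p : ℕ) (h : mt k p w) :
    ∃ k' ≤ n, ∃ p' ≤ (n + 1) ^ 2, w = wd k' p' w.length := by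
  rcases Nat.eq_zero_or_pos w.length with h0 | hpos
  · exact ⟨0, by omega, 0, by omega, by rw [h0, List.length_eq_zero_iff.mp h0]; rfl⟩
  rcases le_or_gt k n with hk | hk
  · refine ⟨k, hk, p, ?_, mt_wd k p w h⟩
    have h1 := mt_lt k p w h 0 hpos
    rw [NN] at h1
    have h2 : (k + 1) ^ 2 ≤ (n + 1) ^ 2 := Nat.pow_le_pow_left (by omega) 2
    omega
  · set m := w.length with hm
    have hlet : ∀ j < m, letr k (p + j) = if (p + j + 1) % (k + 1) = 0 then some true else some false := by
      intro j hj
      rw [letr, if_pos (mt_lt k p w h j hj)]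
    have hbig : 2 * n < NN n := by rw [NN]; nlinarith
    have hdm := Nat.div_add_mod p (k + 1)
    have hml := Nat.mod_lt p (show 0 < k + 1 by omega)
    set r := p % (k + 1) with hr
    -- the first `x` has offset `k - r`
    have hmod : ∀ j < m, ((p + j + 1) % (k + 1) = 0 ↔ j = k - r) := by
      intro j hj
      have h1 : (p + j + 1) % (k + 1) = (r + j + 1) % (k + 1) := by
        conv_lhs => rw [← hdm]
        rw [show (k + 1) * (p / (k + 1)) + r + j + 1 = r + j + 1 + (k + 1) * (p / (k + 1)) by ring,
          Nat.add_mul_mod_self_left]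
      rw [h1]
      constructor
      · intro h2
        have h3 : k + 1 ∣ r + j + 1 := Nat.dvd_of_mod_eq_zero h2
        obtain ⟨c, hc⟩ := h3
        have h4 : c = 1 := by
          rcases Nat.lt_or_ge c 1 with h5 | h5
          · have : c = 0 := by omega
            rw [this, mul_zero] at hc; omega
          · rcases Nat.lt_or_ge 1 c with h6 | h6
            · have : (k + 1) * 2 ≤ (k + 1) * c := Nat.mul_le_mul_left _ h6
              omega
            · omega
        rw [h4] at hc; omega
      · intro h2
        have : r + j + 1 = k + 1 := by omega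
        rw [this, Nat.mod_self]
    rcases le_or_gt m (k - r) with hc | hc
    · refine ⟨n, le_rfl, 0, by omega, ?_⟩
      rw [mt_wd k p w h, ← hm]
      apply wd_congr
      intro j hj
      rw [hlet j hj, if_neg (fun h2 => by have := (hmod j hj).mp h2; omega), zero_add, letr,
        if_pos (by omega), if_neg]
      rw [Nat.mod_eq_of_lt (by omega)]
      omega
    · refine ⟨n, le_rfl, n - (k - r), ?_, ?_⟩
      · have : n ≤ (n + 1) ^ 2 := by nlinarith
        omega
      rw [mt_wd k p w h, ← hm]
      apply wd_congr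
      intro j hj
      rw [hlet j hj, letr, if_pos (show n - (k - r) + j < NN n by omega)]
      by_cases h2 : j = k - r
      · rw [if_pos ((hmod j hj).mpr h2), if_pos]
        rw [h2, show n - (k - r) + (k - r) + 1 = n + 1 by omega, Nat.mod_self]
      · rw [if_neg (fun h3 => h2 ((hmod j hj).mp h3)), if_neg]
        intro h3
        obtain ⟨c, hc'⟩ := Nat.dvd_of_mod_eq_zero h3
        rcases Nat.lt_or_ge c 1 with h5 | h5
        · have : c = 0 := by omega
          rw [this, mul_zero] at hc'; omega
        · rcases Nat.lt_or_ge 1 c with h6 | h6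
          · have : (n + 1) * 2 ≤ (n + 1) * c := Nat.mul_le_mul_left _ h6
            omega
          · have : c = 1 := by omega
            rw [this] at hc'; omega

/-- the finite family of operators -/
noncomputable def box (n : ℕ) (x : Fin (n + 1) × Fin ((n + 1) ^ 2 + 1) × Fin (n + 1)) :
    Module.End K (M K) := op K (wd x.1 x.2.1 x.2.2)

theorem op_mem (n : ℕ) (w : List Bool) (hw : w.length ≤ n) :
    op K w ∈ Submodule.span K (Set.range (box K n)) := by
  by_cases h : ∃ k p, mt k p w
  · obtain ⟨k, p, h⟩ := h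
    obtain ⟨k', hk', p', hp', he⟩ := early n w hw k p h
    refine Submodule.subset_span ⟨(⟨k', by omega⟩, ⟨p', by omega⟩, ⟨w.length, by omega⟩), ?_⟩
    change op K (wd k' p' w.length) = op K w
    rw [← he]
  · have : op K w = 0 := by
      apply LinearMap.ext
      intro f
      funext k p
      rw [op_apply, if_neg (fun h' => h ⟨k, p, h'⟩)]
      rfl
    rw [this]
    exact Submodule.zero_mem _

/-- the generating space -/
noncomputable def V0 : Submodule K (Module.End K (M K)) :=
  Submodule.span K {1, Z K true, Z K false}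

theorem V0_pow (n : ℕ) : V0 K ^ n ≤ Submodule.span K (op K '' {w | w.length ≤ n}) := by
  induction n with
  | zero =>
    rw [pow_zero, Submodule.one_le]
    exact Submodule.subset_span ⟨[], by simp, op_nil K⟩
  | succ n ih =>
    rw [pow_succ']
    refine (mul_le_mul' le_rfl ih).trans ?_
    rw [V0, Submodule.span_mul_span, Submodule.span_le]
    rintro _ ⟨a, ha, _, ⟨w, hw, rfl⟩, rfl⟩
    simp only [Set.mem_insert_iff, Set.mem_singleton_iff] at ha
    simp only [Set.mem_ofPred_eq] at hw
    rcases ha with rfl | rfl | rfl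
    · exact Submodule.subset_span ⟨w, by simp only [Set.mem_ofPred_eq]; omega, (one_mul _).symm⟩
    · exact Submodule.subset_span ⟨true :: w, by
        simp only [Set.mem_ofPred_eq, List.length_cons]; omega, op_cons K _ _⟩
    · exact Submodule.subset_span ⟨false :: w, by
        simp only [Set.mem_ofPred_eq, List.length_cons]; omega, op_cons K _ _⟩

theorem V0_fin (n : ℕ) : Module.Finite K (V0 K ^ n : Submodule K (Module.End K (M K))) ∧
    Module.finrank K (V0 K ^ n : Submodule K (Module.End K (M K))) ≤ 2 * (n + 1) ^ 4 := by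
  have h1 : (V0 K ^ n : Submodule K (Module.End K (M K))) ≤ Submodule.span K (Set.range (box K n)) := by
    refine (V0_pow K n).trans ?_
    rw [Submodule.span_le]
    rintro _ ⟨w, hw, rfl⟩
    exact op_mem K n w hw
  have : Module.Finite K (Submodule.span K (Set.range (box K n))) :=
    FiniteDimensional.span_of_finite K (Set.finite_range _)
  refine ⟨Submodule.finiteDimensional_of_le h1, ?_⟩
  refine (Submodule.finrank_mono h1).trans ((finrank_range_le_card (R := K) (box K n)).trans ?_)
  simp only [Fintype.card_prod, Fintype.card_fin]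
  have h2 : (n + 1) ^ 2 + 1 ≤ 2 * (n + 1) ^ 2 := by
    have : 1 ≤ (n + 1) ^ 2 := Nat.one_le_pow _ _ (by omega)
    omega
  calc (n + 1) * (((n + 1) ^ 2 + 1) * (n + 1)) ≤ (n + 1) * ((2 * (n + 1) ^ 2) * (n + 1)) :=
        Nat.mul_le_mul_left _ (Nat.mul_le_mul_right _ h2)
    _ = 2 * (n + 1) ^ 4 := by ring

theorem letr_true {j p : ℕ} (h : letr j p = some true) : p < NN j ∧ (p + 1) % (j + 1) = 0 := by
  rw [letr] at h
  by_cases h1 : p < NN j
  · rw [if_pos h1] at h
    by_cases h2 : (p + 1) % (j + 1) = 0
    · exact ⟨h1, h2⟩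
    · rw [if_neg h2] at h
      exact absurd h (by simp)
  · rw [if_neg h1] at h
    exact absurd h (by simp)

theorem letr_false {j p : ℕ} (h : letr j p = some false) : p < NN j ∧ (p + 1) % (j + 1) ≠ 0 := by
  rw [letr] at h
  by_cases h1 : p < NN j
  · rw [if_pos h1] at h
    by_cases h2 : (p + 1) % (j + 1) = 0
    · rw [if_pos h2] at h
      exact absurd h (by simp)
    · exact ⟨h1, h2⟩
  · rw [if_neg h1] at h
    exact absurd h (by simp)


section Abs

variable {K}
variable {A : Type} [Ring A] [Algebra K A] (φ : A →ₐ[K] Module.End K (M K))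
  (hφ : Function.Injective φ) {gx gy : A} (hx : φ gx = Z K true) (hy : φ gy = Z K false)
  (hgen : Algebra.adjoin K ({gx, gy} : Set A) = ⊤)

include hφ hx hy in
theorem VA_growth (n : ℕ) :
    Module.finrank K ↥((Submodule.span K ({1, gx, gy} : Set A)) ^ n) ≤ 2 * (n + 1) ^ 4 := by
  have h0 : (Submodule.span K ({1, gx, gy} : Set A)).map φ.toLinearMap = V0 K := by
    rw [Submodule.map_span, V0]
    congr 1
    rw [Set.image_insert_eq, Set.image_insert_eq, Set.image_singleton]
    simp only [AlgHom.toLinearMap_apply, map_one, hx, hy]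
  have h1 : ((Submodule.span K ({1, gx, gy} : Set A)) ^ n).map φ.toLinearMap = V0 K ^ n := by
    rw [Submodule.map_pow, h0]
  have h2 := (V0_fin K n).2
  rw [← h1] at h2
  rw [(Submodule.equivMapOfInjective φ.toLinearMap hφ
    ((Submodule.span K ({1, gx, gy} : Set A)) ^ n)).finrank_eq]
  exact h2

include hx hy hgen in
/-- support property of the elements of `A` -/
theorem propA (S : A) (g : M K) (j p : ℕ) (h0 : g j p = 0)
    (h : ∀ q, p < q → q ≤ NN j → g j q = 0) : φ S g j p = 0 := by
  have hS : S ∈ Algebra.adjoin K ({gx, gy} : Set A) := by rw [hgen]; trivial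
  induction hS using Algebra.adjoin_induction generalizing g p with
  | mem T hT =>
    simp only [Set.mem_insert_iff, Set.mem_singleton_iff] at hT
    have key : ∀ a, Z K a g j p = 0 := by
      intro a
      rw [Z_apply]
      split_ifs with h1
      · apply h (p + 1) (by omega)
        by_contra hc
        rw [letr, if_neg (by omega)] at h1
        exact absurd h1 (by simp)
      · rfl
    rcases hT with rfl | rfl
    · rw [hx]; exact key _
    · rw [hy]; exact key _
  | algebraMap c =>
    rw [AlgHom.commutes, Module.algebraMap_end_apply, Pi.smul_apply, Pi.smul_apply, h0, smul_zero]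
  | add S T _ _ hS hT =>
    rw [map_add, LinearMap.add_apply, Pi.add_apply, Pi.add_apply, hS g p h0 h, hT g p h0 h,
      add_zero]
  | mul S T _ _ hS hT =>
    rw [map_mul, Module.End.mul_apply]
    apply hS
    · exact hT g p h0 h
    · intro q hq1 hq2
      apply hT
      · exact h q hq1 hq2
      · intro q' h1 h2
        exact h q' (by omega) h2

/-- the ideal of row `k` -/
def IkS (k : ℕ) : Set A := {T | (∀ f j p, j ≠ k → φ T f j p = 0) ∧
    ∀ f p, (∀ q, p < q → q ≤ NN k → f k q = 0) → φ T f k p = 0}

include hx hy hgen in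
theorem exists_Ik (k : ℕ) : ∃ I : TwoSidedIdeal A, ∀ T, T ∈ I ↔ T ∈ IkS φ k := by
  refine ⟨TwoSidedIdeal.mk' (IkS φ k) ?_ ?_ ?_ ?_ ?_, ?_⟩
  · refine ⟨fun f j p _ => ?_, fun f p _ => ?_⟩
    · rw [map_zero]; rfl
    · rw [map_zero]; rfl
  · rintro S T ⟨h1, h2⟩ ⟨h3, h4⟩
    refine ⟨fun f j p hj => ?_, fun f p hp => ?_⟩
    · rw [map_add, LinearMap.add_apply, Pi.add_apply, Pi.add_apply, h1 f j p hj, h3 f j p hj,
        add_zero]
    · rw [map_add, LinearMap.add_apply, Pi.add_apply, Pi.add_apply, h2 f p hp, h4 f p hp, add_zero]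
  · rintro S ⟨h1, h2⟩
    refine ⟨fun f j p hj => ?_, fun f p hp => ?_⟩
    · rw [map_neg, LinearMap.neg_apply, Pi.neg_apply, Pi.neg_apply, h1 f j p hj, neg_zero]
    · rw [map_neg, LinearMap.neg_apply, Pi.neg_apply, Pi.neg_apply, h2 f p hp, neg_zero]
  · rintro S T ⟨h1, h2⟩
    refine ⟨fun f j p hj => ?_, fun f p hp => ?_⟩
    · rw [map_mul, Module.End.mul_apply]
      exact propA φ hx hy hgen S _ j p (h1 f j p hj) (fun q _ _ => h1 f j q hj)
    · rw [map_mul, Module.End.mul_apply]
      exact propA φ hx hy hgen S _ k p (h2 f p hp)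
        (fun q hq _ => h2 f q (fun q' h3 h4 => hp q' (by omega) h4))
  · rintro S T ⟨h1, h2⟩
    refine ⟨fun f j p hj => ?_, fun f p hp => ?_⟩
    · rw [map_mul, Module.End.mul_apply]
      exact h1 _ j p hj
    · rw [map_mul, Module.End.mul_apply]
      apply h2
      intro q hq1 hq2
      exact propA φ hx hy hgen T _ k q (hp q hq1 hq2) (fun q' h3 h4 => hp q' (by omega) h4)
  · intro T
    rw [TwoSidedIdeal.mem_mk']

theorem Ik_prod (k : ℕ) (L : List A) (hL : ∀ T ∈ L, T ∈ IkS φ k) (hne : L ≠ []) (f : M K)
    (p : ℕ) (hp : NN k < p + L.length) : φ L.prod f k p = 0 := by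
  induction L generalizing p with
  | nil => exact absurd rfl hne
  | cons T L ih =>
    rw [List.prod_cons, map_mul, Module.End.mul_apply]
    apply (hL T (by simp)).2
    intro q hq1 hq2
    rw [List.length_cons] at hp
    by_cases hLe : L = []
    · rw [hLe] at hp
      simp at hp
      omega
    · exact ih (fun T hT => hL T (List.mem_cons_of_mem _ hT)) hLe q (by omega)

include hφ in
theorem Ik_nil (k : ℕ) (I : TwoSidedIdeal A) (hI : ∀ T, T ∈ I ↔ T ∈ IkS φ k) :
    ∃ m : ℕ, ∀ F : Fin m → A, (∀ i, F i ∈ I) → (List.ofFn F).prod = 0 := by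
  refine ⟨NN k + 1, fun F hF => ?_⟩
  have hmem : ∀ T ∈ List.ofFn F, T ∈ I := by
    intro T hT
    obtain ⟨i, rfl⟩ := (List.mem_ofFn' F T).mp hT
    exact hF i
  have hlen : (List.ofFn F).length = NN k + 1 := List.length_ofFn
  have hne : List.ofFn F ≠ [] := by
    intro h
    rw [h] at hlen
    simp at hlen
  have hIk : ∀ L : List A, (∀ T ∈ L, T ∈ I) → L ≠ [] → L.prod ∈ I := by
    intro L
    induction L with
    | nil => intro _ h; exact absurd rfl h
    | cons T L ih =>
      intro h _
      rw [List.prod_cons]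
      exact I.mul_mem_right _ _ (h T (by simp))
  apply hφ
  rw [map_zero]
  apply LinearMap.ext
  intro f
  funext j p
  rw [LinearMap.zero_apply, Pi.zero_apply, Pi.zero_apply]
  by_cases hj : j = k
  · subst hj
    exact Ik_prod φ j _ (fun T hT => (hI T).mp (hmem T hT)) hne f p (by omega)
  · exact ((hI _).mp (hIk _ hmem hne)).1 f j p hj

include hy in
theorem gy_pow (k : ℕ) (f : M K) (j p : ℕ) : φ (gy ^ k) f j p =
    if (∀ i < k, letr j (p + i) = some false) then f j (p + k) else 0 := by
  induction k generalizing p with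
  | zero =>
    rw [if_pos (by intro i hi; omega), pow_zero, map_one]; rfl
  | succ k ih =>
    rw [pow_succ', map_mul, hy, Module.End.mul_apply, Z_apply, ih]
    by_cases h : letr j p = some false
    · rw [if_pos h, show p + 1 + k = p + (k + 1) by ring]
      by_cases h2 : ∀ i < k, letr j (p + 1 + i) = some false
      · rw [if_pos h2, if_pos]
        intro i hi
        cases i with
        | zero => exact h
        | succ i =>
          have := h2 i (by omega)
          rwa [show p + 1 + i = p + (i + 1) by ring] at this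
      · rw [if_neg h2, if_neg]
        intro h3
        apply h2
        intro i hi
        have := h3 (i + 1) (by omega)
        rwa [show p + (i + 1) = p + 1 + i by ring] at this
    · rw [if_neg h, if_neg]
      intro h3
      exact h (h3 0 (by omega))

include hx hy in
theorem wk_apply (k : ℕ) (f : M K) (j p : ℕ) : φ (gx * gy ^ k * gx) f j p =
    if letr j p = some true ∧ (∀ i < k, letr j (p + 1 + i) = some false) ∧
      letr j (p + 1 + k) = some true then f j (p + 1 + k + 1) else 0 := by
  rw [map_mul, map_mul, Module.End.mul_apply, Module.End.mul_apply, hx, Z_apply,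
    gy_pow φ hy, Z_apply]
  by_cases h1 : letr j p = some true
  · by_cases h2 : ∀ i < k, letr j (p + 1 + i) = some false
    · by_cases h3 : letr j (p + 1 + k) = some true
      · rw [if_pos h1, if_pos h2, if_pos h3, if_pos ⟨h1, h2, h3⟩]
      · rw [if_pos h1, if_pos h2, if_neg h3, if_neg (fun h => h3 h.2.2)]
    · rw [if_pos h1, if_neg h2, if_neg (fun h => h2 h.2.1)]
  · rw [if_neg h1, if_neg (fun h => h1 h.1)]

include hx hy in
theorem wk_mem (k : ℕ) : gx * gy ^ k * gx ∈ IkS φ k := by
  constructor
  · intro f j p hj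
    rw [wk_apply φ hx hy, if_neg]
    rintro ⟨h1, h2, h3⟩
    obtain ⟨-, h4⟩ := letr_true h1
    obtain ⟨-, h5⟩ := letr_true h3
    apply hj
    obtain ⟨a, ha⟩ := Nat.dvd_of_mod_eq_zero h4
    obtain ⟨b, hb⟩ := Nat.dvd_of_mod_eq_zero h5
    rcases lt_trichotomy j k with h | h | h
    · obtain ⟨-, h6⟩ := letr_false (h2 j h)
      exfalso
      apply h6
      have : p + 1 + j + 1 = (j + 1) * (a + 1) := by rw [mul_add, ← ha]; ring
      rw [this]
      exact Nat.mul_mod_right _ _
    · exact h
    · exfalso
      have h7 : (j + 1) * b = (j + 1) * a + (k + 1) := by rw [← hb, ← ha]; ring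
      have h8 : a < b := by
        by_contra hc
        have : (j + 1) * b ≤ (j + 1) * a := Nat.mul_le_mul_left _ (by omega)
        omega
      have h9 : (j + 1) * (a + 1) ≤ (j + 1) * b := Nat.mul_le_mul_left _ h8
      rw [mul_add] at h9
      omega
  · intro f p hp
    rw [wk_apply φ hx hy]
    split_ifs with h
    · obtain ⟨h1, -⟩ := letr_true h.2.2
      exact hp _ (by omega) (by omega)
    · rfl

include hx hy in
/-- the element whose powers do not vanish -/
theorem big (k : ℕ) (f : M K) (p : ℕ) (hp : (p + 1) % (k + 1) = 0)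
    (hb : p + 2 * (k + 1) ≤ NN k) :
    φ (gx * gy ^ k * gx * gy ^ k) f k p = f k (p + 2 * (k + 1)) := by
  obtain ⟨a, ha⟩ := Nat.dvd_of_mod_eq_zero hp
  have h1 : ∀ q, q < NN k → (q + 1) % (k + 1) = 0 → letr k q = some true := by
    intro q h1 h2
    rw [letr, if_pos h1, if_pos h2]
  have h2 : ∀ q c i, q + 1 = (k + 1) * c + 1 + i → q < NN k → i < k → letr k q = some false := by
    intro q c i h1 h2 h3
    rw [letr, if_pos h2, if_neg]
    rw [h1, show (k + 1) * c + 1 + i = (1 + i) + (k + 1) * c by ring, Nat.add_mul_mod_self_left,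
      Nat.mod_eq_of_lt (by omega)]
    omega
  rw [map_mul, Module.End.mul_apply, wk_apply φ hx hy, if_pos, gy_pow φ hy, if_pos]
  · congr 1
    ring
  · intro i hi
    refine h2 _ (a + 1) i ?_ (by omega) hi
    rw [mul_add, ← ha]; ring
  · refine ⟨h1 p (by omega) hp, ?_, ?_⟩
    · intro i hi
      refine h2 _ a i ?_ (by omega) hi
      rw [← ha]; ring
    · refine h1 _ (by omega) ?_
      have : p + 1 + k + 1 = (k + 1) * (a + 1) := by rw [mul_add, ← ha]; ring
      rw [this]
      exact Nat.mul_mod_right _ _

include hx hy in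
theorem big_pow (k m : ℕ) (f : M K) (p : ℕ) (hp : (p + 1) % (k + 1) = 0)
    (hb : p + m * (2 * (k + 1)) ≤ NN k) :
    φ ((gx * gy ^ k * gx * gy ^ k) ^ m) f k p = f k (p + m * (2 * (k + 1))) := by
  induction m generalizing p with
  | zero => rw [zero_mul, add_zero, pow_zero, map_one]; rfl
  | succ m ih =>
    rw [pow_succ', map_mul, Module.End.mul_apply]
    have h3 : (m + 1) * (2 * (k + 1)) = m * (2 * (k + 1)) + 2 * (k + 1) := by ring
    rw [big φ hx hy k _ p hp (by omega), ih]
    · congr 1
      omega
    · rw [show p + 2 * (k + 1) + 1 = p + 1 + (k + 1) * 2 by ring, Nat.add_mul_mod_self_left]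
      exact hp
    · omega

include hx hy in
theorem big_ne (m : ℕ) : (gx * gy ^ (2 * m) * gx * gy ^ (2 * m)) ^ m ≠ 0 := by
  intro h
  have hb : 2 * m + m * (2 * (2 * m + 1)) ≤ NN (2 * m) := by
    rw [NN]; nlinarith
  have h1 := big_pow φ hx hy (2 * m) m (fun _ _ => 1) (2 * m) (Nat.mod_self _) hb
  rw [h, map_zero] at h1
  exact zero_ne_one h1

include hφ hx hy hgen in
theorem abs_final : Algebra.FiniteType K A ∧
      (∃ V : Submodule K A, FiniteDimensional K V ∧ (1 : A) ∈ V ∧
          Algebra.adjoin K (V : Set A) = ⊤ ∧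
          ∃ C d : ℕ, ∀ n : ℕ, Module.finrank K ↥(V ^ n) ≤ C * (n + 1) ^ d) ∧
      ¬ (∃ N : TwoSidedIdeal A,
        (∃ m : ℕ, ∀ f : Fin m → A, (∀ i, f i ∈ N) → (List.ofFn f).prod = 0) ∧
        ∀ I : TwoSidedIdeal A,
          (∃ m : ℕ, ∀ f : Fin m → A, (∀ i, f i ∈ I) → (List.ofFn f).prod = 0) → I ≤ N) := by
  refine ⟨⟨Subalgebra.fg_def.mpr ⟨_, Set.toFinite _, hgen⟩⟩,
    ⟨Submodule.span K ({1, gx, gy} : Set A), FiniteDimensional.span_of_finite K (Set.toFinite _),
      Submodule.subset_span (by simp), ?_, 2, 4, VA_growth φ hφ hx hy⟩, ?_⟩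
  · rw [eq_top_iff, ← hgen]
    apply Algebra.adjoin_mono
    refine Set.Subset.trans ?_ Submodule.subset_span
    intro a ha
    exact Set.mem_insert_of_mem _ ha
  · rintro ⟨N, ⟨m, hm⟩, hN⟩
    obtain ⟨I, hI⟩ := exists_Ik φ hx hy hgen (2 * m)
    have h1 : gx * gy ^ (2 * m) * gx ∈ N :=
      hN I (Ik_nil φ hφ (2 * m) I hI) ((hI _).mpr (wk_mem φ hx hy (2 * m)))
    have h2 := hm (fun _ => gx * gy ^ (2 * m) * gx * gy ^ (2 * m))
      (fun _ => N.mul_mem_right _ _ h1)
    rw [List.ofFn_const, List.prod_replicate] at h2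
    exact big_ne φ hx hy m h2

end Abs

/-- the subalgebra -/
abbrev AS : Subalgebra K (Module.End K (M K)) :=
  Algebra.adjoin K ({Z K true, Z K false} : Set (Module.End K (M K)))

theorem exists_alg : ∃ (A : Type) (_ : Ring A) (_ : Algebra K A) (φ : A →ₐ[K] Module.End K (M K))
    (gx gy : A), Function.Injective φ ∧ φ gx = Z K true ∧ φ gy = Z K false ∧
      Algebra.adjoin K ({gx, gy} : Set A) = ⊤ := by
  refine ⟨AS K, inferInstance, inferInstance, (AS K).val,
    ⟨Z K true, Algebra.subset_adjoin (by simp)⟩, ⟨Z K false, Algebra.subset_adjoin (by simp)⟩,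
    Subtype.val_injective, rfl, rfl, ?_⟩
  rw [eq_top_iff, ← Algebra.adjoin_adjoin_coe_preimage]
  apply Algebra.adjoin_mono
  intro a ha
  simp only [Set.mem_preimage, Set.mem_insert_iff, Set.mem_singleton_iff] at ha ⊢
  rcases ha with h | h
  · left; exact Subtype.ext h
  · right; exact Subtype.ext h

include K in
theorem final : ¬ (∀ (k : Type) [Field k] (A : Type) [Ring A] [Algebra k A],
      Algebra.FiniteType k A →
      (∃ V : Submodule k A, FiniteDimensional k V ∧ (1 : A) ∈ V ∧
          Algebra.adjoin k (V : Set A) = ⊤ ∧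
          ∃ C d : ℕ, ∀ n : ℕ, Module.finrank k ↥(V ^ n) ≤ C * (n + 1) ^ d) →
      ∃ N : TwoSidedIdeal A,
        (∃ m : ℕ, ∀ f : Fin m → A, (∀ i, f i ∈ N) → (List.ofFn f).prod = 0) ∧
        ∀ I : TwoSidedIdeal A,
          (∃ m : ℕ, ∀ f : Fin m → A, (∀ i, f i ∈ I) → (List.ofFn f).prod = 0) → I ≤ N) := by
  intro H
  obtain ⟨A, _, _, φ, gx, gy, hφ, hx, hy, hgen⟩ := exists_alg K
  obtain ⟨h1, h2, h3⟩ := abs_final φ hφ hx hy hgen
  exact h3 (H K A h1 h2)

end Pool.Agent.W412.Gni
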