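import Pool.Agent.W217.BE.Stm2

/-!
# Project BE: the induction step for a variable of `J` (part G2TRUE)
-/

set_option autoImplicit false

namespace Pool.Agent.W412.BEG2TRUE

open Pool.Agent.W217.BE
open Polynomial

section

variable {A κ : Type} [CommRing A] {k : ℕ} {M : Type} [AddCommGroup M] [Module A M]

/-- a slab of a graded module -/
def slab0 (ℳ : (Fin (k + 1) → ℤ) → Submodule A M) (t : ℤ) : Submodule A M :=
  ⨆ b : Fin k → ℤ, ℳ (Fin.cons t b)

theorem cons_add_zero (t : ℤ) (b : Fin k → ℤ) :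
    (Fin.cons t b : Fin (k + 1) → ℤ) + Pi.single 0 1 = Fin.cons (t + 1) b := by
  funext i
  refine Fin.cases ?_ (fun j => ?_) i
  · simp
  · simp

theorem cons_add_succ (t : ℤ) (b : Fin k → ℤ) (j : Fin k) :
    (Fin.cons t b : Fin (k + 1) → ℤ) + Pi.single j.succ 1 = Fin.cons t (b + Pi.single j 1) := by
  funext i
  refine Fin.cases ?_ (fun l => ?_) i
  · simp [(Fin.succ_ne_zero j).symm]
  · simp [Pi.single_apply]

variable [Module (MvPolynomial (Fin k) A) M] [IsScalarTower A (MvPolynomial (Fin k) A) M]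

theorem slab_closed (ℳ : (Fin (k + 1) → ℤ) → Submodule A M)
    (hXs : ∀ (j : Fin k) (a : Fin (k + 1) → ℤ) (x : M), x ∈ ℳ a →
      (MvPolynomial.X j : MvPolynomial (Fin k) A) • x ∈ ℳ (a + Pi.single j.succ 1))
    (t : ℤ) (q : MvPolynomial (Fin k) A) : ∀ x : M, x ∈ slab0 ℳ t → q • x ∈ slab0 ℳ t := by
  induction q using MvPolynomial.induction_on with
  | C a =>
    intro x hx
    have h1 : (MvPolynomial.C a : MvPolynomial (Fin k) A) • x = a • x := by
      rw [← MvPolynomial.algebraMap_eq, algebraMap_smul]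
    rw [h1]
    exact Submodule.smul_mem _ _ hx
  | add p q hp hq =>
    intro x hx
    rw [add_smul]
    exact Submodule.add_mem _ (hp x hx) (hq x hx)
  | mul_X p j hp =>
    intro x hx
    rw [mul_smul]
    apply hp
    unfold slab0 at hx
    refine Submodule.iSup_induction (fun b : Fin k → ℤ => ℳ (Fin.cons t b))
      (motive := fun x => (MvPolynomial.X j : MvPolynomial (Fin k) A) • x ∈ slab0 ℳ t) hx
      ?_ ?_ ?_
    · intro b y hy
      have h1 := hXs j _ y hy
      rw [cons_add_succ] at h1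
      exact Submodule.mem_iSup_of_mem (b + Pi.single j 1) h1
    · simp only [smul_zero]
      exact Submodule.zero_mem _
    · intro y z hy hz
      simp only [smul_add]
      exact Submodule.add_mem _ hy hz

/-- the slab as a submodule over the polynomial ring in the other variables -/
noncomputable def slab (ℳ : (Fin (k + 1) → ℤ) → Submodule A M)
    (hXs : ∀ (j : Fin k) (a : Fin (k + 1) → ℤ) (x : M), x ∈ ℳ a →
      (MvPolynomial.X j : MvPolynomial (Fin k) A) • x ∈ ℳ (a + Pi.single j.succ 1))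
    (t : ℤ) : Submodule (MvPolynomial (Fin k) A) M where
  carrier := {x | x ∈ slab0 ℳ t}
  add_mem' := fun hx hy => Submodule.add_mem (slab0 ℳ t) hx hy
  zero_mem' := Submodule.zero_mem (slab0 ℳ t)
  smul_mem' := fun q x hx => slab_closed ℳ hXs t q x hx

/-- the two forms of the slab -/
noncomputable def slabEquiv (ℳ : (Fin (k + 1) → ℤ) → Submodule A M)
    (hXs : ∀ (j : Fin k) (a : Fin (k + 1) → ℤ) (x : M), x ∈ ℳ a →
      (MvPolynomial.X j : MvPolynomial (Fin k) A) • x ∈ ℳ (a + Pi.single j.succ 1))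
    (t : ℤ) : ↥(slab0 ℳ t) ≃ₗ[A] ↥(slab ℳ hXs t) where
  toFun x := ⟨x.1, x.2⟩
  invFun x := ⟨x.1, x.2⟩
  map_add' _ _ := rfl
  map_smul' _ _ := rfl
  left_inv _ := rfl
  right_inv _ := rfl

/-- the grading of the slab -/
noncomputable def slabGr (ℳ : (Fin (k + 1) → ℤ) → Submodule A M)
    (hXs : ∀ (j : Fin k) (a : Fin (k + 1) → ℤ) (x : M), x ∈ ℳ a →
      (MvPolynomial.X j : MvPolynomial (Fin k) A) • x ∈ ℳ (a + Pi.single j.succ 1))
    (t : ℤ) (b : Fin k → ℤ) : Submodule A ↥(slab ℳ hXs t) :=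
  ((ℳ (Fin.cons t b)).comap (slab0 ℳ t).subtype).map
    (slabEquiv ℳ hXs t : ↥(slab0 ℳ t) →ₗ[A] ↥(slab ℳ hXs t))

theorem mem_slabGr (ℳ : (Fin (k + 1) → ℤ) → Submodule A M)
    (hXs : ∀ (j : Fin k) (a : Fin (k + 1) → ℤ) (x : M), x ∈ ℳ a →
      (MvPolynomial.X j : MvPolynomial (Fin k) A) • x ∈ ℳ (a + Pi.single j.succ 1))
    (t : ℤ) (b : Fin k → ℤ) (y : ↥(slab ℳ hXs t)) :
    y ∈ slabGr ℳ hXs t b ↔ (y : M) ∈ ℳ (Fin.cons t b) := by
  constructor
  · intro hy
    obtain ⟨z, hz, rfl⟩ := hy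
    exact hz
  · intro hy
    exact ⟨⟨y.1, y.2⟩, hy, rfl⟩

theorem int_equiv {A : Type} [CommRing A] {I : Type} [DecidableEq I] {P Q : Type}
    [AddCommGroup P] [Module A P] [AddCommGroup Q] [Module A Q] (φ : P ≃ₗ[A] Q)
    (D : I → Submodule A P) (hD : DirectSum.IsInternal D) :
    DirectSum.IsInternal (fun b => (D b).map (φ : P →ₗ[A] Q)) := by
  rw [DirectSum.isInternal_submodule_iff_iSupIndep_and_iSup_eq_top] at hD ⊢
  refine ⟨?_, ?_⟩
  · exact iSupIndep.map_orderIso (Submodule.orderIsoMapComap φ) hD.1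
  · rw [← Submodule.map_iSup, hD.2, Submodule.map_top]
    exact LinearMap.range_eq_top.2 φ.surjective

theorem slab_int (hREG : REGR0) (ℳ : (Fin (k + 1) → ℤ) → Submodule A M)
    (hXs : ∀ (j : Fin k) (a : Fin (k + 1) → ℤ) (x : M), x ∈ ℳ a →
      (MvPolynomial.X j : MvPolynomial (Fin k) A) • x ∈ ℳ (a + Pi.single j.succ 1))
    (hℳ : DirectSum.IsInternal ℳ) (t : ℤ) : DirectSum.IsInternal (slabGr ℳ hXs t) :=
  int_equiv (slabEquiv ℳ hXs t) _ ((hREG A k M ℳ hℳ).2 t)

theorem slabGr_X (ℳ : (Fin (k + 1) → ℤ) → Submodule A M)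
    (hXs : ∀ (j : Fin k) (a : Fin (k + 1) → ℤ) (x : M), x ∈ ℳ a →
      (MvPolynomial.X j : MvPolynomial (Fin k) A) • x ∈ ℳ (a + Pi.single j.succ 1))
    (t : ℤ) (j : Fin k) (b : Fin k → ℤ) (y : ↥(slab ℳ hXs t)) (hy : y ∈ slabGr ℳ hXs t b) :
    (MvPolynomial.X j : MvPolynomial (Fin k) A) • y ∈ slabGr ℳ hXs t (b + Pi.single j 1) := by
  rw [mem_slabGr] at hy ⊢
  have h1 := hXs j _ _ hy
  rw [cons_add_succ] at h1
  exact h1

end

theorem core1 (hSTEP : STEP) (hZCUT : ZCUT) (hZNIL : ZNIL) (hREG : REGR0) (hINT : INTCAR)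
    (A κ : Type) [CommRing A] [IsNoetherianRing A] [Field κ] (χ : A →+* κ) (c k : ℕ)
    (J : Fin k → Bool) (ih : G2 χ c J)
    (M : Type) [AddCommGroup M] [Module A M] [Module (MvPolynomial (Fin k) A)[X] M]
    [Module (MvPolynomial (Fin k) A) M]
    [IsScalarTower (MvPolynomial (Fin k) A) (MvPolynomial (Fin k) A)[X] M]
    [IsScalarTower A (MvPolynomial (Fin k) A) M] [Module.Finite (MvPolynomial (Fin k) A)[X] M]
    (ℳ : (Fin (k + 1) → ℤ) → Submodule A M) (hℳ : DirectSum.IsInternal ℳ)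
    (hX0 : ∀ a x, x ∈ ℳ a → (X : (MvPolynomial (Fin k) A)[X]) • x ∈ ℳ (a + Pi.single 0 1))
    (hXs : ∀ (j : Fin k) (a : Fin (k + 1) → ℤ) (x : M), x ∈ ℳ a →
      (MvPolynomial.X j : MvPolynomial (Fin k) A) • x ∈ ℳ (a + Pi.single j.succ 1))
    (hNZ : NZ ((chiJ χ J).comp (Polynomial.evalRingHom 0)) M)
    (hN0 : ∃ (n : ℕ) (s : (MvPolynomial (Fin k) A)[X]), chiJ χ J (s.coeff 0) ≠ 0 ∧
      ∀ x : M, (s * X ^ n) • x = 0)
    (hNs : ∀ j, J j = true → ∃ (n : ℕ) (s : (MvPolynomial (Fin k) A)[X]),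
      chiJ χ J (s.coeff 0) ≠ 0 ∧ ∀ x : M, (s * Polynomial.C (MvPolynomial.X j ^ n)) • x = 0)
    (hB : ∀ (N : Type) [AddCommGroup N] [Module A N] [Module.Finite A N], NZ χ N →
      (∀ a : A, (∃ α : Fin k →₀ ℕ, (∀ j, J j = true → α j = 0) ∧
        ∀ x : M, (MvPolynomial.monomial α a : MvPolynomial (Fin k) A) • x = 0) →
          ∀ y : N, a • y = 0) → HB χ N (fun i => c.choose i)) :
    HB ((chiJ χ J).comp (Polynomial.evalRingHom 0)) M
      (fun i => (c + (∑ j, if J j = true then 1 else 0) + 1).choose i) := by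
  have hNint : DirectSum.IsInternal (slab ℳ hXs) :=
    hINT A (MvPolynomial (Fin k) A) ℤ M (fun t => slab0 ℳ t) (slab ℳ hXs)
      (fun t x => Iff.rfl) (hREG A k M ℳ hℳ).1
  have hNX : ∀ (t : ℤ) (x : M), x ∈ slab ℳ hXs t →
      (X : (MvPolynomial (Fin k) A)[X]) • x ∈ slab ℳ hXs (t + 1) := by
    intro t x hx
    have hx' : x ∈ ⨆ b : Fin k → ℤ, ℳ (Fin.cons t b) := hx
    show (X : (MvPolynomial (Fin k) A)[X]) • x ∈ slab0 ℳ (t + 1)
    refine Submodule.iSup_induction (fun b : Fin k → ℤ => ℳ (Fin.cons t b))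
      (motive := fun x => (X : (MvPolynomial (Fin k) A)[X]) • x ∈ slab0 ℳ (t + 1)) hx' ?_ ?_ ?_
    · intro b y hy
      have h1 := hX0 _ y hy
      rw [cons_add_zero] at h1
      exact Submodule.mem_iSup_of_mem b h1
    · simp only [smul_zero]
      exact Submodule.zero_mem _
    · intro y z hy hz
      simp only [smul_add]
      exact Submodule.add_mem _ hy hz
  -- the induction hypothesis for the slabs
  have hslab : ∀ t : ℤ, NZ (chiJ χ J) (slab ℳ hXs t) →
      Module.Finite (MvPolynomial (Fin k) A) (slab ℳ hXs t) →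
      HB (chiJ χ J) (slab ℳ hXs t)
        (fun i => (c + ∑ j, if J j = true then 1 else 0).choose i) := by
    intro t hnz hfin
    refine ih (slab ℳ hXs t) (slabGr ℳ hXs t) (slab_int hREG ℳ hXs hℳ t)
      (fun j a x hx => slabGr_X ℳ hXs t j a x hx) hnz ?_ ?_
    · intro j hj
      obtain ⟨n, s, hs, h1⟩ := hNs j hj
      refine ⟨n, s.coeff 0, hs, fun x => ?_⟩
      have h2 := hZNIL (MvPolynomial (Fin k) A) M (slab ℳ hXs) hNint hNX s
        (MvPolynomial.X j ^ n) 0 (fun x => by rw [pow_zero, mul_one]; exact h1 x) x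
      rw [pow_zero, mul_one] at h2
      apply Subtype.ext
      show (s.coeff 0 * MvPolynomial.X j ^ n) • (x : M) = 0
      rw [← h2, ← Polynomial.algebraMap_eq, algebraMap_smul]
    · intro N _ _ _ hN hk
      refine hB N hN fun a ha => hk a ?_
      obtain ⟨α, hα, h1⟩ := ha
      exact ⟨α, hα, fun x => Subtype.ext (h1 x)⟩
  obtain ⟨t1, π1, ι1, s1, hs1, hnz1, hfin1, e1, f1, -⟩ := hZCUT (MvPolynomial (Fin k) A) κ
    (chiJ χ J) M (slab ℳ hXs) hNint hNX hNZ hN0 false
  obtain ⟨t2, π2, ι2, s2, hs2, hnz2, hfin2, e2, -, f2⟩ := hZCUT (MvPolynomial (Fin k) A) κ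
    (chiJ χ J) M (slab ℳ hXs) hNint hNX hNZ hN0 true
  have hb := hSTEP (MvPolynomial (Fin k) A) κ (chiJ χ J) M (slab ℳ hXs t1) (slab ℳ hXs t2)
    ι1 π1 ι2 π2 s1 s2 _ _ hs1 hs2 (f1 rfl) e1 (f2 rfl) e2 (hslab t1 hnz1 hfin1)
    (hslab t2 hnz2 hfin2)
  have hfun : (fun i => (c + (∑ j, if J j = true then 1 else 0) + 1).choose i) =
      fun i => (c + ∑ j, if J j = true then 1 else 0).choose i +
        if i = 0 then 0 else (c + ∑ j, if J j = true then 1 else 0).choose (i - 1) := by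
    funext i
    rcases i with _ | i
    · simp
    · rw [Nat.choose_succ_succ]
      simp [add_comm]
  rw [hfun]
  exact hb

theorem chiJ_eq {A κ : Type} [CommRing A] [Field κ] (χ : A →+* κ) {k : ℕ}
    (J : Fin (k + 1) → Bool) (hJ : J 0 = true) :
    chiJ χ J = ((chiJ χ (fun j => J (Fin.succ j))).comp (Polynomial.evalRingHom 0)).comp
      ((MvPolynomial.finSuccEquiv A k : MvPolynomial (Fin (k + 1)) A →+*
        (MvPolynomial (Fin k) A)[X])) := by
  refine MvPolynomial.ringHom_ext (fun a => ?_) (fun i => ?_)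
  · simp [chiJ, MvPolynomial.finSuccEquiv_apply]
  · refine Fin.cases ?_ (fun j => ?_) i
    · simp [chiJ, hJ, MvPolynomial.finSuccEquiv_X_zero]
    · simp [chiJ, MvPolynomial.finSuccEquiv_X_succ]

theorem fse_monomial {A : Type} [CommRing A] {k : ℕ} (α : Fin (k + 1) →₀ ℕ) (hα : α 0 = 0)
    (a : A) : MvPolynomial.finSuccEquiv A k (MvPolynomial.monomial α a) =
      Polynomial.C (MvPolynomial.monomial (Finsupp.tail α) a) := by
  rw [MvPolynomial.finSuccEquiv_apply]
  simp only [MvPolynomial.coe_eval₂Hom, MvPolynomial.eval₂_monomial]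
  rw [Finsupp.prod_fintype _ _ (fun i => pow_zero _), Fin.prod_univ_succ]
  simp only [Fin.cases_zero, Fin.cases_succ, hα, pow_zero, one_mul]
  rw [MvPolynomial.monomial_eq, Finsupp.prod_fintype _ _ (fun i => pow_zero _)]
  simp [Finsupp.tail_apply]

theorem main : ISO → STEP → ZCUT → ZNIL → REGR0 → INTCAR → G2TRUE := by
  intro hISO hSTEP hZCUT hZNIL hREG hINT A κ _ _ _ χ c k J hJ ih
  intro M _ _ _ _ _ ℳ hℳ hX hNZ hNIL hBASE
  let e : MvPolynomial (Fin (k + 1)) A ≃ₐ[A] (MvPolynomial (Fin k) A)[X] :=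
    MvPolynomial.finSuccEquiv A k
  letI m1 : Module (MvPolynomial (Fin k) A)[X] M := Module.compHom M
    (e.symm : (MvPolynomial (Fin k) A)[X] →+* MvPolynomial (Fin (k + 1)) A)
  letI m2 : Module (MvPolynomial (Fin k) A) M := Module.compHom M
    (Polynomial.C : MvPolynomial (Fin k) A →+* (MvPolynomial (Fin k) A)[X])
  have hs1 : ∀ (p : (MvPolynomial (Fin k) A)[X]) (x : M), p • x = e.symm p • x :=
    fun _ _ => rfl
  have hs2 : ∀ (q : MvPolynomial (Fin k) A) (x : M),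
      q • x = (Polynomial.C q : (MvPolynomial (Fin k) A)[X]) • x := fun _ _ => rfl
  haveI t1 : IsScalarTower (MvPolynomial (Fin k) A) (MvPolynomial (Fin k) A)[X] M :=
    ⟨fun q p x => by rw [Polynomial.smul_eq_C_mul, mul_smul, hs2]⟩
  haveI t2 : IsScalarTower A (MvPolynomial (Fin k) A) M := ⟨fun a q x => by
    rw [hs2, hs2, hs1, hs1, ← Polynomial.smul_C, map_smul, smul_assoc]⟩
  haveI fin : Module.Finite (MvPolynomial (Fin k) A)[X] M := by
    letI al : Algebra (MvPolynomial (Fin (k + 1)) A) (MvPolynomial (Fin k) A)[X] :=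
      (e : MvPolynomial (Fin (k + 1)) A →+* (MvPolynomial (Fin k) A)[X]).toAlgebra
    haveI : IsScalarTower (MvPolynomial (Fin (k + 1)) A) (MvPolynomial (Fin k) A)[X] M :=
      ⟨fun r p x => by
        have h1 : r • p = e r * p := rfl
        rw [h1, hs1, hs1, map_mul, mul_smul]
        congr 1
        exact e.symm_apply_apply r⟩
    exact Module.Finite.of_restrictScalars_finite (MvPolynomial (Fin (k + 1)) A) _ M
  have hchi : ∀ r : MvPolynomial (Fin (k + 1)) A, chiJ χ J r =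
      ((chiJ χ (fun j => J (Fin.succ j))).comp (Polynomial.evalRingHom 0)) (e r) := by
    intro r
    rw [chiJ_eq χ J hJ]
    rfl
  have hcoef : ∀ r : MvPolynomial (Fin (k + 1)) A, chiJ χ (fun j => J (Fin.succ j))
      ((e r).coeff 0) = chiJ χ J r := by
    intro r
    rw [hchi r, Polynomial.coeff_zero_eq_eval_zero]
    rfl
  have heX : e.symm (X : (MvPolynomial (Fin k) A)[X]) = MvPolynomial.X 0 :=
    (AlgEquiv.symm_apply_eq e).2 MvPolynomial.finSuccEquiv_X_zero.symm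
  have heS : ∀ j : Fin k, e.symm (Polynomial.C (MvPolynomial.X j)) =
      MvPolynomial.X (Fin.succ j) := fun j =>
    (AlgEquiv.symm_apply_eq e).2 MvPolynomial.finSuccEquiv_X_succ.symm
  have hcore := core1 hSTEP hZCUT hZNIL hREG hINT A κ χ c k (fun j => J (Fin.succ j)) ih M ℳ hℳ
    (fun a x hx => by
      rw [hs1, heX]
      exact hX 0 a x hx)
    (fun j a x hx => by
      rw [hs2, hs1, heS]
      exact hX _ a x hx)
    (by
      obtain ⟨x, hx⟩ := hNZ
      refine ⟨x, fun p hp => ?_⟩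
      rw [hs1]
      apply hx
      rw [hchi, AlgEquiv.apply_symm_apply]
      exact hp)
    (by
      obtain ⟨n, s, hs, h⟩ := hNIL 0 hJ
      refine ⟨n, e s, by rw [hcoef]; exact hs, fun x => ?_⟩
      rw [hs1, map_mul, map_pow, AlgEquiv.symm_apply_apply, heX]
      exact h x)
    (by
      intro j hj
      obtain ⟨n, s, hs, h⟩ := hNIL (Fin.succ j) hj
      refine ⟨n, e s, by rw [hcoef]; exact hs, fun x => ?_⟩
      rw [hs1, map_mul, Polynomial.C_pow, map_pow, AlgEquiv.symm_apply_apply, heS]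
      exact h x)
    (by
      intro N _ _ _ hN hk
      refine hBASE N hN fun a ha => hk a ?_
      obtain ⟨α, hα, h⟩ := ha
      refine ⟨Finsupp.tail α, fun j hj => ?_, fun x => ?_⟩
      · rw [Finsupp.tail_apply]
        exact hα _ hj
      · have h2 : e.symm (Polynomial.C (MvPolynomial.monomial (Finsupp.tail α) a)) =
            MvPolynomial.monomial α a :=
          (AlgEquiv.symm_apply_eq e).2 (fse_monomial α (hα 0 hJ) a).symm
        rw [hs2, hs1, h2]
        exact h x)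
  have hfin := hISO (MvPolynomial (Fin k) A)[X] (MvPolynomial (Fin (k + 1)) A) κ
    e.symm.toRingEquiv ((chiJ χ (fun j => J (Fin.succ j))).comp (Polynomial.evalRingHom 0))
    (chiJ χ J) M M (AddEquiv.refl M) _ (fun s => by
      rw [hchi]
      congr 1
      exact e.apply_symm_apply s) (fun s x => rfl) hcore
  have hsum : c + ∑ j, (if J j = true then 1 else 0) =
      c + (∑ j : Fin k, if J (Fin.succ j) = true then 1 else 0) + 1 := by
    rw [Fin.sum_univ_succ, if_pos hJ]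
    ring
  rw [hsum]
  exact hfin

end Pool.Agent.W412.BEG2TRUE
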